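import Pool.Agent.MP_de21d3_co.H6.Spec

/-!
Basic lemmas on the game, balls, trees and complexes.
-/

set_option autoImplicit false
set_option linter.unusedSectionVars false

namespace Pool.Agent.MP_de21d3_co.H6

open Finset Function H91

section Game

variable {V : Type} {G : SimpleGraph V} {ι ι' : Type}

lemma nrefl (a : V) : near G a a := Or.inl rfl

lemma nsymm {a b : V} (h : near G a b) : near G b a := h.imp Eq.symm SimpleGraph.Adj.symm

lemma Fc.bind {Q Q' : (ι → V) → V → Prop} {c : ι → V} {r : V} (h : Fc G Q c r)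
    (H : ∀ c r, Q c r → Fc G Q' c r) : Fc G Q' c r := by
  induction h with
  | done h => exact H _ _ h
  | cap i h => exact .cap i h
  | step c' h _ ih => exact .step c' h ih

lemma Fc.mono {Q Q' : (ι → V) → V → Prop} {c : ι → V} {r : V} (h : Fc G Q c r)
    (H : ∀ c r, Q c r → Q' c r) : Fc G Q' c r := h.bind fun c r h => .done (H c r h)

/-- A squad inside a larger set of cops; the other cops stay. -/
lemma Fc.lift {f : ι → ι'} (hf : Injective f) {Q : (ι → V) → V → Prop} {c₁ : ι → V} {r : V}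
    (h : Fc G Q c₁ r) (c : ι' → V) (e : c ∘ f = c₁) :
    Fc G (fun c' r => Q (c' ∘ f) r ∧ ∀ x, (∀ i, f i ≠ x) → c' x = c x) c r := by
  classical
  induction h generalizing c with
  | done h => exact .done ⟨e ▸ h, fun _ _ => rfl⟩
  | cap i h => exact .cap (f i) (by subst e; exact h)
  | step c' h _ ih =>
    have a : ∀ x, (∀ i, f i ≠ x) → extend f c' c x = c x := fun x hx =>
      extend_apply' _ _ _ fun ⟨i, hi⟩ => hx i hi
    refine .step (extend f c' c) (fun x => ?_) fun r' hr =>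
      (ih r' hr _ (extend_comp hf _ _)).mono fun d s ⟨x, y⟩ => ⟨x, fun u hu => (y u hu).trans (a u hu)⟩
    by_cases hx : ∃ i, f i = x
    · obtain ⟨i, rfl⟩ := hx
      rw [hf.extend_apply]
      subst e
      exact h i
    · rw [a x fun i hi => hx ⟨i, hi⟩]
      exact nrefl _

lemma Ex.mono {R R' : Finset V} {c : ι → V} {r : V} (h : Ex G R c r) (H : R' ⊆ R) : Ex G R' c r :=
  Fc.mono h fun _ _ a b => a (H b)

lemma Ex.lift {f : ι → ι'} (hf : Injective f) {R : Finset V} {c : ι' → V} {r : V}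
    (h : Ex G R (c ∘ f) r) : Ex G R c r := (Fc.lift hf h c rfl).mono fun _ _ h => h.1

lemma wn_of [Fintype ι] {k : ℕ} {R : Finset V} (hk : Fintype.card ι ≤ k)
    (h : ∀ (c : ι → V) r, Ex G R c r) : Wn G k R := fun ι' _ h' c r => by
  obtain ⟨f⟩ := Function.Embedding.nonempty_of_card_le (hk.trans h')
  exact Ex.lift f.injective (h _ r)

lemma Wn.mono {k k' : ℕ} {R R' : Finset V} (h : Wn G k R) (hk : k ≤ k') (H : R' ⊆ R) :
    Wn G k' R' := fun ι _ h' c r => (h ι (hk.trans h') c r).mono H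

lemma St.mono {k k' : ℕ} {R R' B B' Z Z' : Finset V} (h : St G k R B Z) (hk : k ≤ k')
    (hR : R' ⊆ R) (hB : ∀ v ∈ R', v ∈ B → v ∈ B') (hZ : ∀ v ∈ R', v ∈ Z' → v ∈ Z) :
    St G k' R' B' Z' := by
  obtain ⟨ι, _, A, c₀, a, b, d⟩ := h
  refine ⟨ι, _, A, c₀, a.trans hk, fun c r h hr => (b c r h (hR hr)).imp (·.mono hR)
    fun ⟨x, c', y, w⟩ => ⟨fun e => x (hZ r hr e), c', y, fun r' h' => w r' (hR h')⟩,
    fun r hr h => (d r (hR hr) fun e => h (hB r hr e)).mono fun _ _ h =>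
      h.imp_left fun x y => x (hR y)⟩

variable {R R' : Finset V} {x y u v : V} {n m : ℕ}

lemma Rch.left (h : Rch G R x n v) : x ∈ R := by
  induction h with
  | zero h => exact h
  | succ _ _ _ ih => exact ih

lemma Rch.right (h : Rch G R x n v) : v ∈ R := by
  cases h with
  | zero h => exact h
  | succ _ _ h => exact h

lemma Rch.le (h : Rch G R x n v) (hn : n ≤ m) : Rch G R x m v := by
  induction hn with
  | refl => exact h
  | step _ ih => exact .succ ih (nrefl _) h.right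

lemma Rch.sub (h : Rch G R x n v) (H : R ⊆ R') : Rch G R' x n v := by
  induction h with
  | zero h => exact .zero (H h)
  | succ _ a b ih => exact .succ ih a (H b)

lemma Rch.trans (h : Rch G R x n u) (h' : Rch G R u m v) : Rch G R x (n + m) v := by
  induction h' with
  | zero _ => exact h
  | succ _ a b ih => exact .succ ih a b

lemma Rch.one (hu : u ∈ R) (h : near G u v) (hv : v ∈ R) : Rch G R u 1 v := .succ (.zero hu) h hv

lemma Rch.symm (h : Rch G R x n v) : Rch G R v n x := by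
  induction h with
  | zero h => exact .zero h
  | succ c a b ih => exact Nat.add_comm _ 1 ▸ (Rch.one b (nsymm a) c.right).trans ih

lemma mem_ball : v ∈ ball G R x n ↔ Rch G R x n v := by
  simp only [ball, mem_filter]
  exact ⟨fun h => h.2, fun h => ⟨h.right, h⟩⟩

lemma ball_sub : ball G R x n ⊆ R := fun _ h => (mem_ball.1 h).right

lemma self_mem_ball (h : x ∈ R) : x ∈ ball G R x n := mem_ball.2 ((Rch.zero h).le n.zero_le)

lemma ball_mono (H : R ⊆ R') (hn : n ≤ m) : ball G R x n ⊆ ball G R' x m := fun _ h =>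
  mem_ball.2 (((mem_ball.1 h).sub H).le hn)

/-- A walk inside `R` stays in any set that contains the ball. -/
lemma Rch.restrict (h : Rch G R x n v) (H : ball G R x n ⊆ R') : Rch G R' x n v := by
  induction h with
  | zero h => exact .zero (H (self_mem_ball h))
  | succ c a b ih =>
    exact .succ (ih ((ball_mono Subset.rfl (Nat.le_succ _)).trans H)) a (H (mem_ball.2 (.succ c a b)))

lemma cn_of (h : ∀ v ∈ R, ∃ n, Rch G R x n v) : Cn G R := fun u hu v hv => by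
  obtain ⟨a, ha⟩ := h u hu
  obtain ⟨b, hb⟩ := h v hv
  exact ⟨_, ha.symm.trans hb⟩

lemma cn_ball : Cn G (ball G R x n) := cn_of fun _ h => ⟨n, (mem_ball.1 h).restrict Subset.rfl⟩

lemma mem_cmp : v ∈ cmp G R x ↔ ∃ n, Rch G R x n v := by
  simp only [cmp, mem_filter]
  exact ⟨fun h => h.2, fun ⟨n, h⟩ => ⟨h.right, n, h⟩⟩

lemma cmp_sub : cmp G R x ⊆ R := fun _ h => (mem_cmp.1 h).choose_spec.right

lemma self_mem_cmp (h : x ∈ R) : x ∈ cmp G R x := mem_cmp.2 ⟨0, .zero h⟩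

lemma cmp_closed (hu : u ∈ cmp G R x) (h : near G u v) (hv : v ∈ R) : v ∈ cmp G R x :=
  let ⟨n, a⟩ := mem_cmp.1 hu
  mem_cmp.2 ⟨n + 1, .succ a h hv⟩

lemma cn_cmp : Cn G (cmp G R x) := cn_of fun _ h =>
  let ⟨n, a⟩ := mem_cmp.1 h
  ⟨n, a.restrict fun _ b => mem_cmp.2 ⟨n, mem_ball.1 b⟩⟩

lemma dist_near (hG : G.Connected) (x : V) (h : near G u v) : G.dist x v ≤ G.dist x u + 1 := by
  rcases h with rfl | h
  · omega
  · have := hG.dist_triangle (u := x) (v := u) (w := v)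
    have := SimpleGraph.dist_eq_one_iff_adj.2 h
    omega

lemma Rch.dist (hG : G.Connected) (h : Rch G R x n v) : G.dist x v ≤ n := by
  induction h with
  | zero _ => simp
  | succ _ a _ ih => exact (dist_near hG x a).trans (by omega)

/-- One legal move toward `v`. -/
lemma toward (hG : G.Connected) (u v : V) : ∃ w, near G u w ∧ G.dist w v ≤ G.dist u v - 1 := by
  obtain ⟨p, hp⟩ := hG.exists_walk_length_eq_dist u v
  cases p with
  | nil => exact ⟨_, nrefl _, by simp⟩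
  | cons h p =>
    have := SimpleGraph.dist_le p
    simp only [SimpleGraph.Walk.length_cons] at hp
    exact ⟨_, Or.inr h, by omega⟩

variable {z a : V} (T : Bf G R z)

lemma Bf.iter_mem (ha : a ∈ R) (m : ℕ) : T.P^[m] a ∈ R := by
  induction m with
  | zero => exact ha
  | succ m ih => exact iterate_succ_apply' T.P m a ▸ T.mem _ ih

lemma Bf.lv_iter (ha : a ∈ R) (m : ℕ) : T.lv (T.P^[m] a) = T.lv a - m := by
  induction m with
  | zero => rfl
  | succ m ih => rw [iterate_succ_apply', T.dp _ (T.iter_mem ha m), ih, Nat.sub_sub]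

lemma Bf.wl_mem (ha : a ∈ R) (t : ℕ) : T.wl a t ∈ R := T.iter_mem ha _

lemma Bf.lv_wl (ha : a ∈ R) (t : ℕ) : T.lv (T.wl a t) = min t (T.lv a) := by
  rw [Bf.wl, T.lv_iter ha]
  omega

lemma Bf.lv_root : T.lv z = 0 := (T.rt z T.hz).2 rfl

lemma Bf.wl_zero (ha : a ∈ R) : T.wl a 0 = z :=
  (T.rt _ (T.wl_mem ha 0)).1 (by rw [T.lv_wl ha]; simp)

lemma Bf.wl_self (a : V) {t : ℕ} (h : T.lv a ≤ t) : T.wl a t = a := by
  rw [Bf.wl, Nat.sub_eq_zero_of_le h]
  rfl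

lemma Bf.P_root : T.P z = z :=
  (T.rt _ (T.mem z T.hz)).1 (by rw [T.dp z T.hz, T.lv_root])

lemma Bf.wl_succ (a : V) (t : ℕ) : T.wl a t = T.wl a (t + 1) ∨ T.wl a t = T.P (T.wl a (t + 1)) := by
  by_cases h : T.lv a ≤ t
  · exact Or.inl ((T.wl_self a h).trans (T.wl_self a (by omega)).symm)
  · refine Or.inr ?_
    rw [Bf.wl, Bf.wl, ← iterate_succ_apply' T.P]
    congr 1
    omega

lemma Bf.near_succ (ha : a ∈ R) (t : ℕ) : near G (T.wl a (t + 1)) (T.wl a t) := by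
  rcases T.wl_succ a t with h | h
  · exact Or.inl h.symm
  · exact h ▸ T.nr _ (T.wl_mem ha _)

lemma Bf.near_wl (ha : a ∈ R) {s t : ℕ} (h : s ≤ t + 1) (h' : t ≤ s + 1) :
    near G (T.wl a s) (T.wl a t) := by
  rcases (by omega : s = t ∨ s = t + 1 ∨ t = s + 1) with rfl | rfl | rfl
  exacts [nrefl _, T.near_succ ha _, nsymm (T.near_succ ha _)]

lemma Bf.wl_lv (ha : a ∈ R) (t : ℕ) : T.wl a (T.lv (T.wl a t)) = T.wl a t := by
  rw [T.lv_wl ha]
  rcases le_total t (T.lv a) with h | h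
  · rw [min_eq_left h]
  · rw [min_eq_right h, T.wl_self a h, T.wl_self a le_rfl]

lemma Bf.iter_wl (ha : a ∈ R) (m : ℕ) : T.wl a (T.lv a - m) = T.P^[m] a := by
  by_cases h : m ≤ T.lv a
  · rw [Bf.wl, Nat.sub_sub_self h]
  · rw [Nat.sub_eq_zero_of_le (by omega), T.wl_zero ha]
    exact ((T.rt _ (T.iter_mem ha m)).1 (by rw [T.lv_iter ha]; omega)).symm

lemma Bf.P_wl (ha : a ∈ R) (t : ℕ) : ∃ s, T.wl a s = T.P (T.wl a t) :=
  ⟨_, (T.iter_wl ha (T.lv a - t + 1)).trans (iterate_succ_apply' _ _ _)⟩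

lemma Bf.rch_wl (ha : a ∈ R) (t d : ℕ) : Rch G R (T.wl a t) d (T.wl a (t + d)) := by
  induction d with
  | zero => exact .zero (T.wl_mem ha t)
  | succ d ih => exact .succ ih (nsymm (T.near_succ ha _)) (T.wl_mem ha _)

lemma Bf.dist_wl (hG : G.Connected) (ha : a ∈ R) {s t d : ℕ} (h : s ≤ t + d) (h' : t ≤ s + d) :
    G.dist (T.wl a s) (T.wl a t) ≤ d := by
  rcases le_total s t with e | e
  · obtain ⟨k, rfl⟩ := Nat.exists_eq_add_of_le e
    exact ((T.rch_wl ha s k).dist hG).trans (by omega)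
  · obtain ⟨k, rfl⟩ := Nat.exists_eq_add_of_le e
    exact ((T.rch_wl ha t k).symm.dist hG).trans (by omega)

lemma Bf.mem_ball : v ∈ ball G R z n ↔ v ∈ R ∧ T.lv v ≤ n := by
  rw [H6.mem_ball]
  refine ⟨fun h => ⟨h.right, ?_⟩, fun ⟨h, e⟩ => ?_⟩
  · induction h with
    | zero _ => exact T.lv_root.le
    | succ c a b ih => exact (T.lip _ b _ c.right (nsymm a)).trans (by omega)
  · have := T.rch_wl h 0 n
    rwa [T.wl_zero h, T.wl_self v (by omega)] at this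

include T in
lemma Bf.cn : Cn G R := cn_of fun _ hv => ⟨_, H6.mem_ball.1 (T.mem_ball.2 ⟨hv, le_rfl⟩)⟩

lemma Bf.mem_walls {X : Finset V} : v ∈ T.walls X ↔ v ∈ R ∧ ¬T.Free X v := by
  simp only [Bf.walls, mem_filter]

variable {T}

lemma Bf.Free.mono {X X' : Finset V} (h : T.Free X v) (H : X' ⊆ X) : T.Free X' v :=
  fun a ha => h a (H ha)

lemma Bf.Rdy.mono {X X' : Finset V} {c : ι → V} (h : T.Rdy X c v) (H : X' ⊆ X) : T.Rdy X' c v :=
  let ⟨f, a, b⟩ := h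
  ⟨f, a.mono H, fun x hx => b x (H hx)⟩

lemma Bf.Sync.near {w : V} (h : T.Sync a w (T.lv v)) (ha : a ∈ R) {t : ℕ} (e : T.wl a t = v) :
    near G w v := by
  obtain ⟨s, rfl, b, d⟩ := h
  have := T.near_wl ha b d
  rwa [← e, T.wl_lv ha, e] at this

/-- A robber on a guarded wall is caught. -/
lemma Bf.Rdy.cap {X : Finset V} {c : ι → V} (h : T.Rdy X c v) (hX : X ⊆ R) (hv : ¬T.Free X v)
    (Q : (ι → V) → V → Prop) : Fc G Q c v := by
  simp only [Bf.Free, not_forall, not_not] at hv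
  obtain ⟨a, ha, t, e⟩ := hv
  obtain ⟨f, -, b⟩ := h
  exact .cap (f a) ((b a ha).near (hX ha) e)

lemma Bf.Cp.mono {X X' : Finset V} (h : T.Cp X v) (H : X ⊆ X') : T.Cp X' v :=
  fun ι _ a c b => h ι a c (b.mono H)

lemma Cells.card_pcs [Fintype V] {Λ : Type} [Fintype Λ] (C : Cells T Λ n) (D : ℕ) :
    (C.pcs D).card ≤ n * D := by
  classical
  have : C.pcs D ⊆ univ.biUnion fun Δ => {Δ} ×ˢ C.X Δ ×ˢ range D := fun p h => by
    simp only [Cells.pcs, mem_filter, mem_product, mem_univ, true_and] at h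
    simp only [mem_biUnion, mem_univ, true_and, mem_product, mem_singleton]
    exact ⟨_, rfl, h.2, h.1⟩
  refine ((card_le_card this).trans card_biUnion_le).trans ?_
  simp only [card_product, card_singleton, card_range, one_mul, ← sum_mul]
  exact Nat.mul_le_mul_right _ C.sum

end Game

section Complex

variable {V : Type} {G : SimpleGraph V} {N W : Type} {K : Cx G N W} {S U X Y : Finset W}
  {a b : W}

lemma Cx.adj.symm (h : K.adj a b) : K.adj b a :=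
  let ⟨p, i, j, x, y⟩ := h
  ⟨p, j, i, y, x⟩

lemma Cx.adj_near {u v : V} (h : near G u v) : K.adj (K.ι u) (K.ι v) := by
  rcases h with rfl | h
  · obtain ⟨p, i, e⟩ := K.occ (K.ι u)
    exact ⟨p, i, i, e, e⟩
  · exact K.edge u v h

lemma Cx.nodeAt_spec (y : W) : ∃ i, K.c (K.nodeAt y) i = y := (K.occ y).choose_spec

lemma Cx.path_symm (h : Relation.ReflTransGen (fun x y => x ∈ S ∧ y ∈ S ∧ K.adj x y) a b) :
    Relation.ReflTransGen (fun x y => x ∈ S ∧ y ∈ S ∧ K.adj x y) b a := by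
  induction h with
  | refl => exact .refl
  | tail _ y ih => exact .head ⟨y.2.1, y.1, y.2.2.symm⟩ ih

lemma Cx.conn_of (h : ∀ b ∈ X, Relation.ReflTransGen (fun x y => x ∈ X ∧ y ∈ X ∧ K.adj x y) a b) :
    K.Conn X := fun x hx y hy => (Cx.path_symm (h x hx)).trans (h y hy)

lemma Cx.conn_univ [Fintype W] : K.Conn univ := fun x _ y h => by
  have := K.conn x y
  clear h
  induction this with
  | refl => exact .refl
  | tail _ y ih => exact ih.tail ⟨mem_univ _, mem_univ _, y⟩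

lemma Cx.mem_comp : b ∈ K.comp S a ↔ b ∈ S ∧ a ∈ S ∧
    Relation.ReflTransGen (fun x y => x ∈ S ∧ y ∈ S ∧ K.adj x y) a b := by
  simp only [Cx.comp, mem_filter]

lemma Cx.comp_sub : K.comp S a ⊆ S := fun _ h => (Cx.mem_comp.1 h).1

lemma Cx.self_mem_comp (h : a ∈ S) : a ∈ K.comp S a := Cx.mem_comp.2 ⟨h, h, .refl⟩

lemma Cx.comp_closed : K.Closed S (K.comp S a) := ⟨Cx.comp_sub, fun _ hx _ hy h =>
  let ⟨u, v, w⟩ := Cx.mem_comp.1 hx
  Cx.mem_comp.2 ⟨hy, v, w.tail ⟨u, hy, h⟩⟩⟩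

lemma Cx.comp_conn : K.Conn (K.comp S a) := Cx.conn_of (a := a) fun b hb => by
  obtain ⟨-, v, w⟩ := Cx.mem_comp.1 hb
  clear hb
  induction w with
  | refl => exact .refl
  | tail x y ih =>
    exact ih.tail ⟨Cx.mem_comp.2 ⟨y.1, v, x⟩, Cx.mem_comp.2 ⟨y.2.1, v, x.tail y⟩, y.2.2⟩

/-- A connected subset that meets a closed set lies in it. -/
lemma Cx.Conn.sub (h : K.Conn X) (hX : X ⊆ S) (hU : K.Closed S U) (ha : a ∈ X) (ha' : a ∈ U) :
    X ⊆ U := fun b hb => by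
  have := h a ha b hb
  clear hb
  induction this with
  | refl => exact ha'
  | tail _ y ih => exact hU.2 _ ih _ (hX y.2.1) y.2.2

lemma Cx.conn_map {B : Finset V} (h : Cn G B) : K.Conn (B.map K.ι) := fun x hx y hy => by
  obtain ⟨u, hu, rfl⟩ := mem_map.1 hx
  obtain ⟨v, hv, rfl⟩ := mem_map.1 hy
  obtain ⟨n, e⟩ := h u hu v hv
  clear hv hy
  induction e with
  | zero _ => exact .refl
  | succ c d e ih =>
    exact ih.tail ⟨mem_map_of_mem _ c.right, mem_map_of_mem _ e, Cx.adj_near d⟩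

variable [Fintype N]

lemma Cx.mem_nd {p : N} : p ∈ K.nd X ↔ ∃ j, K.c p j ∈ X := by
  simp only [Cx.nd, mem_filter, mem_univ, true_and]

lemma Cx.psi_empty : K.psi ∅ = 0 := by simp [Cx.psi]

lemma Cx.psi_le_Psi (h : K.Closed S U) : K.psi U ≤ K.Psi S := by
  classical
  exact (Int.self_le_toNat _).trans (Int.ofNat_le.2 (le_sup (f := fun U => (K.psi U).toNat)
    (mem_filter.2 ⟨mem_powerset.2 h.1, h⟩)))

lemma Cx.Psi_le {n : ℕ} (h : ∀ U, K.Closed S U → K.psi U ≤ n) : K.Psi S ≤ n := by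
  classical
  exact Finset.sup_le fun U hU => Int.toNat_le.2 (h U (mem_filter.1 hU).2)

lemma Cx.Conn.Psi_le {n : ℕ} (h : K.Conn Y) (e : K.psi Y ≤ n) : K.Psi Y ≤ n :=
  Cx.Psi_le fun U hU => by
    rcases U.eq_empty_or_nonempty with rfl | ⟨a, ha⟩
    · simp [Cx.psi_empty]
    · rwa [Subset.antisymm hU.1 (h.sub Subset.rfl hU (hU.1 ha) ha)]

lemma Cx.gv_le {B : Finset V} {n : ℕ} (h : K.Conn U) (h1 : B.map K.ι ⊆ U) (h2 : U ⊆ Y)
    (h3 : K.psi U + 4 ≤ n) : K.gv Y B ≤ n := Nat.sInf_le ⟨U, h, h1, h2, h3⟩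

lemma Cx.gv_spec {B : Finset V} (h : K.Conn Y) (h1 : B.map K.ι ⊆ Y) :
    ∃ U, K.Conn U ∧ B.map K.ι ⊆ U ∧ U ⊆ Y ∧ K.psi U + 4 ≤ K.gv Y B :=
  Nat.sInf_mem (s := {n : ℕ | ∃ U, K.Conn U ∧ B.map K.ι ⊆ U ∧ U ⊆ Y ∧ K.psi U + 4 ≤ n})
    ⟨(K.psi Y + 4).toNat, Y, h, h1, Subset.rfl, Int.self_le_toNat _⟩

lemma Cx.gv_mono {B B' : Finset V} (h : K.Conn Y) (h1 : B.map K.ι ⊆ Y) (h2 : B' ⊆ B) :
    K.gv Y B' ≤ K.gv Y B :=
  let ⟨_, a, b, c, d⟩ := Cx.gv_spec h h1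
  Cx.gv_le a ((map_subset_map.2 h2).trans b) c d

lemma Cx.Good.wn {m k : ℕ} (h : K.Good m k) {B : Finset V} (hY : K.Conn Y)
    (h1 : B.map K.ι ⊆ Y) (hB : Cn G B) (e : K.gv Y B ≤ m) : Wn G k B :=
  let ⟨U, a, b, _, d⟩ := Cx.gv_spec hY h1
  h B U hB a b (d.trans (Int.ofNat_le.2 e))

variable {R : Finset V} {z : V} (T : Tr K R z)

lemma Tr.mem_Ls {e : N × Fin 3} : e ∈ T.Ls X ↔ K.Tch X e ∧ ¬T.Ts X e := by
  simp only [Tr.Ls, mem_filter, mem_univ, true_and]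

lemma Cx.Tch.sw {p : N} {i : Fin 3} (h : K.Tch X (p, i)) : K.Tch X (K.sw i p, i) :=
  let ⟨j, a, b⟩ := h
  ⟨j, a, (K.cs i j p a).symm ▸ b⟩

lemma Tr.Ts.sw {p : N} {i : Fin 3} (h : T.Ts X (p, i)) : T.Ts X (K.sw i p, i) := by
  obtain ⟨y, a, b, c | c⟩ := h
  · exact ⟨y, a, b, Or.inr (by rw [← c])⟩
  · obtain ⟨rfl, rfl⟩ := Prod.ext_iff.1 c
    exact ⟨y, a, b, Or.inl (by rw [K.inv])⟩

lemma Tr.Ls_sw {p : N} {i : Fin 3} (h : (p, i) ∈ T.Ls X) : (K.sw i p, i) ∈ T.Ls X :=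
  T.mem_Ls.2 ⟨(T.mem_Ls.1 h).1.sw, fun e => (T.mem_Ls.1 h).2 (K.inv i p ▸ Tr.Ts.sw T e)⟩

lemma Tr.Ls_nd {e : N × Fin 3} (h : e ∈ T.Ls X) : e.1 ∈ K.nd X :=
  let ⟨j, _, b⟩ := (T.mem_Ls.1 h).1
  Cx.mem_nd.2 ⟨j, b⟩

/-- The two ends of a tree side. -/
lemma Tr.Ts.ends {p : N} {i : Fin 3} (h : T.Ts X (p, i)) : ∃ y ∈ X, y ≠ K.ι z ∧ ∃ j k, j ≠ i ∧
    k ≠ i ∧ j ≠ k ∧ K.c p j = y ∧ K.c p k = T.par y ∧ ∀ l, l ≠ i → l = j ∨ l = k := by
  obtain ⟨y, a, b, c⟩ := h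
  obtain ⟨j, k, h1, h2, h3, h4⟩ := T.ends y b
  have h5 : j ≠ k := fun e => by
    have := T.lt y b
    rw [← h4, ← e, h3] at this
    exact lt_irrefl _ this
  have h6 : ∀ i j k l : Fin 3, j ≠ i → k ≠ i → j ≠ k → l ≠ i → l = j ∨ l = k := by decide
  rcases c with c | c
  · rw [← c] at h1 h2 h3 h4
    exact ⟨y, a, b, j, k, h1, h2, h5, h3, h4, fun l => h6 _ _ _ l h1 h2 h5⟩
  · obtain ⟨rfl, rfl⟩ := Prod.ext_iff.1 c
    exact ⟨y, a, b, j, k, h1, h2, h5, (K.cs _ _ _ h1).trans h3, (K.cs _ _ _ h2).trans h4,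
      fun l => h6 _ _ _ l h1 h2 h5⟩

lemma Tr.par_root : T.par (K.ι z) = K.ι z := by rw [T.pι z T.hz, T.toBf.P_root]

/-- The corners on a tree path from a corner with anchor in `A`. -/
def Tr.Wl (A : Finset V) (y : W) : Prop := ∃ x n, T.an x ∈ A ∧ T.par^[n] x = y

lemma Tr.Wl.par {A : Finset V} {y : W} (h : T.Wl A y) : T.Wl A (T.par y) :=
  let ⟨x, n, a, b⟩ := h
  ⟨x, n + 1, a, by rw [iterate_succ_apply', b]⟩

lemma Tr.not_wl {A : Finset V} {v : V} (hv : v ∈ R) (h : T.Free A v) : ¬T.Wl A (K.ι v) :=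
  fun ⟨x, n, a, b⟩ =>
    let ⟨t, e⟩ := T.anw x n v hv b
    h _ a t e

variable [DecidableEq V]

lemma Tr.mem_anch {e : N × Fin 3} {v : V} : v ∈ T.anch e ↔ ∃ j, j ≠ e.2 ∧ T.an (K.c e.1 j) = v := by
  simp [Tr.anch]

lemma Tr.anch_sub (e : N × Fin 3) : T.anch e ⊆ R := fun _ h =>
  let ⟨_, _, b⟩ := T.mem_anch.1 h
  b ▸ T.anm _

lemma Tr.card_anch (e : N × Fin 3) : (T.anch e).card ≤ 2 :=
  card_image_le.trans (by rw [filter_ne', card_erase_of_mem (mem_univ _)]; rfl)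

lemma Tr.anch_sw (p : N) (i : Fin 3) : T.anch (K.sw i p, i) = T.anch (p, i) := by
  ext v
  simp only [T.mem_anch]
  exact exists_congr fun j => and_congr_right fun h => by rw [K.cs i j p h]

lemma Tr.wl_of {A : Finset V} {e : N × Fin 3} (h : T.anch e ⊆ A) {j : Fin 3} (hj : j ≠ e.2) :
    T.Wl A (K.c e.1 j) := ⟨_, 0, h (T.mem_anch.2 ⟨j, hj, rfl⟩), rfl⟩

end Complex

end Pool.Agent.MP_de21d3_co.H6
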