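import Pool.Agent.MP_de21d3_co.H6.Base

/-!
Row BATCH: clusters of pieces, the marriage theorem and the batches of cops.
-/

set_option autoImplicit false

namespace Pool.Agent.MP_de21d3_co.H6

open Finset Function

namespace Batch

variable {V : Type} {G : SimpleGraph V} {P : Type}

open Classical in
/-- Greedy clusters of exactly `K` pieces inside balls of radius `r`. -/
lemma clusters (loc : P → V) (z : V) {K : ℕ} (hK : 0 < K) (r : ℕ) (Q : Finset P) :
    ∃ (m : ℕ) (ctr : ℕ → V) (cl : P → Option ℕ), m * K ≤ Q.card ∧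
      (∀ j, (Q.filter fun p => cl p = some j).card ≤ K) ∧
      (∀ p ∈ Q, ∀ j, cl p = some j → j < m ∧ G.dist (ctr j) (loc p) ≤ r) ∧
      ∀ y, (Q.filter fun p => cl p = none ∧ G.dist y (loc p) ≤ r).card ≤ K := by
  induction Q using Finset.strongInduction with
  | H Q ih =>
    by_cases h : ∃ y, K ≤ (Q.filter fun p => G.dist y (loc p) ≤ r).card
    · obtain ⟨y, hy⟩ := h
      obtain ⟨s, hs, hc⟩ := exists_subset_card_eq hy
      have hsQ : s ⊆ Q := hs.trans (filter_subset _ _)
      have hne : s.Nonempty := card_pos.1 (by omega)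
      obtain ⟨m, ctr, cl, h1, h2, h3, h4⟩ := ih (Q \ s) (sdiff_ssubset hsQ hne)
      refine ⟨m + 1, update ctr m y, fun p => if p ∈ s then some m else cl p, ?_, fun j => ?_,
        fun p hp j hj => ?_, fun x => ?_⟩
      · have := card_sdiff_add_card_eq_card hsQ
        rw [Nat.add_mul]
        omega
      · by_cases e : j = m
        · refine (card_le_card fun p hp => ?_).trans hc.le
          obtain ⟨a, b⟩ := mem_filter.1 hp
          by_contra n
          simp only [if_neg n] at b
          have := (h3 p (mem_sdiff.2 ⟨a, n⟩) j b).1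
          omega
        · refine (card_le_card fun p hp => ?_).trans (h2 j)
          obtain ⟨a, b⟩ := mem_filter.1 hp
          by_cases n : p ∈ s
          · simp only [if_pos n] at b
            exact absurd (Option.some.inj b).symm e
          · simp only [if_neg n] at b
            exact mem_filter.2 ⟨mem_sdiff.2 ⟨a, n⟩, b⟩
      · by_cases n : p ∈ s
        · simp only [if_pos n] at hj
          obtain rfl := Option.some.inj hj
          rw [update_self]
          exact ⟨Nat.lt_succ_self _, (mem_filter.1 (hs n)).2⟩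
        · simp only [if_neg n] at hj
          obtain ⟨a, b⟩ := h3 p (mem_sdiff.2 ⟨hp, n⟩) j hj
          rw [update_of_ne a.ne]
          exact ⟨by omega, b⟩
      · refine (card_le_card fun p hp => ?_).trans (h4 x)
        obtain ⟨a, b, c⟩ := mem_filter.1 hp
        by_cases n : p ∈ s
        · simp only [if_pos n] at b
          exact absurd b (by simp)
        · simp only [if_neg n] at b
          exact mem_filter.2 ⟨mem_sdiff.2 ⟨a, n⟩, b, c⟩
    · refine ⟨0, fun _ => z, fun _ => none, by simp, fun j => by simp, fun p _ j hj => by simp at hj,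
        fun y => ?_⟩
      have := not_exists.1 h y
      simp only [true_and]
      omega

open Classical in
/-- The deficiency form of the marriage theorem. -/
lemma hall (A : Finset P) (Nb : P → Finset ℕ) :
    ∃ S ⊆ A, (S.biUnion Nb).card ≤ S.card ∧
      ∃ f : P → ℕ, Set.InjOn f (A \ S : Finset P) ∧ ∀ p ∈ A \ S, f p ∈ Nb p := by
  obtain ⟨S, hS, hm⟩ := exists_max_image
    (A.powerset.filter fun S => (S.biUnion Nb).card ≤ S.card) card
    ⟨∅, mem_filter.2 ⟨empty_mem_powerset _, by simp⟩⟩
  obtain ⟨h1, h2⟩ := mem_filter.1 hS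
  have h1 := mem_powerset.1 h1
  refine ⟨S, h1, h2, ?_⟩
  have key : ∀ T : Finset {p // p ∈ A \ S}, T.card ≤ (T.biUnion fun p => Nb p.1).card := by
    intro T
    by_contra n
    have n := not_le.1 n
    let T' : Finset P := T.map (Embedding.subtype _)
    have a1 : T'.card = T.card := card_map _
    have a2 : ∀ p ∈ T', p ∈ A \ S := fun p hp => by
      obtain ⟨x, -, rfl⟩ := mem_map.1 hp
      exact x.2
    have a3 : T'.biUnion Nb = T.biUnion fun p => Nb p.1 := by
      ext j
      simp only [mem_biUnion, T', mem_map]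
      constructor
      · rintro ⟨_, ⟨x, a, rfl⟩, b⟩
        exact ⟨x, a, b⟩
      · rintro ⟨x, a, b⟩
        exact ⟨_, ⟨x, a, rfl⟩, b⟩
    have a4 : Disjoint S T' := disjoint_right.2 fun p hp => (mem_sdiff.1 (a2 p hp)).2
    have a5 := card_union_of_disjoint a4
    have a6 : ((S ∪ T').biUnion Nb).card ≤ (S.biUnion Nb).card + (T'.biUnion Nb).card := by
      rw [union_biUnion]
      exact card_union_le _ _
    have a7 := hm (S ∪ T') (mem_filter.2 ⟨mem_powerset.2
      (union_subset h1 fun p hp => (mem_sdiff.1 (a2 p hp)).1), by rw [a3] at a6; omega⟩)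
    omega
  obtain ⟨f, a, b⟩ := (all_card_le_biUnion_card_iff_exists_injective _).1 key
  refine ⟨fun p => if h : p ∈ A \ S then f ⟨p, h⟩ else 0, fun p hp p' hp' e => ?_, fun p hp => ?_⟩
  · have hp : p ∈ A \ S := hp
    have hp' : p' ∈ A \ S := hp'
    simp only [dif_pos hp, dif_pos hp'] at e
    exact congrArg Subtype.val (a e)
  · simp only [dif_pos hp]
    exact b ⟨p, hp⟩

open Classical in
/-- One batch: centres that serve all but a part `S` of any set of pieces. -/
lemma stage (hG : G.Connected) (loc : P → V) (z : V) {K : ℕ} (hK : 0 < K) (r : ℕ)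
    (Q : Finset P) : ∃ ctr : ℕ → V, ∀ A : Finset P, ∃ S ⊆ A, ∃ f : P → ℕ,
      Set.InjOn f (A \ S : Finset P) ∧
      (∀ p ∈ A \ S, f p < Q.card / K ∧ G.dist (ctr (f p)) (loc p) ≤ 2 * r) ∧
      (Q.filter fun p' => ∃ p ∈ S, G.dist (loc p') (loc p) ≤ r).card ≤ 2 * K * S.card := by
  obtain ⟨m, ctr, cl, h1, h2, h3, h4⟩ := clusters (G := G) loc z hK r Q
  have hm : m ≤ Q.card / K := (Nat.le_div_iff_mul_le hK).2 h1
  refine ⟨ctr, fun A => ?_⟩
  obtain ⟨S, a, b, f, c, d⟩ :=
    hall A fun p => (range m).filter fun j => G.dist (ctr j) (loc p) ≤ 2 * r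
  refine ⟨S, a, f, c, fun p hp => ?_, ?_⟩
  · obtain ⟨x, y⟩ := mem_filter.1 (d p hp)
    exact ⟨(mem_range.1 x).trans_le hm, y⟩
  · set B := S.biUnion fun p => (range m).filter fun j => G.dist (ctr j) (loc p) ≤ 2 * r with hB
    have s1 : (Q.filter fun p' => ∃ p ∈ S, G.dist (loc p') (loc p) ≤ r) ⊆
        (B.biUnion fun j => Q.filter fun p => cl p = some j) ∪
          S.biUnion fun p => Q.filter fun p' => cl p' = none ∧ G.dist (loc p) (loc p') ≤ r := by
      intro p' hp'
      obtain ⟨x, p, y, w⟩ := mem_filter.1 hp'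
      rcases e : cl p' with _ | j
      · exact mem_union_right _ (mem_biUnion.2 ⟨p, y, mem_filter.2
          ⟨x, e, by rwa [SimpleGraph.dist_comm]⟩⟩)
      · obtain ⟨u, v⟩ := h3 p' x j e
        have t := hG.dist_triangle (u := ctr j) (v := loc p') (w := loc p)
        exact mem_union_left _ (mem_biUnion.2 ⟨j, mem_biUnion.2 ⟨p, y, mem_filter.2
          ⟨mem_range.2 u, by omega⟩⟩, mem_filter.2 ⟨x, e⟩⟩)
    have s2 := card_biUnion_le_card_mul B (fun j => Q.filter fun p => cl p = some j) K
      fun j _ => h2 j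
    have s3 := card_biUnion_le_card_mul S
      (fun p => Q.filter fun p' => cl p' = none ∧ G.dist (loc p) (loc p') ≤ r) K
      fun p _ => h4 (loc p)
    have s4 := (card_le_card s1).trans (card_union_le _ _)
    have s5 := Nat.mul_le_mul_right K b
    calc _ ≤ S.card * K + S.card * K := by omega
      _ = 2 * K * S.card := by ring

end Batch

variable {V : Type} {G : SimpleGraph V}

theorem batchS (hG : G.Connected) : BatchS G := by
  classical
  intro P Λ Pc loc cell z q K k h ρ hK hq hcell hz
  choose ctr hctr using fun i => Batch.stage hG loc z hK (ρ i) Pc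
  let I : Finset (ℕ × ℕ) :=
    range k ×ˢ range (Pc.card / K) ∪ {k} ×ˢ range (q * h * (2 * q * K) ^ k)
  let c : ℕ × ℕ → V := fun x => if x.1 < k then ctr x.1 x.2 else z
  have hI : ∀ x ∈ I, x.1 ≤ k := fun x hx => by
    rcases mem_union.1 hx with e | e
    · exact (mem_range.1 (mem_product.1 e).1).le
    · exact (mem_singleton.1 (mem_product.1 e).1).le
  let A : Finset Λ → Finset P := fun C => Pc.filter fun p => cell p ∈ C
  have hA : ∀ C, (A C).card ≤ q * C.card := fun C =>
    card_le_mul_card_image_of_maps_to (f := cell) (fun p hp => (mem_filter.1 hp).2) q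
      fun Δ _ => hcell Δ _ ((filter_subset _ _).trans (filter_subset _ _))
        fun p hp => (mem_filter.1 hp).2
  have step : ∀ (i : ℕ) (C : Finset Λ), ∃ (S : Finset P) (f : P → ℕ) (C' : Finset Λ), S ⊆ Pc ∧
      (i ≤ k → C.card ≤ h * (2 * q * K) ^ i → (i = k → S = ∅) ∧
        Set.InjOn f (A C \ S : Finset P) ∧
        (∀ p ∈ A C \ S, (i, f p) ∈ I ∧ G.dist (c (i, f p)) (loc p) ≤ 2 * ρ i) ∧
        C'.card ≤ h * (2 * q * K) ^ (i + 1) ∧
        ∀ p ∈ S, ∀ p' ∈ Pc, G.dist (loc p') (loc p) ≤ ρ i → cell p' ∈ C') := by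
    intro i C
    by_cases hi : i < k
    · obtain ⟨S, a, f, b, d, e⟩ := hctr i (A C)
      refine ⟨S, f, (Pc.filter fun p' => ∃ p ∈ S, G.dist (loc p') (loc p) ≤ ρ i).image cell,
        a.trans (filter_subset _ _), fun _ hC => ⟨fun x => absurd x hi.ne, b, fun p hp => ?_, ?_,
          fun p hp p' hp' x => mem_image_of_mem _ (mem_filter.2 ⟨hp', p, hp, x⟩)⟩⟩
      · obtain ⟨x, y⟩ := d p hp
        refine ⟨mem_union_left _ (mem_product.2 ⟨mem_range.2 hi, mem_range.2 x⟩), ?_⟩
        simp only [c, if_pos hi]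
        exact y
      · calc _ ≤ 2 * K * S.card := card_image_le.trans e
          _ ≤ 2 * K * (q * (h * (2 * q * K) ^ i)) :=
            Nat.mul_le_mul_left _ (((card_le_card a).trans (hA C)).trans (Nat.mul_le_mul_left _ hC))
          _ = _ := by ring
    · refine ⟨∅, fun p => if e : p ∈ A C then ((A C).equivFin ⟨p, e⟩ : ℕ) else 0, ∅,
        empty_subset _, fun hi' hC => ⟨fun _ => rfl, fun p hp p' hp' e => ?_, fun p hp => ?_,
          by simp, by simp⟩⟩
      · have hp : p ∈ A C := (mem_sdiff.1 hp).1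
        have hp' : p' ∈ A C := (mem_sdiff.1 hp').1
        simp only [dif_pos hp, dif_pos hp'] at e
        exact congrArg Subtype.val ((A C).equivFin.injective (Fin.ext e))
      · have hp : p ∈ A C := (mem_sdiff.1 hp).1
        obtain rfl : i = k := by omega
        simp only [dif_pos hp, c, if_neg hi]
        refine ⟨mem_union_right _ (mem_product.2 ⟨mem_singleton_self _, mem_range.2 ?_⟩),
          hz p (mem_filter.1 hp).1⟩
        calc _ < (A C).card := ((A C).equivFin ⟨p, hp⟩).2
          _ ≤ q * (h * (2 * q * K) ^ i) := (hA C).trans (Nat.mul_le_mul_left _ hC)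
          _ = _ := by ring
  choose S f nx hS hst using step
  refine ⟨I, inferInstance, fun x => c x.1, ?_, fun C₀ h0 => ?_⟩
  · rw [Fintype.card_coe]
    refine (card_union_le _ _).trans ?_
    simp only [card_product, card_range, card_singleton, one_mul, le_refl]
  let C : ℕ → Finset Λ := fun i => Nat.rec C₀ (fun i C => nx i C) i
  have hC : ∀ i ≤ k, (C i).card ≤ h * (2 * q * K) ^ i := by
    intro i hi
    induction i with
    | zero => exact h0.trans (by simp)
    | succ i ih => exact (hst i (C i) (by omega) (ih (by omega))).2.2.2.1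
  refine ⟨C, fun i => S i (C i), fun i p =>
    if e : p ∈ A (C i) \ S i (C i) ∧ (i, f i (C i) p) ∈ I then some ⟨_, e.2⟩ else none,
    rfl, (hst k _ le_rfl (hC k le_rfl)).1 rfl, fun i => hS i _, fun i hi p hp a b => ?_,
    fun i p i' p' x a b => ?_, fun i hi => (hst i _ hi.le (hC i hi.le)).2.2.2.2⟩
  · have e0 : p ∈ A (C i) := by
      simp only [A, mem_filter]
      exact ⟨hp, a⟩
    have e : p ∈ A (C i) \ S i (C i) := mem_sdiff.2 ⟨e0, b⟩
    obtain ⟨u, v⟩ := (hst i _ hi (hC i hi)).2.2.1 p e
    exact ⟨⟨_, u⟩, dif_pos ⟨e, u⟩, v⟩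
  · by_cases e : p ∈ A (C i) \ S i (C i) ∧ (i, f i (C i) p) ∈ I
    · by_cases e' : p' ∈ A (C i') \ S i' (C i') ∧ (i', f i' (C i') p') ∈ I
      · simp only [dif_pos e] at a
        simp only [dif_pos e'] at b
        have u := congrArg Subtype.val (Option.some.inj (a.trans b.symm))
        obtain ⟨rfl, v⟩ := Prod.ext_iff.1 u
        have hi := hI _ e.2
        exact ⟨rfl, (hst _ _ hi (hC _ hi)).2.1 e.1 e'.1 v⟩
      · simp only [dif_neg e'] at b
        exact absurd b (by simp)
    · simp only [dif_neg e] at a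
      exact absurd a (by simp)

end Pool.Agent.MP_de21d3_co.H6
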