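import Pool.Agent.MP_de21d3_co.H6.Base

/-!
One more cop is brought to a wall; one cop forbids a wall; the linear bound.
-/

set_option autoImplicit false
set_option linter.unusedSectionVars false

namespace Pool.Agent.MP_de21d3_co.H6

open Finset Function H91

variable {V : Type} [Fintype V] [DecidableEq V] {G : SimpleGraph V}

theorem bringS (hG : G.Connected) : BringS G := by
  classical
  intro R z T ι _ Q X a P hQ hX ha hk hP H c r hr h hp
  by_cases haX : a ∈ X
  · exact H c r hr (by rwa [insert_eq_of_mem haX]) hp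
  obtain ⟨f, finj, hf⟩ := h
  obtain ⟨x, -, hx⟩ := exists_mem_notMem_of_card_lt_card (s := X.image f) (t := univ)
    (card_image_le.trans_lt (by simpa))
  have hx' : ∀ y ∈ X, f y ≠ x := fun y hy e => hx (e ▸ mem_image_of_mem f hy)
  have hne : ∀ y ∈ X, y ≠ a := fun y hy e => haX (e ▸ hy)
  let I : (ι → V) → V → Prop := fun c r =>
    r ∈ R ∧ P r ∧ ∀ y ∈ X, T.Sync y (c (f y)) (T.lv r)
  have mv : ∀ c r u, I c r → near G (c x) u →
      (∀ c' r', I c' r' → near G r r' → c' x = u → Fc G Q c' r') → Fc G Q c r := by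
    intro c r u ⟨hr, hp, hs⟩ hu K
    by_cases fr : T.Free X r
    swap
    · exact Bf.Rdy.cap ⟨f, finj, hs⟩ hX fr Q
    let c' : ι → V := fun i => if i = x then u else
      if h : ∃ y ∈ X, f y = i then T.wl h.choose (T.lv r) else c i
    have b : ∀ y ∈ X, c' (f y) = T.wl y (T.lv r) := fun y hy => by
      have e : ∃ y' ∈ X, f y' = f y := ⟨y, hy, rfl⟩
      have e' : e.choose = y := finj e.choose_spec.1 hy e.choose_spec.2
      simp only [c', if_neg (hx' y hy), dif_pos e, e']
    refine .step c' (fun i => ?_) fun r' hr' => ?_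
    · by_cases e : i = x
      · subst e
        simpa only [c', if_true] using hu
      by_cases e' : ∃ y ∈ X, f y = i
      · obtain ⟨y, hy, rfl⟩ := e'
        obtain ⟨t, e1, e2, e3⟩ := hs y hy
        rw [b y hy, e1]
        exact T.near_wl (hX hy) e2 e3
      · simp only [c', if_neg e, dif_neg e']
        exact nrefl _
    by_cases hR : r' ∈ R
    · have hs' : ∀ y ∈ X, T.Sync y (c' (f y)) (T.lv r') := fun y hy =>
        ⟨T.lv r, b y hy, T.lip _ hr _ hR hr', T.lip _ hR _ hr (nsymm hr')⟩
      by_cases fr' : T.Free X r'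
      · exact K c' r' ⟨hR, hP r hr r' hR hp hr' fr fr', hs'⟩ hr' (if_pos rfl)
      · exact Bf.Rdy.cap ⟨f, finj, hs'⟩ hX fr' Q
    · exact .done (hQ _ _ hR)
  have fin : ∀ t c r, I c r → c x = T.wl a t → t ≤ T.lv r + 1 → T.lv r ≤ t + 1 → Fc G Q c r := by
    intro t c r ⟨hr, hp, hs⟩ e h1 h2
    refine H c r hr ⟨update f a x, ?_, fun y hy => ?_⟩ hp
    · intro y hy y' hy' e'
      rcases mem_insert.1 (mem_coe.1 hy) with q | q <;>
        rcases mem_insert.1 (mem_coe.1 hy') with q' | q'
      · exact q.trans q'.symm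
      · rw [q, update_self, update_of_ne (hne _ q')] at e'
        exact absurd e'.symm (hx' _ q')
      · rw [q', update_self, update_of_ne (hne _ q)] at e'
        exact absurd e' (hx' _ q)
      · rw [update_of_ne (hne _ q), update_of_ne (hne _ q')] at e'
        exact finj q q' e'
    · rcases mem_insert.1 hy with rfl | hy
      · rw [update_self]
        exact ⟨t, e, h1, h2⟩
      · rw [update_of_ne (hne _ hy)]
        exact hs y hy
  have h2 : ∀ m t c r, R.sup T.lv ≤ t + m → I c r → c x = T.wl a t → t ≤ T.lv r + 1 →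
      Fc G Q c r := fun m => by
    induction m with
    | zero =>
      intro t c r hm h e h1
      have : T.lv r ≤ R.sup T.lv := le_sup h.1
      exact fin t c r h e h1 (by omega)
    | succ m ih =>
      intro t c r hm h e h1
      by_cases b : T.lv r ≤ t + 1
      · exact fin t c r h e h1 b
      · refine mv c r (T.wl a (t + 1)) h (e ▸ nsymm (T.near_succ ha t)) fun c' r' h' hr' e' => ?_
        have := T.lip _ h.1 _ h'.1 hr'
        exact ih (t + 1) c' r' (by omega) h' e' (by omega)
  have h1 : ∀ m c r, I c r → G.dist (c x) z ≤ m → Fc G Q c r := fun m => by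
    induction m with
    | zero =>
      intro c r h e
      have e' : c x = z := hG.dist_eq_zero_iff.1 (Nat.le_zero.1 e)
      exact h2 _ 0 c r (Nat.zero_add _).ge h (e'.trans (T.wl_zero ha).symm) (Nat.zero_le _)
    | succ m ih =>
      intro c r h e
      obtain ⟨w, hw, hd⟩ := toward hG (c x) z
      exact mv c r w h hw fun c' r' h' _ e' => ih c' r' h' (by rw [e']; omega)
  exact h1 _ c r ⟨hr, hp, hf⟩ le_rfl

theorem wallS (hG : G.Connected) : WallS G := by
  intro R z T a ha
  refine ⟨Unit, inferInstance, fun c r => T.Sync a (c ()) (T.lv r), fun _ => z, by simp,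
    fun c r h hr => ?_, fun r hr _ => ?_⟩
  · by_cases fr : T.Free {a} r
    · refine Or.inr ⟨fun e => (T.mem_walls.1 e).2 fr, fun _ => T.wl a (T.lv r), fun _ => ?_,
        fun r' hR hr' => ⟨T.lv r, rfl, T.lip _ hr _ hR hr', T.lip _ hR _ hr (nsymm hr')⟩⟩
      obtain ⟨t, e1, e2, e3⟩ := h
      exact e1 ▸ T.near_wl ha e2 e3
    · refine Or.inl (Bf.Rdy.cap (T := T) (X := {a}) ⟨fun _ => (), by simp, fun y hy => ?_⟩
        (singleton_subset_iff.2 ha) fr _)
      rw [mem_singleton.1 hy]
      exact h
  · refine bringS hG R z T Unit _ ∅ a (fun _ => True) (fun _ _ h => Or.inl h) (empty_subset _) ha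
      (by simp) (fun _ _ _ _ _ _ _ _ => trivial) (fun c r _ h _ => ?_) _ r hr
      ⟨fun _ => (), by simp, by simp⟩ trivial
    obtain ⟨f, -, b⟩ := h
    exact .done (Or.inr (b a (mem_insert_self _ _)))

theorem linS (hG : G.Connected) : LinS G := by
  classical
  intro R z T Λ _ n C ι _ hι c r
  by_cases hr : r ∈ R
  swap
  · exact .done hr
  have hY : (univ.biUnion C.X).card ≤ n := card_biUnion_le.trans C.sum
  have hR : univ.biUnion C.X ⊆ R := biUnion_subset.2 fun Δ _ => C.sub Δ
  have key : ∀ D : Finset V, D ⊆ univ.biUnion C.X →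
      (∀ c : ι → V, ∀ r ∈ R, T.Rdy D c r → Ex G R c r) →
      ∀ c : ι → V, ∀ r ∈ R, T.Rdy ∅ c r → Ex G R c r := fun D => by
    induction D using Finset.induction_on with
    | empty => exact fun _ h => h
    | insert a D _ ih =>
      intro hD H
      have hD' : D ⊆ univ.biUnion C.X := (subset_insert _ _).trans hD
      have := card_le_card hD'
      exact ih hD' fun c r hr h => bringS hG R z T ι _ D a (fun _ => True) (fun _ _ h => h)
        (hD'.trans hR) (hR (hD (mem_insert_self _ _))) (by omega)
        (fun _ _ _ _ _ _ _ _ => trivial) (fun c r hr h _ => H c r hr h) c r hr h trivial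
  obtain ⟨i⟩ : Nonempty ι := Fintype.card_pos_iff.1 (by omega)
  exact key _ Subset.rfl (fun c r hr h => C.cap r hr ι (by omega) c
    (h.mono (subset_biUnion_of_mem C.X (mem_univ _)))) c r hr ⟨fun _ => i, by simp, by simp⟩

end Pool.Agent.MP_de21d3_co.H6
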