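import Pool.Agent.MP_de21d3_co.H6.Base

/-!
The cells of a decomposition.
-/

set_option autoImplicit false
set_option linter.unusedSectionVars false

namespace Pool.Agent.MP_de21d3_co.H6

open Finset Function H91

variable {V : Type} [Fintype V] [DecidableEq V] {G : SimpleGraph V} {N W : Type} [Fintype N]
  [DecidableEq N] [Fintype W] [DecidableEq W]

namespace Cell

/-- Several cops are brought to their walls. -/
lemma bring (hb : BringS G) {R : Finset V} {z : V} (T : Bf G R z) {ι : Type} [Fintype ι]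
    (P : V → Prop) (B : Finset V) : ∀ X : Finset V, X ⊆ R → B ⊆ R →
    X.card + B.card ≤ Fintype.card ι →
    (∀ r ∈ R, ∀ r' ∈ R, P r → near G r r' → T.Free X r → T.Free X r' → P r') →
    (∀ c : ι → V, ∀ r ∈ R, T.Rdy (B ∪ X) c r → P r → Ex G R c r) →
    ∀ c : ι → V, ∀ r ∈ R, T.Rdy X c r → P r → Ex G R c r := by
  induction B using Finset.induction_on with
  | empty =>
    intro X _ _ _ _ h
    simpa using h
  | insert a B ha ih =>
    intro X hX hB hc hP h
    rw [card_insert_of_notMem ha] at hc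
    have haR := hB (mem_insert_self _ _)
    refine hb R z T ι _ X a P (fun _ _ h => h) hX haR (by omega) hP
      (ih (insert a X) (insert_subset haR hX) ((subset_insert _ _).trans hB) ?_ ?_ ?_)
    · have := card_insert_le a X
      omega
    · exact fun r hr r' hr' p n f f' =>
        hP r hr r' hr' p n (f.mono (subset_insert _ _)) (f'.mono (subset_insert _ _))
    · refine fun c r hr hR => h c r hr (hR.mono fun x hx => ?_)
      simp only [mem_union, mem_insert] at hx ⊢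
      tauto

variable {K : Cx G N W} {R : Finset V} {z : V} (T : Tr K R z) {Y : Finset W}

/-- Sealing at a vertex that is on no wall. -/
lemma vseal (hs : SealS K) (hY : R.map K.ι ⊆ Y) {A : Finset V} (φ : N → Prop)
    (h : ∀ p i, (p, i) ∈ T.Ls Y → φ p → ¬φ (K.sw i p) → T.anch (p, i) ⊆ A) {v : V} (hv : v ∈ R)
    (hf : T.Free A v) {p q : N} {i j : Fin 3} (hp : K.c p i = K.ι v) (hq : K.c q j = K.ι v) :
    φ p → φ q :=
  hs R z T Y (T.Wl A) φ (fun _ h => h.par) (fun p i a b c _ hj => T.wl_of (h p i a b c) hj) _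
    (hY (mem_map_of_mem _ hv)) (T.not_wl hv hf) p q i j hp hq

lemma card_an (E : Finset (N × Fin 3)) : (E.biUnion T.anch).card ≤ 2 * E.card :=
  card_biUnion_le.trans ((sum_le_card_nsmul _ _ 2 fun e _ => T.card_anch e).trans (by
    rw [smul_eq_mul, Nat.mul_comm]))

lemma an_sub (E : Finset (N × Fin 3)) : E.biUnion T.anch ⊆ R :=
  biUnion_subset.2 fun e _ => T.anch_sub e

variable {T} {x : ℤ} (D : Dec K.sw (K.nd Y) (T.Ls Y) (fun _ => 0) 2 x)

/-- The boundary sides of a set of nodes. -/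
noncomputable def bd (M : Finset N) : Finset (N × Fin 3) :=
  (T.Ls Y).filter fun e => e.1 ∈ M ∧ (e ∈ D.Cut ∨ K.sw e.2 e.1 ∉ M)

lemma mem_bd {M : Finset N} {p : N} {i : Fin 3} : (p, i) ∈ bd D M ↔
    (p, i) ∈ T.Ls Y ∧ p ∈ M ∧ ((p, i) ∈ D.Cut ∨ K.sw i p ∉ M) := mem_filter

lemma bseal (hs : SealS K) (hY : R.map K.ι ⊆ Y) {A : Finset V} {M : Finset N}
    (h : (bd D M).biUnion T.anch ⊆ A) {v : V} (hv : v ∈ R) (hf : T.Free A v) {p : N} {i : Fin 3}
    (hp : K.c p i = K.ι v) (hM : p ∈ M) (q : N) (j : Fin 3) (hq : K.c q j = K.ι v) : q ∈ M :=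
  vseal T hs hY (· ∈ M) (fun _ _ a b c =>
    (subset_biUnion_of_mem T.anch ((mem_bd D).2 ⟨a, b, Or.inr c⟩)).trans h) hv hf hp hq hM

/-- A set of nodes is split along the tree side above `p₁`. -/
lemma split (M : Finset N) {p₁ p₂ : N} (h₁ : p₁ ∈ M) (hne : p₂ ≠ p₁)
    (hd : D.dp p₂ ≤ D.dp p₁) : ∃ M₁ ⊆ M, ∃ i, p₁ ∈ M₁ ∧ p₂ ∉ M₁ ∧
      bd D M₁ ⊆ insert (p₁, i) ((bd D M).filter fun e => e.1 ∈ M₁) ∧
      bd D (M \ M₁) ⊆ insert (K.sw i p₁, i) ((bd D M).filter fun e => e.1 ∉ M₁) := by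
  classical
  let ch : N → Prop := fun p =>
    Relation.ReflTransGen (fun a b => ∃ i, D.up a = some i ∧ b = K.sw i a) p p₁
  have hdp : ∀ p, ch p → p = p₁ ∨ D.dp p₁ < D.dp p := fun p h => by
    induction h using Relation.ReflTransGen.head_induction_on with
    | refl => exact Or.inl rfl
    | head a _ ih =>
      obtain ⟨i, a, rfl⟩ := a
      have := (D.upL _ _ a).2.2
      rcases ih with ih | ih
      · exact Or.inr (ih ▸ this)
      · exact Or.inr (ih.trans this)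
  have key : ∀ p i, (p, i) ∈ T.Ls Y → (p, i) ∉ D.Cut → ch p → ¬ch (K.sw i p) →
      p = p₁ ∧ i = (D.up p₁).getD 0 := fun p i a b c d => by
    rcases D.tree p i a b with e | e
    · rcases Relation.ReflTransGen.cases_head c with f | ⟨_, ⟨j, f, rfl⟩, g⟩
      · exact ⟨f, by rw [← f, e]; rfl⟩
      · rw [e] at f
        exact (d (Option.some.inj f ▸ g)).elim
    · exact (d (.head ⟨i, e, (K.inv i p).symm⟩ c)).elim
  refine ⟨M.filter ch, filter_subset _ _, (D.up p₁).getD 0, mem_filter.2 ⟨h₁, .refl⟩,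
    fun h => ?_, ?_, ?_⟩
  · rcases hdp _ (mem_filter.1 h).2 with h | h
    exacts [hne h, by omega]
  · rintro ⟨p, i⟩ h
    obtain ⟨a, b, c⟩ := (mem_bd D).1 h
    obtain ⟨b1, b2⟩ := mem_filter.1 b
    by_cases d : (p, i) ∈ D.Cut ∨ K.sw i p ∉ M
    · exact mem_insert_of_mem (mem_filter.2 ⟨(mem_bd D).2 ⟨a, b1, d⟩, b⟩)
    · rw [not_or, not_not] at d
      obtain ⟨e, f⟩ := key p i a d.1 b2 fun e => c.elim d.1 fun c => c (mem_filter.2 ⟨d.2, e⟩)
      exact mem_insert.2 (Or.inl (Prod.ext e f))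
  · rintro ⟨p, i⟩ h
    obtain ⟨a, b, c⟩ := (mem_bd D).1 h
    obtain ⟨b1, b2⟩ := mem_sdiff.1 b
    by_cases d : (p, i) ∈ D.Cut ∨ K.sw i p ∉ M
    · exact mem_insert_of_mem (mem_filter.2 ⟨(mem_bd D).2 ⟨a, b1, d⟩, b2⟩)
    · rw [not_or, not_not] at d
      have g : ch (K.sw i p) := by
        by_contra g
        exact c.elim d.1 fun c => c (mem_sdiff.2 ⟨d.2, fun u => g (mem_filter.1 u).2⟩)
      obtain ⟨e, f⟩ := key (K.sw i p) i (T.Ls_sw a) (fun u => d.1 (K.inv i p ▸ D.sym _ _ u)) g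
        (by rw [K.inv i p]; exact fun u => b2 (mem_filter.2 ⟨b1, u⟩))
      refine mem_insert.2 (Or.inl (Prod.ext ?_ f))
      rw [← f, ← e]
      exact (K.inv i p).symm

/-- The choice of two nodes. -/
lemma pick (E : Finset (N × Fin 3)) (M : Finset N) (hE : ∀ e ∈ E, e.1 ∈ M) (d : N → ℕ) {p q : N}
    (hp : p ∈ M) (hq : q ∈ M) (h : q ≠ p) : ∃ p₁ ∈ M, ∃ p₂ ∈ M, p₂ ≠ p₁ ∧ d p₂ ≤ d p₁ ∧
      (E.card ≤ 3 ∨ ∃ i j, (p₁, i) ∈ E ∧ (p₂, j) ∈ E) := by
  by_cases c : E.card ≤ 3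
  · rcases le_total (d q) (d p) with e | e
    exacts [⟨p, hp, q, hq, h, e, Or.inl c⟩, ⟨q, hq, p, hp, h.symm, e, Or.inl c⟩]
  · obtain ⟨⟨a, i⟩, ha, ⟨b, j⟩, hb, ne, e⟩ := exists_ne_map_eq_of_card_lt_of_maps_to
      (s := E) (t := (univ : Finset (Fin 3))) (f := Prod.snd) (by simpa using c)
      fun _ _ => mem_coe.2 (mem_univ _)
    have ne' : a ≠ b := fun u => ne (Prod.ext u e)
    rcases le_total (d a) (d b) with e | e
    exacts [⟨b, hE _ hb, a, hE _ ha, ne', e, Or.inr ⟨_, _, hb, ha⟩⟩,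
      ⟨a, hE _ ha, b, hE _ hb, ne'.symm, e, Or.inr ⟨_, _, ha, hb⟩⟩]

lemma card_part {E E' : Finset (N × Fin 3)} {e : N × Fin 3} {φ : N × Fin 3 → Prop}
    [DecidablePred φ] (h : E' ⊆ insert e (E.filter φ)) (hE : E.card ≤ 10)
    (h' : E.card ≤ 3 ∨ ∃ u ∈ E, ¬φ u) : E'.card ≤ 10 := by
  have a := (card_le_card h).trans (card_insert_le _ _)
  rcases h' with b | b
  · have := card_filter_le E φ
    omega
  · have := card_lt_card (filter_ssubset.2 b)
    omega

/-- The robber is caught in a set of nodes with few boundary sides. -/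
lemma shrink (hb : BringS G) (hs : SealS K) (hY : R.map K.ι ⊆ Y) {ι : Type} [Fintype ι]
    (hι : 30 ≤ Fintype.card ι) (M : Finset N) : (bd D M).card ≤ 10 → ∀ c : ι → V, ∀ r ∈ R,
      T.Rdy ((bd D M).biUnion T.anch) c r → (∀ q j, K.c q j = K.ι r → q ∈ M) → Ex G R c r := by
  induction M using Finset.strongInduction with
  | H M ih =>
    intro hc c r hr hR hP
    obtain ⟨j, hj⟩ := K.nodeAt_spec (K.ι r)
    obtain ⟨i, hi⟩ := exists_ne j
    obtain ⟨p₁, h₁, p₂, h₂, hne, hd, hE⟩ := pick (bd D M) M (fun e he => (mem_filter.1 he).2.1)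
      D.dp (hP _ _ hj) (hP _ _ ((K.cs i j _ hi.symm).trans hj)) (K.ne i _)
    obtain ⟨M₁, hM, k, a₁, a₂, b₁, b₂⟩ := split D M h₁ hne hd
    have sub : ∀ {E : Finset (N × Fin 3)} {e : N × Fin 3} {φ : N × Fin 3 → Prop}
        [DecidablePred φ], E ⊆ insert e ((bd D M).filter φ) → T.anch e = T.anch (p₁, k) →
        E.biUnion T.anch ⊆ T.anch (p₁, k) ∪ (bd D M).biUnion T.anch := fun h e =>
      biUnion_subset.2 fun u hu => by
        rcases mem_insert.1 (h hu) with rfl | f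
        · exact e ▸ subset_union_left
        · exact (subset_biUnion_of_mem T.anch (mem_filter.1 f).1).trans subset_union_right
    refine bring hb T.toBf (fun r => ∀ q j, K.c q j = K.ι r → q ∈ M) (T.anch (p₁, k)) _
      (an_sub T _) (T.anch_sub _) ?_ (fun r hr r' hr' p n _ f => ?_) (fun c r hr hR hP => ?_)
      c r hr hR hP
    · have := card_an T (bd D M)
      have := T.card_anch (p₁, k)
      omega
    · obtain ⟨q, u, v, e, e'⟩ := Cx.adj_near (K := K) n
      exact bseal D hs hY Subset.rfl hr' f e' (p q u e)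
    · by_cases f : T.Free (T.anch (p₁, k) ∪ (bd D M).biUnion T.anch) r
      swap
      · exact hR.cap (union_subset (T.anch_sub _) (an_sub T _)) f _
      obtain ⟨j, hj⟩ := K.nodeAt_spec (K.ι r)
      by_cases g : K.nodeAt (K.ι r) ∈ M₁
      · exact ih M₁ ((ssubset_iff_of_subset hM).2 ⟨_, h₂, a₂⟩)
          (card_part b₁ hc (hE.imp_right fun ⟨_, _, _, u⟩ => ⟨_, u, a₂⟩)) c r hr
          (hR.mono (sub b₁ rfl)) (bseal D hs hY (sub b₁ rfl) hr f hj g)
      · exact ih (M \ M₁) ((ssubset_iff_of_subset sdiff_subset).2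
            ⟨_, h₁, fun u => (mem_sdiff.1 u).2 a₁⟩)
          (card_part b₂ hc (hE.imp_right fun ⟨_, _, u, _⟩ => ⟨_, u, not_not.2 a₁⟩)) c r hr
          (hR.mono (sub b₂ (T.anch_sw _ _))) (bseal D hs hY (sub b₂ (T.anch_sw _ _)) hr f hj
            (mem_sdiff.2 ⟨hP _ _ hj, g⟩))

lemma bd_top (Δ : N) : bd D (univ.filter fun p => D.top p = Δ) ⊆
    D.Cut.filter fun e => D.top e.1 = Δ := by
  rintro ⟨p, i⟩ h
  obtain ⟨a, b, c⟩ := (mem_bd D).1 h
  simp only [mem_filter, mem_univ, true_and] at b c ⊢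
  refine ⟨?_, b⟩
  by_contra d
  exact c.elim d fun c => c ((D.lab p i a d).trans b)

lemma card_cls (Δ : N) : (D.Cut.filter fun e => D.top e.1 = Δ).card ≤ 10 := by
  simpa using D.cls Δ

end Cell

open Cell in
theorem cellS (K : Cx G N W) (_hG : G.Connected) (hb : BringS G) (hs : SealS K) : CellS K := by
  intro R z T Y m hY hm D
  have sub : ∀ Δ, (bd D (univ.filter fun p => D.top p = Δ)).biUnion T.anch ⊆ T.cX D Δ :=
    fun Δ => biUnion_subset_biUnion_of_subset_left _ (bd_top D Δ)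
  have all : ∀ v ∈ R, ∀ Δ, T.Free (T.cX D Δ) v → ∀ p i, K.c p i = K.ι v → D.top p = Δ →
      ∀ q j, K.c q j = K.ι v → q ∈ univ.filter fun p => D.top p = Δ := fun v hv Δ f p i e h =>
    bseal D hs hY (sub Δ) hv f e (mem_filter.2 ⟨mem_univ _, h⟩)
  refine ⟨⟨T.cX D, fun v => D.top (K.nodeAt (K.ι v)), fun Δ => an_sub T _, fun Δ => ?_, ?_,
    fun v hv v' hv' n f f' => ?_, fun v hv ι _ hι c hR => ?_⟩, rfl, rfl⟩
  · have := card_an T (D.Cut.filter fun e => D.top e.1 = Δ)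
    have := card_cls D Δ
    unfold Tr.cX
    omega
  · refine (sum_le_sum fun Δ _ => card_an T (D.Cut.filter fun e => D.top e.1 = Δ)).trans ?_
    rw [← mul_sum, ← card_eq_sum_card_fiberwise (f := fun e : N × Fin 3 => D.top e.1)
      fun _ _ => mem_coe.2 (mem_univ _)]
    have := D.cnt
    simp only [Nat.cast_ofNat, Nat.cast_zero, sum_const_zero] at this
    omega
  · obtain ⟨q, u, w, e, e'⟩ := Cx.adj_near (K := K) n
    obtain ⟨j, hj⟩ := K.nodeAt_spec (K.ι v)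
    obtain ⟨j', hj'⟩ := K.nodeAt_spec (K.ι v')
    exact (mem_filter.1 (all v' hv' _ f' q w e'
      (mem_filter.1 (all v hv _ f _ j hj rfl q u e)).2 _ j' hj')).2
  · by_cases f : T.Free (T.cX D (D.top (K.nodeAt (K.ι v)))) v
    · obtain ⟨j, hj⟩ := K.nodeAt_spec (K.ι v)
      exact shrink D hb hs hY hι _ ((card_le_card (bd_top D _)).trans (card_cls D _)) c v hv
        (hR.mono (sub _)) (all v hv _ f _ j hj rfl)
    · exact hR.cap (an_sub T _) f _

end Pool.Agent.MP_de21d3_co.H6
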