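import Pool.Agent.MP_de21d3_co.H6.Base

/-!
The triangulated surface of a subdivided embedding scheme.
-/

set_option autoImplicit false
set_option linter.unusedSectionVars false

namespace Pool.Agent.MP_de21d3_co.H6

open Finset Function H91 Relation

variable {V : Type} [Fintype V] [DecidableEq V] {G : SimpleGraph V}

namespace CX

variable (σ : Scheme G) {V' : Type} {G' : SimpleGraph V'} {κ : ℕ} (S : Sub G (2 * κ) G')

lemma pteq (hκ : 0 < κ) {u v u' v' : V} {s s' : ℕ} (h : G.Adj u v) (h' : G.Adj u' v') (hs : s ≤ κ)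
    (hs' : s' ≤ κ) (e : S.pt u v s = S.pt u' v' s') : (s = 0 ∧ s' = 0 ∧ u' = u) ∨
      (u' = u ∧ v' = v ∧ s' = s) ∨ (u' = v ∧ v' = u ∧ s = κ ∧ s' = κ) := by
  rcases s.eq_zero_or_pos with rfl | h0
  · rcases s'.eq_zero_or_pos with rfl | h1
    · rw [S.zero u v h, S.zero u' v' h'] at e
      exact Or.inl ⟨rfl, rfl, (S.oinj e).symm⟩
    · exact absurd (e.symm.trans (S.zero u v h)) (S.one u' v' s' u h' h1 (by omega))
  · rcases S.inj u v s u' v' s' h h' h0 (by omega) (by omega) e with a | ⟨a, b, c⟩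
    · exact Or.inr (Or.inl a)
    · exact Or.inr (Or.inr ⟨a, b, by omega, by omega⟩)

/-- The three involutions on triangles. -/
def tw (i : Fin 3) (p : Flag G × Fin κ) : Flag G × Fin κ :=
  if i = 2 then (H60.sw σ 2 p.1, p.2)
  else if p.2.1 % 2 = i.1 then
    (if h : p.2.1 + 1 < κ then (p.1, ⟨p.2.1 + 1, h⟩) else (H60.sw σ 0 p.1, p.2))
  else if p.2.1 = 0 then (H60.sw σ 1 p.1, p.2)
  else (p.1, ⟨p.2.1 - 1, (Nat.sub_le _ _).trans_lt p.2.2⟩)

/-- The corners of a triangle. -/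
def cr (p : Flag G × Fin κ) (j : Fin 3) : V' ⊕ Quot σ.Rel :=
  if j = 2 then .inr (Quot.mk _ p.1)
  else .inl (S.pt p.1.1.1 p.1.1.2.1 (if p.2.1 % 2 = j.1 then p.2.1 else p.2.1 + 1))

lemma tw_two (f : Flag G) (s : Fin κ) : tw σ 2 (f, s) = (H60.sw σ 2 f, s) := if_pos rfl

variable {i : Fin 3} (hi : i ≠ 2) (f : Flag G)
include hi

lemma tw_up {s : ℕ} (h : s + 1 < κ) (e : s % 2 = i.1) :
    tw σ i (f, ⟨s, by omega⟩) = (f, ⟨s + 1, h⟩) := by simp [tw, hi, e, h]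

lemma tw_dn {s : ℕ} (h : s + 1 < κ) (e : s % 2 = i.1) :
    tw σ i (f, ⟨s + 1, h⟩) = (f, ⟨s, by omega⟩) := by
  have : (s + 1) % 2 ≠ i.1 := by omega
  simp [tw, hi, this]

lemma tw_top {s : Fin κ} (h : s.1 + 1 = κ) (e : s.1 % 2 = i.1) :
    tw σ i (f, s) = (H60.sw σ 0 f, s) := by simp [tw, hi, e, h]

omit hi in
lemma tw_bot {s : Fin κ} (h : s.1 = 0) : tw σ 1 (f, s) = (H60.sw σ 1 f, s) := by simp [tw, h]

omit hi in
lemma cases_tw (P : Fin 3 → Fin κ → Prop) (h2 : ∀ s, P 2 s)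
    (hu : ∀ i s (h : s + 1 < κ), i ≠ 2 → s % 2 = i.1 → P i ⟨s, by omega⟩ ∧ P i ⟨s + 1, h⟩)
    (ht : ∀ i s, i ≠ 2 → s.1 + 1 = κ → s.1 % 2 = i.1 → P i s) (hb : ∀ s, s.1 = 0 → P 1 s) :
    ∀ i s, P i s := by
  rintro i ⟨s, hs⟩
  by_cases hi : i = 2
  · exact hi ▸ h2 _
  have i2 : i.1 < 2 := by omega
  by_cases e : s % 2 = i.1
  · by_cases h : s + 1 < κ
    · exact (hu i s h hi e).1
    · exact ht i _ hi (by simp only; omega) e
  · rcases s with _ | s
    · exact (show i = 1 by omega) ▸ hb _ rfl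
    · exact (hu i s hs hi (by omega)).2

omit hi in
lemma tw_inv (i : Fin 3) : Involutive (tw (κ := κ) σ i) := by
  rintro ⟨f, s⟩
  revert f
  refine cases_tw (fun i s => ∀ f, tw σ i (tw σ i (f, s)) = (f, s)) (fun s f => ?_)
    (fun i s h hi e => ⟨fun f => ?_, fun f => ?_⟩) (fun i s hi h e f => ?_) (fun s h f => ?_) i s
  · rw [tw_two, tw_two, H60.sw_inv]
  · rw [tw_up σ hi f h e, tw_dn σ hi f h e]
  · rw [tw_dn σ hi f h e, tw_up σ hi f h e]
  · rw [tw_top σ hi f h e, tw_top σ hi _ h e, H60.sw_inv]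
  · rw [tw_bot σ f h, tw_bot σ _ h, H60.sw_inv]

omit hi in
lemma tw_ne (i : Fin 3) (p : Flag G × Fin κ) : tw σ i p ≠ p := by
  obtain ⟨f, s⟩ := p
  refine cases_tw (fun i s => tw σ i (f, s) ≠ (f, s)) (fun s => ?_)
    (fun i s h hi e => ⟨?_, ?_⟩) (fun i s hi h e => ?_) (fun s h => ?_) i s
  · simpa [tw_two] using H60.sw_ne σ 2 f
  · simp [tw_up σ hi f h e]
  · simp [tw_dn σ hi f h e]
  · simpa [tw_top σ hi f h e] using H60.sw_ne σ 0 f
  · simpa [tw_bot σ f h] using H60.sw_ne σ 1 f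

omit hi in
lemma tw_cr (i j : Fin 3) (p : Flag G × Fin κ) (h : j ≠ i) : cr σ S (tw σ i p) j = cr σ S p j := by
  obtain ⟨f, s⟩ := p
  revert h
  have up : ∀ (i : Fin 3) s (h : s + 1 < κ), i ≠ 2 → s % 2 = i.1 → j ≠ i →
      cr σ S (f, ⟨s + 1, h⟩) j = cr σ S (f, ⟨s, by omega⟩) j := fun i s h hi e hj => by
    by_cases j2 : j = 2
    · simp [cr, j2]
    have a : (s + 1) % 2 = j.1 := by omega
    have b : s % 2 ≠ j.1 := by omega
    simp [cr, j2, a, b]
  refine cases_tw (fun i s => j ≠ i → cr σ S (tw σ i (f, s)) j = cr σ S (f, s) j) (fun s hj => ?_)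
    (fun i s h hi e => ⟨fun hj => ?_, fun hj => ?_⟩) (fun i s hi h e hj => ?_) (fun s h hj => ?_) i s
  · simp [tw_two, cr, hj, H60.sw]
  · rw [tw_up σ hi f h e, up i s h hi e hj]
  · rw [tw_dn σ hi f h e, up i s h hi e hj]
  · rw [tw_top σ hi f h e]
    by_cases j2 : j = 2
    · simp [cr, j2, H60.sw_face]
    have b : s.1 % 2 ≠ j.1 := by omega
    have := S.rev _ _ κ f.2 (by omega)
    rw [show 2 * κ - κ = κ by omega] at this
    simp [cr, j2, b, h, H60.sw, this]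
  · rw [tw_bot σ f h]
    by_cases j2 : j = 2
    · simp [cr, j2, H60.sw_face]
    have b : s.1 % 2 = j.1 := by omega
    simp only [cr, j2, b, if_true, if_false]
    rw [h]
    exact congrArg _ ((S.zero _ _ (H60.sw σ 1 f).2).trans (S.zero _ _ f.2).symm)

omit hi in
lemma cr_ty (hκ : 0 < κ) (p q : Flag G × Fin κ) (i j : Fin 3) (e : cr σ S p i = cr σ S q j) :
    i = j := by
  by_cases i2 : i = 2 <;> by_cases j2 : j = 2
  · rw [i2, j2]
  · simp [cr, i2, j2] at e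
  · simp [cr, i2, j2] at e
  simp only [cr, i2, j2, if_false, Sum.inl.injEq] at e
  rcases pteq S hκ p.1.2 q.1.2 (by split_ifs <;> omega) (by split_ifs <;> omega) e with
    ⟨a, b, -⟩ | ⟨-, -, a⟩ | ⟨-, -, a, b⟩
  · split_ifs at a b
    omega
  · split_ifs at a <;> omega
  · split_ifs at a b <;> omega

omit hi in
lemma cr_ends (p : Flag G × Fin κ) : ∃ i j, cr σ S p i = .inl (S.pt p.1.1.1 p.1.1.2.1 p.2) ∧
    cr σ S p j = .inl (S.pt p.1.1.1 p.1.1.2.1 (p.2 + 1)) := by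
  rcases Nat.mod_two_eq_zero_or_one p.2.1 with h | h
  · exact ⟨0, 1, by simp [cr, h], by simp [cr, h]⟩
  · exact ⟨1, 0, by simp [cr, h], by simp [cr, h]⟩

omit hi in
lemma cr_edge {x y : V'} (h : G'.Adj x y) :
    ∃ p i j, cr σ S p i = .inl x ∧ cr σ S p j = .inl y := by
  obtain ⟨u, v, s, a, b, rfl, rfl⟩ := (S.adj x y).1 h
  by_cases c : s < κ
  · exact ⟨_, cr_ends σ S (⟨(u, v, true), a⟩, ⟨s, c⟩)⟩
  · obtain ⟨i, j, e1, e2⟩ := cr_ends σ S (⟨(v, u, true), a.symm⟩, ⟨2 * κ - (s + 1), by omega⟩)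
    refine ⟨_, j, i, e2.trans ?_, e1.trans ?_⟩
    · rw [← S.rev u v s a b.le]
      exact congrArg (fun t => Sum.inl (S.pt v u t)) (by simp only; omega)
    · rw [← S.rev u v (s + 1) a b]

/-- Moves around a corner. -/
abbrev Lk (j : Fin 3) : Flag G × Fin κ → Flag G × Fin κ → Prop :=
  ReflTransGen fun x y => ∃ i, i ≠ j ∧ y = tw σ i x

omit hi in
lemma Lk.symm {j : Fin 3} {p q : Flag G × Fin κ} (h : Lk σ j p q) : Lk σ j q p := by
  induction h with
  | refl => exact .refl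
  | tail _ h ih =>
    obtain ⟨i, a, rfl⟩ := h
    exact .head ⟨i, a, (tw_inv σ i _).symm⟩ ih

omit hi in
lemma lk_face (p q : Flag G × Fin κ) (e : Quot.mk σ.Rel p.1 = Quot.mk _ q.1) : Lk σ 2 p q := by
  have a : ∀ f s (h : s < κ), Lk σ 2 (f, (⟨0, by omega⟩ : Fin κ)) (f, ⟨s, h⟩) := fun f s => by
    induction s with
    | zero => exact fun _ => .refl
    | succ s ih =>
      have k : (⟨s % 2, by omega⟩ : Fin 3) ≠ 2 := fun e => by
        have := congrArg Fin.val e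
        simp only at this
        omega
      exact fun h => (ih _).tail ⟨_, k, (tw_up σ k f h rfl).symm⟩
  have b : ∀ f (s t : Fin κ), Lk σ 2 (f, s) (f, t) := fun f s t =>
    (Lk.symm σ (a f s.1 s.2)).trans (a f t.1 t.2)
  obtain ⟨f, s⟩ := p
  obtain ⟨f', s'⟩ := q
  have hκ := s.pos
  refine (b f s s').trans ?_
  have := Quot.eqvGen_exact e
  simp only at this
  clear e
  induction this with
  | refl => exact .refl
  | symm _ _ _ ih => exact Lk.symm σ ih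
  | trans _ _ _ _ _ i1 i2 => exact i1.trans i2
  | rel x y h =>
    rcases h with h | ⟨h1, h⟩
    · have k : (⟨(κ - 1) % 2, by omega⟩ : Fin 3) ≠ 2 := fun e => by
        have := congrArg Fin.val e
        simp only at this
        omega
      obtain rfl : y = H60.sw σ 0 x := Subtype.ext h
      exact ((b x s' ⟨κ - 1, by omega⟩).tail
        ⟨_, k, (tw_top σ k x (by simp only; omega) rfl).symm⟩).trans (b _ _ _)
    · obtain rfl : y = H60.sw σ 1 x := Subtype.ext (by simp [H60.sw, h1, h])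
      exact ((b x s' ⟨0, hκ⟩).tail ⟨1, by decide, (tw_bot σ x rfl).symm⟩).trans (b _ _ _)

lemma lk_flip {u v : V} (h : G.Adj u v) (b b' : Bool) (s : Fin κ) :
    Lk σ i (⟨(u, v, b), h⟩, s) (⟨(u, v, b'), h⟩, s) := by
  have := ReflTransGen.single (r := fun x y => ∃ j, j ≠ i ∧ y = tw σ j x)
    ⟨2, hi.symm, (tw_two σ ⟨(u, v, b), h⟩ s).symm⟩
  cases b <;> cases b' <;> first | exact .refl | exact this

omit hi in
lemma lk_rot {u v v' : V} (h : G.Adj u v) (h' : G.Adj u v') (b b' : Bool) {s : Fin κ}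
    (hs : s.1 = 0) : Lk σ 0 (⟨(u, v, b), h⟩, s) (⟨(u, v', b'), h'⟩, s) := by
  obtain ⟨m, e⟩ : ∃ m : ℕ, ((σ.rot u).formPerm ^ m) v = v' := (σ.nodup u).isCycleOn_formPerm
    |>.exists_pow_eq' (Set.toFinite _) ((σ.mem _ _).2 h) ((σ.mem _ _).2 h')
  subst e
  induction m generalizing b' with
  | zero => exact lk_flip σ (by decide) h b b' s
  | succ m ih =>
    revert h'
    simp only [pow_succ', Equiv.Perm.mul_apply]
    intro h'
    exact ((ih true ((σ.mem _ _).1 (List.mem_of_formPerm_apply_mem ((σ.mem _ _).2 h')))).tail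
      ⟨1, by decide, (tw_bot σ _ hs).symm⟩).trans (lk_flip σ (by decide) h' false b' s)

omit hi in
lemma cr_link (p q : Flag G × Fin κ) (j : Fin 3) (e : cr σ S p j = cr σ S q j) : Lk σ j p q := by
  by_cases j2 : j = 2
  · subst j2
    exact lk_face σ p q (by simpa [cr] using e)
  obtain ⟨⟨⟨u, v, b⟩, h⟩, s, hs⟩ := p
  obtain ⟨⟨⟨u', v', b'⟩, h'⟩, s', hs'⟩ := q
  simp only [cr, j2, if_false, Sum.inl.injEq] at e
  obtain ⟨i, ij, i2⟩ : ∃ i : Fin 3, i ≠ j ∧ i ≠ 2 := by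
    clear e
    revert j
    decide
  have up : ∀ f t (ht : t + 1 < κ), t % 2 ≠ j.1 →
      Lk σ j (f, (⟨t, by omega⟩ : Fin κ)) (f, ⟨t + 1, ht⟩) := fun f t ht k =>
    .single ⟨i, ij, (tw_up σ i2 f ht (by omega)).symm⟩
  rcases pteq S (by omega) h h' (by split_ifs <;> omega) (by split_ifs <;> omega) e with
    ⟨a, c, d⟩ | ⟨a, c, d⟩ | ⟨a, c, d, d'⟩
  · obtain ⟨rfl, rfl, rfl⟩ : s = 0 ∧ s' = 0 ∧ j = 0 := by
      split_ifs at a c
      omega
    obtain rfl : u' = u := d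
    exact lk_rot σ h h' b b' rfl
  · obtain rfl : u' = u := a
    obtain rfl : v' = v := c
    refine (lk_flip σ j2 h b b' _).trans ?_
    split_ifs at d with k1 k2 k2
    · subst d
      exact .refl
    · subst d
      exact up _ _ _ k2
    · subst d
      exact Lk.symm σ (up _ _ _ k1)
    · obtain rfl : s' = s := by omega
      exact .refl
  · obtain rfl : u' = v := a
    obtain rfl : v' = u := c
    obtain ⟨rfl, k1, k2⟩ : s' = s ∧ s + 1 = κ ∧ s % 2 = i.1 := by split_ifs at d d' <;> omega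
    exact .head ⟨i, ij, (tw_top σ i2 _ k1 k2).symm⟩ (lk_flip σ j2 h' _ b' _)

omit hi

/-- The complex. -/
def cx (hκ : 0 < κ) (hc : G'.Connected) (hd : ∀ u, ∃ v, G.Adj u v) :
    Cx G' (Flag G × Fin κ) (V' ⊕ Quot σ.Rel) where
  c := cr σ S
  sw := tw σ
  inv := tw_inv σ
  ne := tw_ne σ
  cs := tw_cr σ S
  ty := cr_ty σ S hκ
  link := cr_link σ S
  ι := .inl
  edge _ _ := cr_edge σ S
  occ := by
    rintro (x | ⟨⟨f⟩⟩)
    · obtain ⟨y, h⟩ : ∃ y, G'.Adj x y := by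
        rcases S.surj x with ⟨u, rfl⟩ | ⟨u, v, s, a, -, b, rfl⟩
        · obtain ⟨v, a⟩ := hd u
          exact ⟨_, (S.adj _ _).2 ⟨u, v, 0, a, by omega, (S.zero u v a).symm, rfl⟩⟩
        · exact ⟨_, (S.adj _ _).2 ⟨u, v, s, a, b, rfl, rfl⟩⟩
      obtain ⟨p, i, -, e, -⟩ := cr_edge σ S h
      exact ⟨p, i, e⟩
    · exact ⟨(f, ⟨0, hκ⟩), 2, rfl⟩
  conn := by
    have a : ∀ x y : V', ReflTransGen (fun a b => ∃ p i j, cr σ S p i = a ∧ cr σ S p j = b)
        (.inl x) (.inl y) := fun x y => by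
      obtain ⟨w⟩ := hc x y
      induction w with
      | nil => exact .refl
      | cons h _ ih => exact .head (cr_edge σ S h) ih
    rintro (x | ⟨⟨f⟩⟩) (y | ⟨⟨f'⟩⟩)
    · exact a x y
    · exact (a x _).tail ⟨(f', ⟨0, hκ⟩), 0, 2, rfl, rfl⟩
    · exact .head ⟨(f, ⟨0, hκ⟩), 2, 0, rfl, rfl⟩ (a _ y)
    · exact .head ⟨(f, ⟨0, hκ⟩), 2, 0, rfl, rfl⟩ ((a _ _).tail ⟨(f', ⟨0, hκ⟩), 0, 2, rfl, rfl⟩)

lemma card_flag : Fintype.card (Flag G) ≤ 4 * Nat.card G.edgeSet := by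
  classical
  have := Fintype.card_le_of_injective
    (fun f : Flag G => ((⟨(f.1.1, f.1.2.1), f.2⟩ : G.Dart), f.1.2.2)) fun f f' e =>
      Subtype.ext (by simpa [Prod.ext_iff, SimpleGraph.Dart.ext_iff, and_assoc] using e)
  rw [Fintype.card_prod, SimpleGraph.dart_card_eq_twice_card_edges, Fintype.card_bool] at this
  rw [Nat.card_eq_fintype_card, SimpleGraph.card_edgeSet]
  omega

lemma card_dart (hκ : 0 < κ) (B : Finset V') (M : Finset (Flag G × Fin κ)) (D : Finset (V' × V'))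
    (hM : ∀ p ∈ M, ∃ i j, i ≠ j ∧ cr σ S p i ∈ B.map .inl ∧ cr σ S p j ∈ B.map .inl)
    (hD : ∀ x y, x ∈ B → y ∈ B → G'.Adj x y → (x, y) ∈ D) : M.card ≤ D.card := by
  refine card_le_card_of_injOn (fun p => if p.1.1.2.2 then
    (S.pt p.1.1.1 p.1.1.2.1 p.2, S.pt p.1.1.1 p.1.1.2.1 (p.2 + 1))
    else (S.pt p.1.1.1 p.1.1.2.1 (p.2 + 1), S.pt p.1.1.1 p.1.1.2.1 p.2)) (fun p hp => ?_) ?_
  · obtain ⟨i, j, ij, hi, hj⟩ := hM p hp
    have a : G'.Adj (S.pt p.1.1.1 p.1.1.2.1 p.2) (S.pt p.1.1.1 p.1.1.2.1 (p.2 + 1)) :=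
      (S.adj _ _).2 ⟨_, _, _, p.1.2, by omega, rfl, rfl⟩
    have b : ∀ i : Fin 3, cr σ S p i ∈ B.map .inl → i ≠ 2 ∧
        S.pt p.1.1.1 p.1.1.2.1 (if p.2.1 % 2 = i.1 then p.2.1 else p.2.1 + 1) ∈ B := fun i h => by
      by_cases i2 : i = 2
      · simp [cr, i2] at h
      · exact ⟨i2, by simpa [cr, i2] using h⟩
    obtain ⟨i2, hi⟩ := b i hi
    obtain ⟨j2, hj⟩ := b j hj
    have c : S.pt p.1.1.1 p.1.1.2.1 p.2 ∈ B ∧ S.pt p.1.1.1 p.1.1.2.1 (p.2 + 1) ∈ B := by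
      split_ifs at hi hj
      · omega
      · exact ⟨hi, hj⟩
      · exact ⟨hj, hi⟩
      · omega
    dsimp only
    split_ifs
    · exact hD _ _ c.1 c.2 a
    · exact hD _ _ c.2 c.1 a.symm
  · rintro ⟨⟨⟨u, v, b⟩, h⟩, s, hs⟩ - ⟨⟨⟨u', v', b'⟩, h'⟩, s', hs'⟩ - e
    have n := h.ne
    have k1 : S.pt u v s = S.pt u' v' s' → S.pt u v (s + 1) = S.pt u' v' (s' + 1) →
        u' = u ∧ v' = v ∧ s' = s := fun e1 e2 => by
      have := pteq S hκ h h' (by omega) (by omega) e1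
      have := pteq S hκ h h' (by omega) (by omega) e2
      grind
    have k2 : S.pt u v s = S.pt u' v' (s' + 1) → S.pt u v (s + 1) = S.pt u' v' s' → False :=
      fun e1 e2 => by
        have := pteq S hκ h h' (by omega) (by omega) e1
        have := pteq S hκ h h' (by omega) (by omega) e2
        grind
    cases b <;> cases b' <;> simp only [Bool.false_eq_true, if_true, if_false, Prod.mk.injEq] at e
    · obtain ⟨rfl, rfl, rfl⟩ := k1 e.2 e.1
      rfl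
    · exact (k2 e.2 e.1).elim
    · exact (k2 e.1 e.2).elim
    · obtain ⟨rfl, rfl, rfl⟩ := k1 e.1 e.2
      rfl

end CX

open CX in
theorem cxS : CxS G := by
  intro σ g V' _ _ G' κ S hκ hc hd hg
  classical
  let _ := Fintype.ofFinite (Quot σ.Rel)
  refine ⟨_, _, inferInstance, inferInstance, inferInstance, inferInstance, cx σ S hκ hc hd, ?_,
    fun B => ?_⟩
  · have a := card_flag (G := G)
    have b := S.card
    have c : Fintype.card (Flag G × Fin κ) ≤ 4 * Nat.card G.edgeSet * κ := by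
      rw [Fintype.card_prod, Fintype.card_fin]
      exact Nat.mul_le_mul_right _ a
    obtain ⟨k, rfl⟩ : ∃ k, κ = k + 1 := ⟨κ - 1, by omega⟩
    rw [show 2 * (k + 1) - 1 = 2 * k + 1 by omega, Nat.card_eq_fintype_card] at b
    rw [Scheme.faces, Nat.card_eq_fintype_card (α := Quot _)] at hg
    rw [Cx.psi, card_univ, Fintype.card_sum, b]
    refine le_trans (add_le_add_left (sub_le_sub_right
      (Nat.cast_le.2 ((card_le_univ _).trans c)) _) _) ?_
    zify at hg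
    push_cast
    linarith
  · rw [Cx.psi, card_map, sub_add_cancel, Nat.cast_le]
    exact card_dart σ S hκ B _ _ (fun p hp => ((@mem_filter _ _ (_) _ _).1 hp).2)
      fun x y hx hy h => (@mem_filter _ _ (_) _ _).2 ⟨mem_product.2 ⟨hx, hy⟩, h⟩

end Pool.Agent.MP_de21d3_co.H6
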