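import Pool.Agent.MP_de21d3_co.H6.Base

/-!
The decomposition of a connected cubic graph into small subtrees.
-/

set_option autoImplicit false

namespace Pool.Agent.MP_de21d3_co.H6

open Finset Function

namespace DEC

variable {N : Type} [DecidableEq N]

lemma forest (par : N → N) (dp : N → ℕ) (p₀ : N) {b β : ℕ} (hb : 1 ≤ b) (S : Finset N) :
    ∀ ω : N → ℕ, p₀ ∉ S → (∀ q ∈ S, par q ∈ insert p₀ S ∧ dp (par q) < dp q) →
      (∀ p ∈ insert p₀ S, ω p + b * (S.filter fun q => par q = p).card ≤ β) →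
      ∃ (K : Finset N) (top : N → N), K ⊆ S ∧ b * K.card ≤ ∑ p ∈ insert p₀ S, ω p ∧
        (∀ p ∈ insert p₀ S, top p ∈ insert p₀ S) ∧ (∀ q ∈ S, q ∉ K → top q = top (par q)) ∧
        top p₀ = p₀ ∧ (∀ q ∈ K, top q = q) ∧
        ∀ t, ∑ p ∈ insert p₀ S, (if top p = t then ω p else 0) +
          ∑ q ∈ K, (if top (par q) = t then 1 else 0) ≤ β := by
  induction S using Finset.induction_on_max_value dp with
  | empty =>
    intro ω _ _ h
    refine ⟨∅, id, subset_rfl, by simp, fun p hp => hp, by simp, rfl, by simp, fun t => ?_⟩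
    have := h p₀ (mem_insert_self _ _)
    simp only [insert_empty_eq, sum_singleton, sum_empty, id]
    split_ifs <;> omega
  | insert q S hq hmax ih =>
    intro ω h0 hp hω
    have q0 : q ≠ p₀ := fun e => h0 (e ▸ mem_insert_self _ _)
    have h0' : p₀ ∉ S := fun e => h0 (mem_insert_of_mem e)
    have hq' : q ∉ insert p₀ S := by simp [q0, hq]
    rw [insert_comm] at hp hω ⊢
    have hp' : ∀ c ∈ insert q S, par c ∈ insert p₀ S := fun c hc =>
      (mem_insert.1 (hp c hc).1).resolve_left fun e => by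
        have h1 := (hp c hc).2
        rw [e] at h1
        rcases mem_insert.1 hc with rfl | hc
        exacts [h1.false, h1.not_ge (hmax c hc)]
    have hpq := hp' q (mem_insert_self _ _)
    have ne : ∀ p ∈ insert p₀ S, p ≠ q := fun p hp e => hq' (e ▸ hp)
    obtain ⟨d, hd, hd1⟩ : ∃ d, d ≤ b ∧ (d = 1 ∧ b + 1 ≤ ω q ∨ d = ω q) := by
      by_cases h : ω q ≤ b
      exacts [⟨_, h, Or.inr rfl⟩, ⟨1, hb, Or.inl ⟨rfl, by omega⟩⟩]
    obtain ⟨K, top, k1, k2, k3, k4, k5, k6, k7⟩ := ih (fun p => ω p + if par q = p then d else 0) h0'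
      (fun c hc => ⟨hp' c (mem_insert_of_mem hc), (hp c (mem_insert_of_mem hc)).2⟩) fun p hp => by
        have := hω p (mem_insert_of_mem hp)
        rw [filter_insert] at this
        split_ifs at this ⊢
        · rw [card_insert_of_notMem fun h => hq (mem_filter.1 h).1, mul_add] at this
          omega
        · omega
    rw [sum_add_distrib, sum_ite_eq, if_pos hpq] at k2
    have k8 : ∀ t, ∑ p ∈ insert p₀ S, (if top p = t then ω p else 0) +
        (if top (par q) = t then d else 0) + ∑ q ∈ K, (if top (par q) = t then 1 else 0) ≤ β := by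
      intro t
      refine le_trans (le_of_eq ?_) (k7 t)
      have : ∀ p, (if top p = t then ω p + if par q = p then d else 0 else 0) =
          (if top p = t then ω p else 0) + if par q = p then (if top p = t then d else 0) else 0 :=
        fun p => by split_ifs <;> rfl
      simp only [this]
      rw [sum_add_distrib, sum_ite_eq, if_pos hpq]
    have up : ∀ v, ∀ p ∈ insert p₀ S, update top q v p = top p := fun v p hp =>
      update_of_ne (ne p hp) _ _
    have s1 : ∀ v t, ∑ p ∈ insert q (insert p₀ S), (if update top q v p = t then ω p else 0) =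
        (if v = t then ω q else 0) + ∑ p ∈ insert p₀ S, (if top p = t then ω p else 0) := by
      intro v t
      rw [sum_insert hq', update_self]
      exact congrArg _ (sum_congr rfl fun p hp => by rw [up v p hp])
    have s2 : ∀ v t, ∑ c ∈ K, (if update top q v (par c) = t then 1 else 0) =
        ∑ c ∈ K, (if top (par c) = t then 1 else 0) := fun v t =>
      sum_congr rfl fun c hc => by rw [up v _ (hp' c (mem_insert_of_mem (k1 hc)))]
    have t1 : ∀ v ∈ insert q (insert p₀ S), ∀ p ∈ insert q (insert p₀ S),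
        update top q v p ∈ insert q (insert p₀ S) := by
      intro v hv p hp
      rcases mem_insert.1 hp with rfl | hp
      · rwa [update_self]
      · rw [up v p hp]
        exact mem_insert_of_mem (k3 p hp)
    have t2 : ∀ v, ∀ c ∈ S, c ∉ K → update top q v c = update top q v (par c) := fun v c hc h => by
      rw [up v c (mem_insert_of_mem hc), up v _ (hp' c (mem_insert_of_mem hc)), k4 c hc h]
    have t3 : ∀ v, update top q v p₀ = p₀ := fun v => (up v _ (mem_insert_self _ _)).trans k5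
    have t4 : ∀ v, ∀ c ∈ K, update top q v c = c := fun v c hc =>
      (up v c (mem_insert_of_mem (k1 hc))).trans (k6 c hc)
    rw [sum_insert hq']
    rcases hd1 with ⟨rfl, h⟩ | rfl
    · have qK : q ∉ K := fun e => hq (k1 e)
      refine ⟨insert q K, update top q q, insert_subset_insert _ k1, ?_,
        t1 q (mem_insert_self _ _), fun c hc h => ?_, t3 q, fun c hc => ?_, fun t => ?_⟩
      · rw [card_insert_of_notMem qK, mul_add]
        omega
      · rw [mem_insert, not_or] at h
        exact t2 q c ((mem_insert.1 hc).resolve_left h.1) h.2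
      · rcases mem_insert.1 hc with rfl | hc
        exacts [update_self _ _ _, t4 q c hc]
      · rw [s1, sum_insert qK, s2, up q _ hpq]
        by_cases e : q = t
        · subst e
          have := hω q (mem_insert_self _ _)
          rw [if_pos rfl, if_neg (ne _ (k3 _ hpq)), sum_eq_zero fun p hp => if_neg (ne _ (k3 p hp)),
            sum_eq_zero fun c hc => if_neg (ne _ (k3 _ (hp' c (mem_insert_of_mem (k1 hc)))))]
          omega
        · have := k8 t
          rw [if_neg e]
          omega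
    · refine ⟨K, update top q (top (par q)), k1.trans (subset_insert _ _), by omega,
        t1 _ (mem_insert_of_mem (k3 _ hpq)), fun c hc h => ?_, t3 _, t4 _, fun t => ?_⟩
      · rcases mem_insert.1 hc with rfl | hc
        · rw [update_self, up _ _ hpq]
        · exact t2 _ c hc h
      · have := k8 t
        rw [s1, s2]
        omega

/-- There is a walk of length `n` to the root. -/
def Rc (sw : Fin 3 → N → N) (L : Finset (N × Fin 3)) (p₀ : N) : ℕ → N → Prop
  | 0, p => p = p₀
  | n + 1, p => ∃ i, (p, i) ∈ L ∧ Rc sw L p₀ n (sw i p)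

omit [DecidableEq N] in
lemma bfs (sw : Fin 3 → N → N) (L : Finset (N × Fin 3)) (p₀ : N) (M : Finset N)
    (h : ∀ p ∈ M, Relation.ReflTransGen (fun a b => ∃ i, (a, i) ∈ L ∧ b = sw i a) p p₀) :
    ∃ (u : N → Fin 3) (dp : N → ℕ), ∀ q ∈ M, q ≠ p₀ → (q, u q) ∈ L ∧ dp (sw (u q) q) < dp q := by
  have key : ∀ q, ∃ i, q ∈ M → q ≠ p₀ → (q, i) ∈ L ∧
      sInf {n | Rc sw L p₀ n (sw i q)} < sInf {n | Rc sw L p₀ n q} := by
    intro q
    by_cases hq : q ∈ M ∧ q ≠ p₀
    · have h1 : {n | Rc sw L p₀ n q}.Nonempty := by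
        have := h q hq.1
        clear hq
        induction this using Relation.ReflTransGen.head_induction_on with
        | refl => exact ⟨0, rfl⟩
        | head e _ ih =>
          obtain ⟨i, a, rfl⟩ := e
          obtain ⟨n, hn⟩ := ih
          exact ⟨n + 1, i, a, hn⟩
      have h2 := Nat.sInf_mem h1
      generalize sInf {n | Rc sw L p₀ n q} = m at h2 ⊢
      rcases m with _ | m
      · exact absurd h2 hq.2
      · obtain ⟨i, a, c⟩ := h2
        exact ⟨i, fun _ _ => ⟨a, Nat.lt_succ_of_le (Nat.sInf_le c)⟩⟩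
    · exact ⟨0, fun a c => absurd ⟨a, c⟩ hq⟩
  choose u hu using key
  exact ⟨u, fun q => sInf {n | Rc sw L p₀ n q}, hu⟩

/-- The tree sides of the nodes in `A` and their mirror images. -/
def TS (sw : Fin 3 → N → N) (u : N → Fin 3) (A : Finset N) : Finset (N × Fin 3) :=
  A.image (fun q => (q, u q)) ∪ A.image fun q => (sw (u q) q, u q)

variable {sw : Fin 3 → N → N} {u : N → Fin 3} {A : Finset N}

lemma mem_TS (hi : ∀ i, Involutive (sw i)) {p : N} {i : Fin 3} :
    (p, i) ∈ TS sw u A ↔ (p ∈ A ∧ u p = i) ∨ (sw i p ∈ A ∧ u (sw i p) = i) := by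
  simp only [TS, mem_union, mem_image, Prod.mk.injEq]
  refine or_congr ⟨?_, fun h => ⟨p, h.1, rfl, h.2⟩⟩ ⟨?_, fun h => ⟨_, h.1, by rw [h.2, hi], h.2⟩⟩
  · rintro ⟨q, a, rfl, c⟩
    exact ⟨a, c⟩
  · rintro ⟨q, a, rfl, rfl⟩
    rw [hi]
    exact ⟨a, rfl⟩

lemma sum_TS (hi : ∀ i, Involutive (sw i)) {dp : N → ℕ} (h : ∀ q ∈ A, dp (sw (u q) q) < dp q)
    (F : N → ℕ) : ∑ e ∈ TS sw u A, F e.1 = ∑ q ∈ A, F q + ∑ q ∈ A, F (sw (u q) q) := by
  rw [TS, sum_union, sum_image fun a _ b _ e => congrArg Prod.fst e, sum_image]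
  · intro a _ b _ e
    obtain ⟨e1, e2⟩ := Prod.mk.inj e
    rw [e2] at e1
    exact (hi _).injective e1
  · refine disjoint_left.2 fun e h1 h2 => ?_
    obtain ⟨a, ha, rfl⟩ := mem_image.1 h1
    obtain ⟨c, hc, e⟩ := mem_image.1 h2
    obtain ⟨e1, e2⟩ := Prod.mk.inj e
    have h3 := h a ha
    have h4 := h c hc
    rw [← e2, ← e1, hi] at h3
    omega

end DEC

open DEC in
theorem decS : DecS := by
  intro N _ _ sw M L w b x hi _ hM hL ⟨p₀, hp₀⟩ hc hw hb hx
  obtain ⟨u, dp, hu⟩ := bfs sw L p₀ M fun p hp => hc p hp p₀ hp₀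
  obtain ⟨S, h0, rfl⟩ : ∃ S, p₀ ∉ S ∧ M = insert p₀ S :=
    ⟨M.erase p₀, notMem_erase _ _, (insert_erase hp₀).symm⟩
  have hS : ∀ q ∈ S, (q, u q) ∈ L ∧ dp (sw (u q) q) < dp q := fun q hq =>
    hu q (mem_insert_of_mem hq) fun e => h0 (e ▸ hq)
  obtain ⟨b, rfl⟩ : ∃ c, b = c + 1 := ⟨b - 1, by omega⟩
  have sub : ∀ A ⊆ S, TS sw u A ⊆ L := by
    rintro A hA ⟨p, i⟩ h
    rcases (mem_TS hi).1 h with ⟨a, rfl⟩ | ⟨a, e⟩
    · exact (hS p (hA a)).1
    · have := hL _ _ (hS _ (hA a)).1
      rwa [e, hi] at this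
  have sym : ∀ A p i, (p, i) ∈ TS sw u A → (sw i p, i) ∈ TS sw u A := fun A p i h => by
    rw [mem_TS hi] at h ⊢
    rw [hi]
    exact h.symm
  obtain ⟨Ch, hCh⟩ : ∃ Ch, Ch = L \ TS sw u S := ⟨_, rfl⟩
  have c1 : Ch.card + 2 * S.card = L.card := by
    have := sum_TS hi (fun q hq => (hS q hq).2) fun _ => 1
    simp only [← card_eq_sum_ones] at this
    rw [hCh, two_mul, ← this, card_sdiff_add_card_eq_card (sub S subset_rfl)]
  have c2 : ∀ e ∈ Ch, e.1 ∈ insert p₀ S := fun e he => hM e (mem_sdiff.1 (hCh ▸ he)).1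
  obtain ⟨K, top, k1, k2, -, k4, k5, k6, k7⟩ := forest (fun q => sw (u q) q) dp p₀
    (b := b) (β := 3 * (b + 1) + 3) (by omega) S
    (fun p => w p + (Ch.filter fun e => e.1 = p).card) h0
    (fun q hq => ⟨hM _ (hL _ _ (hS q hq).1), (hS q hq).2⟩) fun p _ => by
      have h1 : (Ch.filter fun e => e.1 = p).card ≤ 3 := by
        refine (card_le_card (t := univ.image fun i : Fin 3 => (p, i)) fun e he => ?_).trans
          card_image_le
        exact mem_image.2 ⟨e.2, mem_univ _, Prod.ext (mem_filter.1 he).2.symm rfl⟩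
      have h2 : (S.filter fun q => sw (u q) q = p).card ≤ 3 := by
        refine (card_le_card (t := univ.image fun i : Fin 3 => sw i p) fun q hq => ?_).trans
          card_image_le
        exact mem_image.2 ⟨u q, mem_univ _, by rw [← (mem_filter.1 hq).2, hi]⟩
      have := Nat.mul_le_mul_left b h2
      have := hw p
      omega
  have hK : ∀ q ∈ K, dp (sw (u q) q) < dp q := fun q hq => (hS q (k1 hq)).2
  have nc : ∀ p i, (p, i) ∈ L → (p, i) ∉ Ch ∪ TS sw u K →
      (p ∈ S ∧ p ∉ K ∧ u p = i) ∨ (sw i p ∈ S ∧ sw i p ∉ K ∧ u (sw i p) = i) := by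
    intro p i h1 h2
    rw [mem_union, not_or, hCh, mem_sdiff, not_and, not_not, mem_TS hi, mem_TS hi, not_or] at h2
    exact (h2.1 h1).imp (fun h => ⟨h.1, fun a => h2.2.1 ⟨a, h.2⟩, h.2⟩)
      fun h => ⟨h.1, fun a => h2.2.2 ⟨a, h.2⟩, h.2⟩
  refine ⟨⟨top, fun p => if p ∈ S ∧ p ∉ K then some (u p) else none, dp, Ch ∪ TS sw u K,
    union_subset (hCh ▸ sdiff_subset) (sub K k1), fun p i h => ?_, fun p i h1 h2 => ?_,
    fun p i h1 h2 => ?_, fun p i h => ?_, fun p hp h => ?_, ?_, fun t => ?_⟩⟩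
  · rw [mem_union] at h ⊢
    refine h.imp (fun h => ?_) (sym K p i)
    rw [hCh, mem_sdiff] at h ⊢
    refine ⟨hL p i h.1, fun a => h.2 ?_⟩
    have := sym S _ _ a
    rwa [hi] at this
  · rcases nc p i h1 h2 with ⟨a, c, rfl⟩ | ⟨a, c, e⟩
    · exact (k4 p a c).symm
    · rw [k4 _ a c, e, hi]
  · exact (nc p i h1 h2).imp (fun h => by rw [if_pos ⟨h.1, h.2.1⟩, h.2.2])
      fun h => by rw [if_pos ⟨h.1, h.2.1⟩, h.2.2]
  · split_ifs at h with a
    obtain rfl := Option.some.inj h
    refine ⟨(hS p a.1).1, fun c => ?_, (hS p a.1).2⟩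
    rw [mem_union, hCh, mem_sdiff, mem_TS hi, mem_TS hi] at c
    rcases c with c | c | c
    · exact c.2 (Or.inl ⟨a.1, rfl⟩)
    · exact a.2 c.1
    · have h1 := hK _ c.1
      rw [c.2, hi] at h1
      exact h1.not_gt (hS p a.1).2
  · split_ifs at h with a
    rcases mem_insert.1 hp with rfl | hp
    · exact k5
    · exact k6 p (by_contra fun c => a ⟨hp, c⟩)
  · have h1 := sum_TS hi hK fun _ => 1
    simp only [← card_eq_sum_ones] at h1
    have h2 := card_union_le Ch (TS sw u K)
    rw [sum_add_distrib, ← card_eq_sum_card_fiberwise (f := Prod.fst) c2] at k2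
    rw [card_insert_of_notMem h0, ← c1] at hx
    have h3 : (Ch.card : ℤ) ≤ x := by
      push_cast at hx
      omega
    have h4 : b * (Ch ∪ TS sw u K).card ≤ (b + 2) * Ch.card + 2 * ∑ p ∈ insert p₀ S, w p := by
      have := Nat.mul_le_mul_left b h2
      rw [h1] at this
      nlinarith
    have h5 := mul_le_mul_of_nonneg_left h3 (show (0 : ℤ) ≤ b + 2 by positivity)
    zify at h4
    push_cast
    linarith
  · have h1 := sum_TS hi hK fun p => if top p = t then 1 else 0
    have h2 : ∑ q ∈ K, (if top q = t then 1 else 0) ≤ 1 := by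
      rw [sum_congr rfl fun q hq => by rw [k6 q hq], sum_ite_eq']
      split_ifs <;> omega
    have h3 := k7 t
    rw [← sum_filter, sum_add_distrib, sum_card_fiberwise_eq_card_filter] at h3
    have h4 : (Ch.filter fun e => top e.1 = t) =
        Ch.filter fun e => e.1 ∈ (insert p₀ S).filter fun p => top p = t :=
      filter_congr fun e he => by simp only [mem_filter, c2 e he, true_and]
    have h5 := card_union_le (Ch.filter fun e => top e.1 = t)
      ((TS sw u K).filter fun e => top e.1 = t)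
    rw [← card_filter] at h1
    rw [← h4] at h3
    rw [filter_union]
    omega

end Pool.Agent.MP_de21d3_co.H6
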