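import Pool.Agent.MP_de21d3_co.H6.Base

/-!
The light points are forbidden.
-/

set_option autoImplicit false
set_option linter.unusedSectionVars false

namespace Pool.Agent.MP_de21d3_co.H6

open Finset Function H91

namespace Light

/-- One step from `t` toward `l`. -/
def chase (t l : ℕ) : ℕ := if t < l then t + 1 else if l < t then t - 1 else t

lemma chase_spec (t l : ℕ) : (t < l ∧ chase t l = t + 1) ∨ (l < t ∧ chase t l + 1 = t) ∨
    (t = l ∧ chase t l = t) := by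
  unfold chase
  split_ifs <;> omega

/-- Two consecutive cops of a wall close in on the level `l`. -/
def PI (D τ l e : ℕ) (f : ℕ → ℕ) : Prop := ∃ j, j + 1 < D ∧ j * τ ≤ l + e ∧ l ≤ j * τ + τ + e ∧
  ((f j ≤ l + 1 ∧ l ≤ f j + 1) ∨ (f (j + 1) ≤ l + 1 ∧ l ≤ f (j + 1) + 1) ∨
    (f j ≤ l ∧ l ≤ f (j + 1) ∧ f (j + 1) + e ≤ f j + τ))

lemma PI.step {D τ l e l' : ℕ} {f : ℕ → ℕ} (h : PI D τ l e f) (h1 : l' ≤ l + 1) (h2 : l ≤ l' + 1) :
    PI D τ l' (e + 1) fun j => chase (f j) l := by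
  obtain ⟨j, a, b, c, d⟩ := h
  have := chase_spec (f j) l
  have := chase_spec (f (j + 1)) l
  exact ⟨j, a, by omega, by omega, by simp only; omega⟩

lemma div_spec {D τ l : ℕ} (hτ : 0 < τ) (h : l + 2 * τ ≤ D * τ) :
    l / τ + 1 < D ∧ l / τ * τ ≤ l ∧ l < l / τ * τ + τ := by
  have a := Nat.div_mul_le_self l τ
  have b := Nat.lt_div_mul_add (a := l) hτ
  refine ⟨?_, a, b⟩
  have : (l / τ + 2) * τ ≤ D * τ := by rw [add_mul]; omega
  exact Nat.le_of_mul_le_mul_right this hτ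

lemma PI.start {D τ l : ℕ} (hτ : 0 < τ) (h : l + 2 * τ ≤ D * τ) : PI D τ l 0 fun j => j * τ := by
  obtain ⟨a, b, c⟩ := div_spec hτ h
  exact ⟨l / τ, a, by omega, by omega, by simp only [add_mul, one_mul]; omega⟩

variable {V : Type} [Fintype V] [DecidableEq V] {G : SimpleGraph V} {R₀ : Finset V} {z : V}
  {T : Bf G R₀ z} {Λ : Type} [Fintype Λ] {n : ℕ}

/-- The data given by the batches. -/
structure Dat (C : Cells T Λ n) (ι : Type) where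
  τ : ℕ
  D : ℕ
  k : ℕ
  ρ : ℕ → ℕ
  Cs : ℕ → Finset Λ
  S : ℕ → Finset (Λ × V × ℕ)
  g : ℕ → Λ × V × ℕ → Option ι
  hτ : 0 < τ
  hD : ∀ v ∈ R₀, T.lv v + 2 * τ ≤ D * τ
  hρ : ∀ i < k, ρ i + τ ≤ ρ (i + 1) ∧ 4 * ρ (i + 1) + 3 * τ ≤ 5 * ρ i
  last : S k = ∅
  sub : ∀ i, S i ⊆ C.pcs D
  inj : ∀ i p i' p' x, g i p = some x → g i' p' = some x → i = i' ∧ p = p'
  nxt : ∀ i < k, ∀ p ∈ S i, ∀ p' ∈ C.pcs D,
    G.dist (T.wl p'.2.1 (p'.2.2 * τ)) (T.wl p.2.1 (p.2.2 * τ)) ≤ ρ i → p'.1 ∈ Cs (i + 1)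

variable {C : Cells T Λ n} {ι : Type} (d : Dat C ι)

lemma mem_pcs {D : ℕ} {p : Λ × V × ℕ} : p ∈ C.pcs D ↔ p.2.2 < D ∧ p.2.1 ∈ C.X p.1 := by
  simp [Cells.pcs]

/-- The invariant of the cops at time `u`. -/
def Dat.CI (u : ℕ) (c : ι ⊕ Fin 30 → V) (l : ℕ) : Prop := ∃ pos : ℕ → ℕ → ℕ,
  (∀ i, u ≤ 2 * d.ρ i → pos i = fun j => j * d.τ) ∧
  (∀ i, 2 * d.ρ i ≤ u → PI d.D d.τ l (u - 2 * d.ρ i) (pos i)) ∧
  ∀ i ≤ d.k, ∀ p ∈ C.pcs d.D, p.1 ∈ d.Cs i → p ∉ d.S i → ∃ x, d.g i p = some x ∧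
    (u ≤ 2 * d.ρ i → G.dist (c (.inl x)) (T.wl p.2.1 (p.2.2 * d.τ)) + u ≤ 2 * d.ρ i) ∧
    (2 * d.ρ i ≤ u → c (.inl x) = T.wl p.2.1 (pos i p.2.2))

variable {d}

lemma Dat.CI.step (hG : G.Connected) {u l : ℕ} {c : ι ⊕ Fin 30 → V} (h : d.CI u c l) :
    ∃ c' : ι ⊕ Fin 30 → V, (∀ y, near G (c y) (c' y)) ∧
      ∀ l', l' ≤ l + 1 → l ≤ l' + 1 → l' + 2 * d.τ ≤ d.D * d.τ → d.CI (u + 1) c' l' := by
  obtain ⟨pos, h1, h2, h3⟩ := h
  have key : ∀ y, ∃ w, near G (c y) w ∧ ∀ i ≤ d.k, ∀ p ∈ C.pcs d.D, p.1 ∈ d.Cs i → p ∉ d.S i →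
      ∀ x, d.g i p = some x → y = .inl x →
      (u < 2 * d.ρ i → G.dist w (T.wl p.2.1 (p.2.2 * d.τ)) + (u + 1) ≤ 2 * d.ρ i) ∧
      (2 * d.ρ i ≤ u → w = T.wl p.2.1 (chase (pos i p.2.2) l)) := fun y => by
    by_cases e : ∃ i ≤ d.k, ∃ p ∈ C.pcs d.D, p.1 ∈ d.Cs i ∧ p ∉ d.S i ∧
      ∃ x, d.g i p = some x ∧ y = .inl x
    · obtain ⟨i, hi, p, hp, a, b, x, hx, rfl⟩ := e
      obtain ⟨x', hx', f1, f2⟩ := h3 i hi p hp a b
      obtain rfl : x = x' := Option.some.inj (hx.symm.trans hx')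
      rcases lt_or_ge u (2 * d.ρ i) with hu | hu
      · obtain ⟨w, w1, w2⟩ := toward hG (c (.inl x)) (T.wl p.2.1 (p.2.2 * d.τ))
        refine ⟨w, w1, fun i' _ p' _ _ _ x' hx' e => ?_⟩
        obtain rfl := Sum.inl.inj e
        obtain ⟨rfl, rfl⟩ := d.inj _ _ _ _ _ hx hx'
        have := f1 hu.le
        exact ⟨fun _ => by omega, fun _ => by omega⟩
      · refine ⟨T.wl p.2.1 (chase (pos i p.2.2) l), ?_, fun i' _ p' _ _ _ x' hx' e => ?_⟩
        · have := chase_spec (pos i p.2.2) l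
          rw [f2 hu]
          exact T.near_wl (C.sub _ (mem_pcs.1 hp).2) (by omega) (by omega)
        · obtain rfl := Sum.inl.inj e
          obtain ⟨rfl, rfl⟩ := d.inj _ _ _ _ _ hx hx'
          exact ⟨fun _ => by omega, fun _ => rfl⟩
    · exact ⟨c y, nrefl _, fun i hi p hp a b x hx e' => absurd ⟨i, hi, p, hp, a, b, x, hx, e'⟩ e⟩
  choose c' k1 k2 using key
  refine ⟨c', k1, fun l' a b e => ⟨fun i => if u < 2 * d.ρ i then pos i else
    fun j => chase (pos i j) l, fun i hi => ?_, fun i hi => ?_, fun i hi p hp x y => ?_⟩⟩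
  · simp only [if_pos (show u < 2 * d.ρ i by omega)]
    exact h1 i (by omega)
  · by_cases hu : u < 2 * d.ρ i
    · simp only [if_pos hu]
      rw [h1 i hu.le, show u + 1 - 2 * d.ρ i = 0 by omega]
      exact PI.start d.hτ e
    · simp only [if_neg hu]
      rw [show u + 1 - 2 * d.ρ i = u - 2 * d.ρ i + 1 by omega]
      exact (h2 i (by omega)).step a b
  · obtain ⟨w, hw, -⟩ := h3 i hi p hp x y
    obtain ⟨f1, f2⟩ := k2 _ i hi p hp x y w hw rfl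
    refine ⟨w, hw, fun hu => f1 (by omega), fun hu => ?_⟩
    by_cases hu' : u < 2 * d.ρ i
    · simp only [if_pos hu', h1 i hu'.le]
      have := f1 hu'
      exact hG.dist_eq_zero_iff.1 (by omega)
    · simp only [if_neg hu']
      exact f2 (by omega)

lemma Dat.CI.wall {u l i : ℕ} {c : ι ⊕ Fin 30 → V} (h : d.CI u c l) (hi : i ≤ d.k)
    (hu : 2 * d.ρ i + d.τ ≤ u) {Δ : Λ} (hΔ : Δ ∈ d.Cs i) {a : V} (ha : a ∈ C.X Δ) :
    (∃ x j, d.g i (Δ, a, j) = some x ∧ T.Sync a (c (.inl x)) l) ∨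
    ∃ j, (Δ, a, j) ∈ d.S i ∧ j * d.τ + 2 * d.ρ i ≤ l + u + d.τ ∧
      l + 2 * d.ρ i ≤ j * d.τ + u + d.τ := by
  obtain ⟨pos, -, h2, h3⟩ := h
  obtain ⟨j, a1, a2, a3, a4⟩ := h2 i (by omega)
  by_cases e1 : (Δ, a, j) ∈ d.S i
  · exact Or.inr ⟨j, e1, by omega, by omega⟩
  by_cases e2 : (Δ, a, j + 1) ∈ d.S i
  · exact Or.inr ⟨j + 1, e2, by rw [add_mul]; omega, by rw [add_mul]; omega⟩
  obtain ⟨x1, b1, -, c1⟩ := h3 i hi (Δ, a, j) (mem_pcs.2 ⟨by simp only; omega, ha⟩) hΔ e1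
  obtain ⟨x2, b2, -, c2⟩ := h3 i hi (Δ, a, j + 1) (mem_pcs.2 ⟨a1, ha⟩) hΔ e2
  left
  rcases a4 with a4 | a4 | a4
  · exact ⟨x1, j, b1, _, c1 (by omega), a4.1, a4.2⟩
  · exact ⟨x2, j + 1, b2, _, c2 (by omega), a4.1, a4.2⟩
  · exact ⟨x1, j, b1, _, c1 (by omega), by simp only; omega, by simp only; omega⟩

/-- A robber on a wall of a cell of stage `i` is caught or close to an unmatched piece. -/
lemma Dat.CI.on (hG : G.Connected) {u i : ℕ} {c : ι ⊕ Fin 30 → V} {r : V} (h : d.CI u c (T.lv r))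
    (hi : i ≤ d.k) (hu : 2 * d.ρ i + d.τ ≤ u) {Δ : Λ} (hΔ : Δ ∈ d.Cs i) (hr : ¬T.Free (C.X Δ) r)
    (hc : ¬∃ y, near G (c y) r) :
    ∃ p ∈ d.S i, G.dist (T.wl p.2.1 (p.2.2 * d.τ)) r + 2 * d.ρ i ≤ u + d.τ := by
  simp only [Bf.Free, not_forall, not_not] at hr
  obtain ⟨a, ha, t, e⟩ := hr
  have ha' := C.sub _ ha
  rcases h.wall hi hu hΔ ha with ⟨x, j, -, b⟩ | ⟨j, b1, b2, b3⟩
  · exact absurd ⟨_, b.near ha' e⟩ hc
  · refine ⟨_, b1, ?_⟩
    have := T.dist_wl hG ha' (s := j * d.τ) (t := T.lv r) (d := u + d.τ - 2 * d.ρ i)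
      (by omega) (by omega)
    have e' : T.wl a (T.lv r) = r := by rw [← e, T.wl_lv ha']
    rw [e'] at this
    simp only
    omega

variable (d)

lemma Dat.piece (hG : G.Connected) {Δ : Λ} {w : V} (hw : ¬T.Free (C.X Δ) w) :
    ∃ p ∈ C.pcs d.D, p.1 = Δ ∧ (∃ t, p.2.2 * d.τ ≤ t ∧ t < (p.2.2 + 1) * d.τ ∧ T.wl p.2.1 t = w) ∧
      G.dist (T.wl p.2.1 (p.2.2 * d.τ)) w + 1 ≤ d.τ := by
  simp only [Bf.Free, not_forall, not_not] at hw
  obtain ⟨a, ha, t, e⟩ := hw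
  have ha' := C.sub _ ha
  obtain ⟨b1, b2, b3⟩ := div_spec d.hτ (d.hD w (e ▸ T.wl_mem ha' t))
  have e' : T.wl a (T.lv w) = w := by rw [← e, T.wl_lv ha']
  have hτ := d.hτ
  refine ⟨(Δ, a, T.lv w / d.τ), mem_pcs.2 ⟨by simp only; omega, ha⟩, rfl,
    ⟨T.lv w, b2, by rw [add_mul]; simp only; omega, e'⟩, ?_⟩
  have := T.dist_wl hG ha' (s := T.lv w / d.τ * d.τ) (t := T.lv w) (d := d.τ - 1)
    (by omega) (by omega)
  rw [e'] at this
  simp only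
  omega

lemma Dat.mono {s : ℕ} (hs : s ≤ d.k) : d.ρ s ≤ d.ρ d.k := by
  have : ∀ m, s + m ≤ d.k → d.ρ s ≤ d.ρ (s + m) := fun m => by
    induction m with
    | zero => exact fun _ => le_rfl
    | succ m ih =>
      intro hm
      have := (d.hρ (s + m) (by omega)).1
      have := ih (by omega)
      rw [← add_assoc]
      omega
  have h := this (d.k - s) (by omega)
  rwa [Nat.add_sub_cancel' hs] at h

/-- The invariant of the robber in stage `s`. -/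
def Dat.RI (R : Finset V) (x : V) (s u : ℕ) (r : V) : Prop := s ≤ d.k ∧ C.cl r ∈ d.Cs s ∧
  (s = 0 → r ∈ ball G R x u) ∧ ∀ i, s = i + 1 → 2 * d.ρ i + d.τ ≤ u ∧ (C.cl r ∈ d.Cs i ∨
    ∃ p ∈ d.S i, G.dist (T.wl p.2.1 (p.2.2 * d.τ)) r + 4 * d.ρ i ≤ 2 * u)

variable {d} {R : Finset V} {x : V}

lemma norm [Fintype ι] (hR : R ⊆ R₀) {s u : ℕ} {c : ι ⊕ Fin 30 → V} {r : V} (hr : r ∈ R)
    (h : d.CI u c (T.lv r)) (h' : d.RI R x s u r) (hu : u ≤ 2 * d.ρ s + d.τ) :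
    Ex G R c r ∨ ∃ s, d.RI R x s u r ∧ u < 2 * d.ρ s + d.τ := by
  classical
  rcases hu.lt_or_eq with hu | hu
  · exact Or.inr ⟨s, h', hu⟩
  by_cases e : ∃ a j, (C.cl r, a, j) ∈ d.S s
  · obtain ⟨a, j, e⟩ := e
    have hs : s < d.k := h'.1.lt_of_ne fun e' => by simp [e', d.last] at e
    have := (d.hρ s hs).1
    have := d.hτ
    refine Or.inr ⟨s + 1, ⟨hs, d.nxt s hs _ e _ (d.sub _ e) (by simp), by omega, fun i hi => ?_⟩,
      by omega⟩
    obtain rfl : s = i := by omega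
    exact ⟨hu.ge, Or.inl h'.2.1⟩
  · have : ∀ a ∈ C.X (C.cl r), ∃ y j, d.g s (C.cl r, a, j) = some y ∧ T.Sync a (c (.inl y)) (T.lv r) :=
      fun a ha => (h.wall h'.1 hu.ge h'.2.1 ha).resolve_right fun ⟨j, b, _⟩ => e ⟨a, j, b⟩
    choose f jj f1 f2 using this
    refine Or.inl ((C.cap r (hR hr) (ι ⊕ Fin 30) (by simp) c
      ⟨fun a => if ha : a ∈ C.X (C.cl r) then .inl (f a ha) else .inr 0,
        fun a ha b hb e' => ?_, fun a ha => ?_⟩).mono hR)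
    · have ha' : a ∈ C.X (C.cl r) := ha
      have hb' : b ∈ C.X (C.cl r) := hb
      simp only [dif_pos ha', dif_pos hb', Sum.inl.injEq] at e'
      have := (d.inj _ _ _ _ _ (f1 a ha') (e' ▸ f1 b hb')).2
      simp only [Prod.mk.injEq] at this
      exact this.2.1
    · simp only [dif_pos ha]
      exact f2 a ha

lemma RI_step (hG : G.Connected) (hR : R ⊆ R₀)
    (h0 : ∀ p ∈ C.tch d.D d.τ (ball G R x (2 * d.ρ 0 + d.τ)), p.1 ∈ d.Cs 0) {s u : ℕ}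
    {c c' : ι ⊕ Fin 30 → V} {r r' : V} (hr : r ∈ R) (hr' : r' ∈ R) (hn : near G r r')
    (h : d.CI u c (T.lv r)) (h' : d.CI (u + 1) c' (T.lv r')) (hc : ¬∃ y, near G (c y) r)
    (hc' : ¬∃ y, near G (c' y) r') (H : d.RI R x s u r) (hu : u < 2 * d.ρ s + d.τ) :
    d.RI R x s (u + 1) r' := by
  classical
  obtain ⟨H1, H2, H3, H4⟩ := H
  have hb : s = 0 → r' ∈ ball G R x (u + 1) := fun e =>
    mem_ball.2 (.succ (mem_ball.1 (H3 e)) hn hr')
  by_cases e : C.cl r' = C.cl r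
  · refine ⟨H1, e ▸ H2, hb, fun i hi => ?_⟩
    obtain ⟨a, b⟩ := H4 i hi
    refine ⟨by omega, b.imp (e ▸ ·) fun ⟨p, hp, q⟩ => ⟨p, hp, ?_⟩⟩
    have := dist_near hG (T.wl p.2.1 (p.2.2 * d.τ)) hn
    omega
  have w1 : ¬T.Free (C.X (C.cl r)) r ∨ ¬T.Free (C.X (C.cl r)) r' := by
    by_contra a
    push Not at a
    exact e (C.mv r (hR hr) r' (hR hr') hn a.1 a.2)
  have w2 : ∃ w, (w = r ∨ w = r') ∧ ¬T.Free (C.X (C.cl r')) w := by
    by_contra a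
    push Not at a
    exact e (C.mv r' (hR hr') r (hR hr) (nsymm hn) (a _ (Or.inr rfl)) (a _ (Or.inl rfl))).symm
  obtain ⟨w, hw, w2⟩ := w2
  obtain ⟨p', hp', e1, ⟨t, t1, t2, t3⟩, e3⟩ := d.piece hG w2
  cases s with
  | zero =>
    refine ⟨H1, e1 ▸ h0 p' ?_, hb, fun i hi => by omega⟩
    simp only [Cells.tch, mem_filter]
    refine ⟨hp', t, t1, t2, t3 ▸ ?_⟩
    rcases hw with rfl | rfl
    · exact ball_mono Subset.rfl (by omega) (H3 rfl)
    · exact ball_mono Subset.rfl (by omega) (hb rfl)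
  | succ i =>
    obtain ⟨a, b⟩ := H4 i rfl
    have J2 : ∃ p ∈ d.S i, G.dist (T.wl p.2.1 (p.2.2 * d.τ)) r' + 4 * d.ρ i ≤ 2 * (u + 1) := by
      rcases b with b | ⟨p, hp, q⟩
      · rcases w1 with w1 | w1
        · obtain ⟨p, hp, q⟩ := h.on hG (by omega) a b w1 hc
          have := dist_near hG (T.wl p.2.1 (p.2.2 * d.τ)) hn
          exact ⟨p, hp, by omega⟩
        · obtain ⟨p, hp, q⟩ := h'.on hG (by omega) (by omega) b w1 hc'
          exact ⟨p, hp, by omega⟩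
      · have := dist_near hG (T.wl p.2.1 (p.2.2 * d.τ)) hn
        exact ⟨p, hp, by omega⟩
    refine ⟨H1, ?_, hb, fun i' hi => ?_⟩
    · obtain ⟨p, hp, q⟩ := J2
      refine e1 ▸ d.nxt i H1 p hp p' hp' ?_
      have q1 : G.dist (T.wl p.2.1 (p.2.2 * d.τ)) w ≤ G.dist (T.wl p.2.1 (p.2.2 * d.τ)) r' + 1 := by
        rcases hw with rfl | rfl
        · exact dist_near hG _ (nsymm hn)
        · omega
      have q2 := hG.dist_triangle (u := T.wl p'.2.1 (p'.2.2 * d.τ)) (v := w)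
        (w := T.wl p.2.1 (p.2.2 * d.τ))
      rw [SimpleGraph.dist_comm (u := w)] at q2
      have := (d.hρ i H1).2
      omega
    · obtain rfl : i = i' := by omega
      exact ⟨by omega, Or.inr J2⟩

lemma play [Fintype ι] (hG : G.Connected) (hR : R ⊆ R₀)
    (h0 : ∀ p ∈ C.tch d.D d.τ (ball G R x (2 * d.ρ 0 + d.τ)), p.1 ∈ d.Cs 0) (m : ℕ) :
    ∀ (s u : ℕ) (c : ι ⊕ Fin 30 → V), ∀ r ∈ R, 2 * d.ρ d.k + d.τ ≤ u + m → d.CI u c (T.lv r) →
      d.RI R x s u r → u ≤ 2 * d.ρ s + d.τ → Ex G R c r := by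
  induction m with
  | zero =>
    intro s u c r hr hm h h' hu
    refine (norm hR hr h h' hu).resolve_right fun ⟨s, a, b⟩ => ?_
    have := d.mono a.1
    omega
  | succ m ih =>
    intro s u c r hr hm h h' hu
    rcases norm hR hr h h' hu with a | ⟨s, a, b⟩
    · exact a
    by_cases hc : ∃ y, near G (c y) r
    · exact .cap _ hc.choose_spec
    obtain ⟨c', k1, k2⟩ := h.step hG
    refine .step c' k1 fun r' hn => ?_
    by_cases hr' : r' ∈ R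
    swap
    · exact .done hr'
    by_cases hc' : ∃ y, near G (c' y) r'
    · exact .cap _ hc'.choose_spec
    have k3 := k2 (T.lv r') (T.lip _ (hR hr') _ (hR hr) (nsymm hn)) (T.lip _ (hR hr) _ (hR hr') hn)
      (d.hD _ (hR hr'))
    exact ih s (u + 1) c' r' hr' (by omega) k3 (RI_step hG hR h0 hr hr' hn h k3 hc hc' a b) b

end Light

open Light

variable {V : Type} [Fintype V] [DecidableEq V] {G : SimpleGraph V}

theorem lightS (hG : G.Connected) (hb : BatchS G) : LightS G := by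
  classical
  intro R₀ z T Λ _ n C R τ D K k h ρ hR hτ hK hD hk hρ
  have hD0 : 0 < D := by
    have := hD z T.hz
    rcases Nat.eq_zero_or_pos D with rfl | a
    · omega
    · exact a
  obtain ⟨ι, _, c₀, h1, h2⟩ := hb (Λ × V × ℕ) Λ (C.pcs D) (fun p => T.wl p.2.1 (p.2.2 * τ)) Prod.fst
    z (20 * D) K k (h + 1) ρ hK (by omega) (fun Δ s a b => by
      have : s ⊆ {Δ} ×ˢ C.X Δ ×ˢ range D := fun p hp => by
        have := mem_pcs.1 (a hp)
        simp only [mem_product, mem_singleton, mem_range]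
        exact ⟨b p hp, b p hp ▸ this.2, this.1⟩
      refine (card_le_card this).trans ?_
      simp only [card_product, card_singleton, card_range, one_mul]
      exact Nat.mul_le_mul_right _ (C.le Δ)) (fun p hp => by
      have a := mem_pcs.1 hp
      have b := T.dist_wl hG (C.sub _ a.2) (s := 0) (t := p.2.2 * τ) (d := p.2.2 * τ)
        (by omega) (by omega)
      rw [T.wl_zero (C.sub _ a.2)] at b
      exact b.trans ((Nat.mul_le_mul_right _ a.1.le).trans hk))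
  refine ⟨ι ⊕ Fin 30, inferInstance, fun c _ => c = Sum.elim c₀ fun _ => z, Sum.elim c₀ fun _ => z,
    ?_, ?_, fun r _ _ => .done (Or.inr rfl)⟩
  · rw [Fintype.card_sum, Fintype.card_fin, show 40 * D * K = 2 * (20 * D) * K by ring]
    have := Nat.mul_le_mul_left k (Nat.div_le_div_right (c := K) (C.card_pcs D))
    omega
  rintro c x rfl hx
  by_cases hl : x ∈ C.light D τ R (2 * ρ 0 + τ) h
  swap
  · exact Or.inr ⟨hl, _, fun _ => nrefl _, fun _ _ _ => rfl⟩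
  left
  simp only [Cells.light, mem_filter] at hl
  obtain ⟨Cs, S, g, a1, a2, a3, a4, a5, a6⟩ := h2
    (insert (C.cl x) ((C.tch D τ (ball G R x (2 * ρ 0 + τ))).image Prod.fst))
    ((card_insert_le _ _).trans (Nat.succ_le_succ (card_image_le.trans hl.2)))
  let d : Dat C ι := ⟨τ, D, k, ρ, Cs, S, g, hτ, hD, hρ, a2, a3, a5, a6⟩
  refine play (d := d) (x := x) hG hR (fun p hp => ?_) (2 * ρ k + τ) 0 0 _ x hx (by simp [d])
    ⟨fun _ j => j * τ, fun _ _ => rfl, fun i hi => ?_, fun i hi p hp b1 b2 => ?_⟩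
    ⟨Nat.zero_le _, ?_, fun _ => self_mem_ball hx, fun i hi => by omega⟩ (Nat.zero_le _)
  · exact a1.ge (mem_insert_of_mem (mem_image_of_mem _ hp))
  · rw [Nat.zero_sub]
    exact PI.start hτ (hD x (hR hx))
  · obtain ⟨y, y1, y2⟩ := a4 i hi p hp b1 b2
    exact ⟨y, y1, fun _ => y2, fun hu => hG.dist_eq_zero_iff.1 (Nat.le_zero.1 (y2.trans hu))⟩
  · exact a1.ge (mem_insert_self _ _)

end Pool.Agent.MP_de21d3_co.H6
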