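import Pool.Agent.MP_de21d3_co.H6.Base

/-!
A net of heavy points.
-/

set_option autoImplicit false
set_option linter.unusedSectionVars false

namespace Pool.Agent.MP_de21d3_co.H6

open Finset Function H91

variable {V : Type} [Fintype V] [DecidableEq V] {G : SimpleGraph V}

namespace Net

variable {R₀ R : Finset V} {z a : V} (T : Bf G R₀ z)

/-- A wall stays inside an upward closed set once it has entered it. -/
lemma rch_up (ha : a ∈ R₀) (hu : ∀ v ∈ R₀, T.P v ∈ R → v ∈ R) {t : ℕ} (h : T.wl a t ∈ R)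
    (d : ℕ) : Rch G R (T.wl a t) d (T.wl a (t + d)) := by
  induction d with
  | zero => exact .zero h
  | succ d ih =>
    refine .succ ih (nsymm (T.near_succ ha _)) ?_
    rcases T.wl_succ a (t + d) with e | e
    · exact e ▸ ih.right
    · exact hu _ (T.wl_mem ha _) (e ▸ ih.right)

lemma rch_of (ha : a ∈ R₀) (hu : ∀ v ∈ R₀, T.P v ∈ R → v ∈ R) {x y : V} {t s r τ : ℕ}
    (h : t ≤ s) (h' : s ≤ t + τ) (hx : T.wl a t ∈ ball G R x r) (hy : T.wl a s ∈ ball G R y r) :
    Rch G R x (2 * r + τ) y := by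
  obtain ⟨d, rfl⟩ := Nat.exists_eq_add_of_le h
  exact (((mem_ball.1 hx).trans (rch_up T ha hu (ball_sub hx) d)).trans
    (mem_ball.1 hy).symm).le (by omega)

variable {T} {Λ : Type} [Fintype Λ] {n : ℕ} (C : Cells T Λ n)

/-- Two balls that touch the same piece have close centres. -/
lemma close (hu : ∀ v ∈ R₀, T.P v ∈ R → v ∈ R) {x y : V} {D r τ : ℕ} {p : Λ × V × ℕ}
    (hx : p ∈ C.tch D τ (ball G R x r)) (hy : p ∈ C.tch D τ (ball G R y r)) :
    Rch G R x (2 * r + τ) y := by
  simp only [Cells.tch, Cells.pcs, mem_filter] at hx hy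
  obtain ⟨⟨-, ha⟩, t, a1, a2, a3⟩ := hx
  obtain ⟨-, s, b1, b2, b3⟩ := hy
  rw [Nat.add_mul, Nat.one_mul] at a2 b2
  rcases le_total t s with e | e
  · exact rch_of T (C.sub _ ha) hu e (by omega) a3 b3
  · exact (rch_of T (C.sub _ ha) hu e (by omega) b3 a3).symm

end Net

theorem netS (_hG : G.Connected) : NetS G := by
  classical
  intro R₀ z T Λ _ n C R τ D r h Sm _ hu
  obtain ⟨Z, hZ, hm⟩ := exists_max_image (R.powerset.filter fun Z =>
    (∀ x ∈ Z, Sm x ∧ x ∉ C.light D τ R r h) ∧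
      ∀ x ∈ Z, ∀ y ∈ Z, x ≠ y → ¬Rch G R x (2 * r + τ) y) card
    ⟨∅, mem_filter.2 ⟨empty_mem_powerset _, fun _ h => absurd h (notMem_empty _),
      fun _ h => absurd h (notMem_empty _)⟩⟩
  obtain ⟨h1, h2, h3⟩ := mem_filter.1 hZ
  have h1 := mem_powerset.1 h1
  refine ⟨Z, h1, fun x hx => (h2 x hx).1, ?_, fun x hx hs hl => ?_⟩
  · have hd : ∀ x ∈ Z, ∀ y ∈ Z, x ≠ y →
        Disjoint (C.tch D τ (ball G R x r)) (C.tch D τ (ball G R y r)) := fun x hx y hy e =>
      disjoint_left.2 fun _ a b => h3 x hx y hy e (Net.close C hu a b)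
    calc Z.card * (h + 1) = ∑ _x ∈ Z, (h + 1) := by rw [sum_const, smul_eq_mul]
      _ ≤ ∑ x ∈ Z, (C.tch D τ (ball G R x r)).card := sum_le_sum fun x hx =>
          Nat.succ_le_of_lt (not_le.1 fun e => (h2 x hx).2 (by
            simp only [Cells.light, mem_filter]
            exact ⟨h1 hx, e⟩))
      _ = (Z.biUnion fun x => C.tch D τ (ball G R x r)).card :=
          (card_biUnion fun x hx y hy e => hd x hx y hy e).symm
      _ ≤ (C.pcs D).card := card_le_card (biUnion_subset.2 fun _ _ => by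
          simp only [Cells.tch]
          exact filter_subset _ _)
      _ ≤ n * D := C.card_pcs D
  · by_contra hc
    have hn : ∀ y ∈ Z, ¬Rch G R y (2 * r + τ) x := fun y hy e => hc ⟨y, hy, mem_ball.2 e⟩
    have hx' : x ∉ Z := fun e => hn x e (mem_ball.1 (self_mem_ball hx))
    have := hm (insert x Z) (mem_filter.2 ⟨mem_powerset.2 (insert_subset hx h1), fun y hy => ?_,
      fun y hy w hw e => ?_⟩)
    · rw [card_insert_of_notMem hx'] at this
      omega
    · rcases mem_insert.1 hy with rfl | hy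
      exacts [⟨hs, hl⟩, h2 y hy]
    · rcases mem_insert.1 hy with a | a <;> rcases mem_insert.1 hw with b | b
      exacts [absurd (a.trans b.symm) e, fun c => hn w b (a ▸ c).symm, b ▸ hn y a, h3 y a w b e]

end Pool.Agent.MP_de21d3_co.H6
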