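import Pool.Agent.MP_de21d3_co.H6.Base

/-! The choice of the parameters. -/

namespace Pool.Agent.MP_de21d3_co.H6

theorem Param.exists_t (c : ℕ) : ∃ t : ℕ, 200 * (t + c + 1) ^ 2 ≤ 2 ^ t := by
  refine ⟨3 * (c + 300), ?_⟩
  have h1 : c + 300 ≤ 2 ^ (c + 300) := Nat.lt_two_pow_self.le
  have h2 : 3200 ≤ 2 ^ (c + 300) :=
    le_trans (by norm_num) (Nat.pow_le_pow_right (by norm_num) (show 12 ≤ c + 300 by omega))
  calc 200 * (3 * (c + 300) + c + 1) ^ 2 ≤ 200 * (4 * (c + 300)) ^ 2 := by gcongr; omega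
    _ = (c + 300) * (c + 300) * 3200 := by ring
    _ ≤ 2 ^ (c + 300) * 2 ^ (c + 300) * 2 ^ (c + 300) := by gcongr
    _ = 2 ^ (3 * (c + 300)) := by
      rw [← pow_add, ← pow_add, show c + 300 + (c + 300) + (c + 300) = 3 * (c + 300) by omega]

theorem paramS : ParamS := by
  intro E a hE
  obtain ⟨c, hc1, hc2⟩ : ∃ c : ℕ, a * (60 * E) + 2 ≤ 2 ^ c ∧ E ≤ 2 ^ c := by
    have := (Nat.lt_two_pow_self (n := a * (60 * E) + 2 + E)).le
    exact ⟨a * (60 * E) + 2 + E, by omega, by omega⟩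
  obtain ⟨t, ht⟩ := Param.exists_t c
  obtain ⟨u, hu⟩ : ∃ u, u = t + c + 1 := ⟨_, rfl⟩
  rw [← hu] at ht
  have hu1 : 1 ≤ u := by omega
  have hpos : 0 < 2 ^ t := by positivity
  have hD : a * (60 * E * 2 ^ t) + 2 ≤ 2 ^ u :=
    calc a * (60 * E * 2 ^ t) + 2 ≤ (a * (60 * E) + 2) * 2 ^ t := by nlinarith
      _ ≤ 2 ^ c * 2 ^ t := by gcongr
      _ = 2 ^ (c + t) := (pow_add _ _ _).symm
      _ ≤ 2 ^ u := Nat.pow_le_pow_right (by norm_num) (by omega)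
  have hEu : E ≤ 2 ^ u := hc2.trans (Nat.pow_le_pow_right (by norm_num) (by omega))
  have huu : u ≤ 2 ^ u := Nat.lt_two_pow_self.le
  refine ⟨60 * E * 2 ^ t, 2 ^ u, u, 2 ^ (3 * u + 6), 2 ^ (32 * u ^ 2 + 98 * u + 5),
    2 ^ (200 * u ^ 2), by positivity, hD, le_rfl, by positivity, ?_, by positivity, ?_,
    by positivity, ?_, ?_⟩
  · calc 48 * u * 2 ^ u * E ≤ 2 ^ 6 * 2 ^ u * 2 ^ u * 2 ^ u := by gcongr; norm_num
      _ = 2 ^ (3 * u + 6) := by simp only [← pow_add]; congr 1; ring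
  · calc 20 * 2 ^ u * (40 * 2 ^ u * 2 ^ (3 * u + 6)) ^ (8 * u) * E
        ≤ 2 ^ 5 * 2 ^ u * (2 ^ 6 * 2 ^ u * 2 ^ (3 * u + 6)) ^ (8 * u) * 2 ^ u := by
          gcongr <;> norm_num
      _ = 2 ^ (32 * u ^ 2 + 98 * u + 5) := by simp only [← pow_add, ← pow_mul]; congr 1; ring
  · calc 468 * 2 ^ (32 * u ^ 2 + 98 * u + 5) * 2 ^ u * E
        ≤ 2 ^ 9 * 2 ^ (32 * u ^ 2 + 98 * u + 5) * 2 ^ u * 2 ^ u := by gcongr; norm_num
      _ = 2 ^ (32 * u ^ 2 + 100 * u + 14) := by simp only [← pow_add]; congr 1; ring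
      _ ≤ 2 ^ (200 * u ^ 2) := Nat.pow_le_pow_right (by norm_num) (by nlinarith)
  · rw [Nat.mul_div_cancel_left _ (by omega)]
    exact Nat.pow_le_pow_right (by norm_num) ht

end Pool.Agent.MP_de21d3_co.H6
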