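import Pool.Agent.MP_de21d3_co.H6.Base

/-!
Superadditivity of `psi`, and the removal of a connected set.
-/

set_option autoImplicit false

namespace Pool.Agent.MP_de21d3_co.H6

open Finset Function H91

variable {V : Type} [Fintype V] [DecidableEq V] {G : SimpleGraph V} {N W : Type} [Fintype N]
  [DecidableEq N] [Fintype W] [DecidableEq W] (K : Cx G N W)

namespace Psi

omit [Fintype V] [DecidableEq V] [Fintype W]

/-- The triangles with two corners in `X`. -/
def tri (X : Finset W) : Finset N :=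
  univ.filter fun p => ∃ i j, i ≠ j ∧ K.c p i ∈ X ∧ K.c p j ∈ X

omit [DecidableEq N] in
lemma mem_tri {X : Finset W} {p : N} :
    p ∈ tri K X ↔ ∃ i j, i ≠ j ∧ K.c p i ∈ X ∧ K.c p j ∈ X := by
  simp only [tri, mem_filter, mem_univ, true_and]

omit [DecidableEq N] in
lemma psi_eq (X : Finset W) : K.psi X = (tri K X).card - 2 * (X.card : ℤ) := by
  unfold Cx.psi tri
  congr

lemma add_le {X X' : Finset W} (h : Disjoint X X') : K.psi X + K.psi X' ≤ K.psi (X ∪ X') := by
  have h3 : ∀ i j i' j' : Fin 3, i ≠ j → i' ≠ j' → i = i' ∨ i = j' ∨ j = i' ∨ j = j' := by decide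
  have h1 : Disjoint (tri K X) (tri K X') := by
    refine disjoint_left.2 fun p hp hp' => ?_
    obtain ⟨i, j, a, b, c⟩ := (mem_tri K).1 hp
    obtain ⟨i', j', a', b', c'⟩ := (mem_tri K).1 hp'
    rcases h3 i j i' j' a a' with rfl | rfl | rfl | rfl
    exacts [disjoint_left.1 h b b', disjoint_left.1 h b c', disjoint_left.1 h c b',
      disjoint_left.1 h c c']
  have h2 : tri K X ∪ tri K X' ⊆ tri K (X ∪ X') := by
    intro p hp
    rcases mem_union.1 hp with hp | hp <;> obtain ⟨i, j, a, b, c⟩ := (mem_tri K).1 hp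
    · exact (mem_tri K).2 ⟨i, j, a, mem_union_left _ b, mem_union_left _ c⟩
    · exact (mem_tri K).2 ⟨i, j, a, mem_union_right _ b, mem_union_right _ c⟩
  have h4 := card_le_card h2
  rw [card_union_of_disjoint h1] at h4
  rw [psi_eq, psi_eq, psi_eq, card_union_of_disjoint h]
  omega

lemma le_add {X X' : Finset W} (h : Disjoint X X') (hn : ∀ x ∈ X, ∀ y ∈ X', ¬K.adj x y) :
    K.psi (X ∪ X') ≤ K.psi X + K.psi X' := by
  have h2 : tri K (X ∪ X') ⊆ tri K X ∪ tri K X' := by
    intro p hp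
    obtain ⟨i, j, a, b, c⟩ := (mem_tri K).1 hp
    rcases mem_union.1 b with b | b <;> rcases mem_union.1 c with c | c
    · exact mem_union_left _ ((mem_tri K).2 ⟨i, j, a, b, c⟩)
    · exact absurd ⟨p, i, j, rfl, rfl⟩ (hn _ b _ c)
    · exact absurd ⟨p, j, i, rfl, rfl⟩ (hn _ c _ b)
    · exact mem_union_right _ ((mem_tri K).2 ⟨i, j, a, b, c⟩)
  have h4 := (card_le_card h2).trans (card_union_le _ _)
  rw [psi_eq, psi_eq, psi_eq, card_union_of_disjoint h]
  omega

lemma sum_le (s : Finset (Finset W)) (h : ∀ U ∈ s, ∀ U' ∈ s, U ≠ U' → Disjoint U U') :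
    ∑ U ∈ s, K.psi U ≤ K.psi (s.biUnion id) := by
  induction s using Finset.induction_on with
  | empty => simp [Cx.psi_empty]
  | insert U s hU ih =>
    rw [sum_insert hU, biUnion_insert]
    refine le_trans (add_le_add le_rfl (ih fun A a B b => h A (mem_insert_of_mem a) B
      (mem_insert_of_mem b))) (add_le K ((disjoint_biUnion_right _ _ _).2 fun A a => ?_))
    exact h U (mem_insert_self _ _) A (mem_insert_of_mem a) fun e => hU (e ▸ a)

omit [Fintype N] [DecidableEq N] in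
lemma conn_diff {S S' B : Finset W} {b : W} (hB : K.Conn B) (hb : b ∈ B) (hS : B ⊆ S)
    (h : K.Closed (S \ B) S') : B ⊆ K.comp S b \ S' ∧ K.Conn (K.comp S b \ S') := by
  have h1 : B ⊆ K.comp S b \ S' := fun x hx => mem_sdiff.2
    ⟨hB.sub hS Cx.comp_closed hb (Cx.self_mem_comp (hS hb)) hx,
      fun e => (mem_sdiff.1 (h.1 e)).2 hx⟩
  refine ⟨h1, Cx.conn_of (a := b) fun x hx => ?_⟩
  obtain ⟨-, v, w⟩ := Cx.mem_comp.1 (mem_sdiff.1 hx).1
  induction w with
  | refl => exact .refl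
  | @tail x y c d ih =>
    by_cases e : y ∈ B
    · exact Relation.ReflTransGen.mono (fun _ _ f => ⟨h1 f.1, h1 f.2.1, f.2.2⟩) _ _ (hB b hb y e)
    · have f : x ∈ K.comp S b \ S' := mem_sdiff.2 ⟨Cx.mem_comp.2 ⟨d.1, v, c⟩, fun g =>
        (mem_sdiff.1 hx).2 (h.2 x g y (mem_sdiff.2 ⟨d.2.1, e⟩) d.2.2)⟩
      exact (ih f).tail ⟨f, hx, d.2.2⟩

end Psi

omit [Fintype V] [DecidableEq V] [Fintype W] in
open Psi in
theorem psiS (hl : LowS K) : PsiS K := by
  intro Y S B hY hB ⟨b, hb⟩ hS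
  have key : ∀ S', K.Closed (S \ B.map K.ι) S' → K.psi S' + K.gv Y B ≤ K.Psi S + 4 := by
    intro S' h
    obtain ⟨h1, h2⟩ := conn_diff K (Cx.conn_map hB) (mem_map_of_mem _ hb) hS h
    set C := K.comp S (K.ι b) with hC
    have h0 : K.Closed S C := Cx.comp_closed
    have h3 := hl _ h2 ⟨_, h1 (mem_map_of_mem _ hb)⟩
    have h4 := Int.ofNat_le.2 (Cx.gv_le (Y := Y) h2 h1 (sdiff_subset.trans (h0.1.trans hY))
      (Int.self_le_toNat _))
    rw [Int.toNat_of_nonneg (by linarith)] at h4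
    have h5 := le_add K (X := S' ∩ C) (X' := S' \ C)
      (disjoint_left.2 fun x a c => (mem_sdiff.1 c).2 (mem_inter.1 a).2) fun x a y c e =>
        (mem_sdiff.1 c).2 (h0.2 x (mem_inter.1 a).2 y (mem_sdiff.1 (h.1 (mem_sdiff.1 c).1)).1 e)
    rw [union_comm, sdiff_union_inter] at h5
    have h6 := add_le K (X := C \ S') (X' := C ∩ S')
      (disjoint_left.2 fun x a c => (mem_sdiff.1 a).2 (mem_inter.1 c).2)
    rw [sdiff_union_inter, inter_comm] at h6
    have h7 := add_le K (X := C) (X' := S' \ C) disjoint_sdiff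
    have h8 : K.Closed S (C ∪ S' \ C) := by
      refine ⟨union_subset h0.1 (sdiff_subset.trans (h.1.trans sdiff_subset)),
        fun x hx y hy e => ?_⟩
      by_cases f : y ∈ C
      · exact mem_union_left _ f
      rcases mem_union.1 hx with hx | hx
      · exact absurd (h0.2 x hx y hy e) f
      · exact mem_union_right _ (mem_sdiff.2 ⟨h.2 x (mem_sdiff.1 hx).1 y
          (mem_sdiff.2 ⟨hy, fun g => f (mem_sdiff.1 (h1 g)).1⟩) e, f⟩)
    linarith [Cx.psi_le_Psi h8]
  have h1 := key ∅ ⟨empty_subset _, fun x hx => absurd hx (notMem_empty x)⟩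
  rw [Cx.psi_empty] at h1
  have h2 := Cx.Psi_le (K := K) (S := S \ B.map K.ι) (n := K.Psi S + 4 - K.gv Y B) fun U hU => by
    have := key U hU
    omega
  omega

omit [Fintype V] [DecidableEq V] [Fintype W] in
open Psi in
theorem posS : PosS K := by
  intro S
  refine ⟨(S.filter fun a => 0 < K.psi (K.comp S a)).image (K.comp S), ?_, fun U hU => ?_,
    fun a ha h => mem_image_of_mem _ (mem_filter.2 ⟨ha, h⟩)⟩
  · refine (sum_le K _ fun U hU U' hU' hne => ?_).trans (Cx.psi_le_Psi ⟨?_, ?_⟩)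
    · obtain ⟨a, -, rfl⟩ := mem_image.1 hU
      obtain ⟨a', -, rfl⟩ := mem_image.1 hU'
      exact disjoint_left.2 fun x h h' => hne (Subset.antisymm
        (Cx.comp_conn.sub Cx.comp_sub Cx.comp_closed h h')
        (Cx.comp_conn.sub Cx.comp_sub Cx.comp_closed h' h))
    · refine biUnion_subset.2 fun U hU => ?_
      obtain ⟨a, -, rfl⟩ := mem_image.1 hU
      exact Cx.comp_sub
    · intro x hx y hy e
      obtain ⟨U, hU, hx⟩ := mem_biUnion.1 hx
      refine mem_biUnion.2 ⟨U, hU, ?_⟩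
      obtain ⟨a, -, rfl⟩ := mem_image.1 hU
      exact Cx.comp_closed.2 x hx y hy e
  · obtain ⟨a, ha, rfl⟩ := mem_image.1 hU
    exact ⟨a, (mem_filter.1 ha).1, rfl, (mem_filter.1 ha).2⟩

end Pool.Agent.MP_de21d3_co.H6
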