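import Pool.Agent.MP_de21d3_co.H6.Base

/-!
Sealing, counting of sides, and the decomposition of a connected set of corners.
-/

set_option autoImplicit false
set_option linter.unusedSectionVars false

namespace Pool.Agent.MP_de21d3_co.H6

open Finset Function H91

variable {V : Type} [Fintype V] [DecidableEq V] {G : SimpleGraph V} {N W : Type} [Fintype N]
  [DecidableEq N] [Fintype W] [DecidableEq W]

namespace Seal6

variable {K : Cx G N W} {R : Finset V} {z : V} (T : Tr K R z)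

theorem ts_one {X : Finset W} {e : N × Fin 3} (h : T.Ts X e) : ∃ y ∈ X, T.Ts {y} e :=
  let ⟨y, a, b, c⟩ := h
  ⟨y, a, y, mem_singleton_self y, b, c⟩

theorem ts_two {a : W} {p q : N} {i i' : Fin 3} (h : T.Ts {a} (p, i)) (h' : T.Ts {a} (q, i')) :
    i' = i ∧ (q = p ∨ q = K.sw i p) := by
  obtain ⟨y, hy, -, c⟩ := h
  obtain ⟨y', hy', -, c'⟩ := h'
  rw [mem_singleton] at hy hy'
  subst hy hy'
  generalize T.sd y' = e at c c'
  obtain ⟨e, l⟩ := e
  simp only [Prod.mk.injEq] at c c'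
  rcases c with ⟨rfl, rfl⟩ | ⟨rfl, rfl⟩ <;> rcases c' with ⟨rfl, rfl⟩ | ⟨rfl, rfl⟩
  · exact ⟨rfl, Or.inl rfl⟩
  · exact ⟨rfl, Or.inr rfl⟩
  · exact ⟨rfl, Or.inr (K.inv _ _).symm⟩
  · exact ⟨rfl, Or.inl rfl⟩

theorem ts_ends {y : W} {p : N} {i : Fin 3} (h : T.Ts {y} (p, i)) :
    T.dep (T.par y) < T.dep y ∧ ∃ j k, j ≠ i ∧ k ≠ i ∧ K.c p j = y ∧ K.c p k = T.par y ∧
      ∀ l, l ≠ i → l = j ∨ l = k := by
  obtain ⟨y', hy, h0, j, k, h1, h2, -, h3, h4, h5⟩ := Tr.Ts.ends T h
  rw [mem_singleton] at hy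
  subst hy
  exact ⟨T.lt _ h0, j, k, h1, h2, h3, h4, h5⟩

theorem ts_uniq {y y' : W} {e : N × Fin 3} (h : T.Ts {y} e) (h' : T.Ts {y'} e) : y = y' := by
  obtain ⟨p, i⟩ := e
  obtain ⟨d, j, k, h1, -, h3, h4, h5⟩ := ts_ends T h
  obtain ⟨d', j', k', h1', -, h3', h4', h5'⟩ := ts_ends T h'
  rcases h5 j' h1' with rfl | rfl
  · exact h3.symm.trans h3'
  rcases h5' j h1 with rfl | rfl
  · exact h3.symm.trans h3'
  rw [← h4, h3'] at d
  rw [← h4', h3] at d'
  omega

open Classical in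
theorem card_ts (X : Finset W) :
    (univ.filter fun e => T.Ts X e).card = 2 * (X.erase (K.ι z)).card := by
  have e1 : (univ.filter fun e => T.Ts X e) = (X.erase (K.ι z)).biUnion fun y =>
      {T.sd y, (K.sw (T.sd y).2 (T.sd y).1, (T.sd y).2)} := by
    ext e
    simp only [mem_filter, mem_univ, true_and, mem_biUnion, mem_erase, mem_insert, mem_singleton]
    exact ⟨fun ⟨y, a, b, c⟩ => ⟨y, ⟨b, a⟩, c⟩, fun ⟨y, ⟨b, a⟩, c⟩ => ⟨y, a, b, c⟩⟩
  rw [e1, card_biUnion, mul_comm, ← smul_eq_mul, ← sum_const]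
  · refine sum_congr rfl fun y _ => card_pair fun h => ?_
    exact K.ne _ _ (congrArg Prod.fst h).symm
  · intro y hy y' hy' hne
    rw [onFun, disjoint_left]
    intro e h h'
    simp only [mem_insert, mem_singleton] at h h'
    exact hne (ts_uniq T ⟨y, mem_singleton_self y, (mem_erase.1 hy).1, h⟩
      ⟨y', mem_singleton_self y', (mem_erase.1 hy').1, h'⟩)

theorem three (b : Fin 3 → Bool) :
    (univ.filter fun i : Fin 3 => ∃ j, j ≠ i ∧ b j = true).card =
      2 * (if ∃ j, b j = true then 1 else 0) +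
        if ∃ i j, i ≠ j ∧ b i = true ∧ b j = true then 1 else 0 := by
  revert b
  decide

open Classical in
theorem card_tch (K : Cx G N W) (X : Finset W) :
    (univ.filter fun e => K.Tch X e).card = 2 * (K.nd X).card +
      (univ.filter fun p => ∃ i j, i ≠ j ∧ K.c p i ∈ X ∧ K.c p j ∈ X).card := by
  unfold Cx.nd
  simp only [card_filter, Fintype.sum_prod_type, mul_sum, ← sum_add_distrib]
  refine sum_congr rfl fun p _ => ?_
  have := three fun j => decide (K.c p j ∈ X)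
  simp only [card_filter, decide_eq_true_eq] at this
  convert this using 2
  · exact if_congr Iff.rfl rfl rfl
  · congr

end Seal6

variable (K : Cx G N W)

theorem sealS : SealS K := by
  intro R z T X A φ hA hφ
  suffices H : ∀ n a, univ.sup T.dep - T.dep a = n → a ∈ X → ¬A a →
      ∀ p q i j, K.c p i = a → K.c q j = a → φ p → φ q from fun a => H _ a rfl
  intro n
  induction n using Nat.strong_induction_on with
  | _ n ih =>
  intro a hn ha hna
  have l2 : ∀ p i j, K.c p j = a → j ≠ i → ¬T.Ts {a} (p, i) → φ p → φ (K.sw i p) := by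
    intro p i j hp hj ht h
    by_cases hL : (p, i) ∈ T.Ls X
    · by_contra h'
      exact hna (hp ▸ hφ p i hL h h' j hj)
    have h1 : T.Ts X (p, i) := by
      by_contra h1
      exact hL (T.mem_Ls.2 ⟨⟨j, hj, hp ▸ ha⟩, h1⟩)
    obtain ⟨y, hy, h2⟩ := Seal6.ts_one T h1
    obtain ⟨d, j', k', h3, -, h4, h5, h6⟩ := Seal6.ts_ends T h2
    rcases h6 j hj with rfl | rfl
    · exact absurd ((h4.symm.trans hp) ▸ h2) ht
    · have e : T.par y = a := h5.symm.trans hp
      have := le_sup (f := T.dep) (mem_univ y)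
      rw [e] at d
      exact ih _ (by omega) y rfl hy (fun h => hna (e ▸ hA y h)) p _ j' j' h4
        ((K.cs i j' p h3).trans h4) h
  have l3 : ∀ p i j, K.c p j = a → j ≠ i → φ p → φ (K.sw i p) := by
    intro p i j hp hj h
    by_cases ht : T.Ts {a} (p, i)
    swap
    · exact l2 p i j hp hj ht h
    obtain ⟨i', a1, a2⟩ : ∃ i' : Fin 3, i' ≠ i ∧ j ≠ i' := by
      revert hj
      clear * -
      revert i j
      decide
    exact ((H60.parity (K.inv i') (K.inv i) (K.ne i') (K.ne i) (fun q => K.c q j = a ∧ φ q) p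
      (fun q ⟨x, y⟩ => ⟨(K.cs i' j q a2).trans x,
        l2 q i' j x a2 (fun h' => a1 (Seal6.ts_two T ht h').1) y⟩)
      fun q u v ⟨x, y⟩ => ⟨(K.cs i j q hj).trans x,
        l2 q i j x hj (fun h' => (Seal6.ts_two T ht h').2.elim u v) y⟩).1 ⟨hp, h⟩).2
  intro p q i j hp hq h
  obtain rfl : i = j := K.ty p q i j (hp.trans hq.symm)
  have hl := K.link p q i (hp.trans hq.symm)
  suffices K.c q i = a ∧ φ q from this.2
  clear hq
  induction hl with
  | refl => exact ⟨hp, h⟩
  | tail _ y ih' =>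
    obtain ⟨l, hl, rfl⟩ := y
    exact ⟨(K.cs l i _ hl.symm).trans ih'.1, l3 _ l i ih'.1 hl.symm ih'.2⟩

theorem countS : CountS K := by
  classical
  intro R z T X
  have h1 := Seal6.card_ts T X
  have h2 := Seal6.card_tch K X
  have h3 : (T.Ls X).card + (univ.filter fun e => T.Ts X e).card =
      (univ.filter fun e => K.Tch X e).card := by
    rw [← card_union_of_disjoint]
    · congr 1
      ext ⟨p, i⟩
      simp only [mem_union, T.mem_Ls, mem_filter, mem_univ, true_and]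
      refine ⟨fun h => h.elim And.left fun h => ?_, fun h => ?_⟩
      · obtain ⟨y, hy, -, j, k, a1, -, -, a2, -⟩ := Tr.Ts.ends T h
        exact ⟨j, a1, a2 ▸ hy⟩
      · tauto
    · rw [disjoint_left]
      exact fun e h h' => (T.mem_Ls.1 h).2 (mem_filter.1 h').2
  have h4 := card_erase_le (s := X) (a := K.ι z)
  have h5 := pred_card_le_card_erase (s := X) (a := K.ι z)
  have h6 : K.psi X = ((univ.filter fun p => ∃ i j, i ≠ j ∧ K.c p i ∈ X ∧ K.c p j ∈ X).card : ℤ)
      - 2 * (X.card : ℤ) := by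
    unfold Cx.psi
    congr
  rw [h6]
  omega

theorem decXS (hd : DecS) : DecXS K := by
  intro R z T X w b hX hne hw hb
  have hc := (countS K R z T X).2
  refine hd N K.sw (K.nd X) (T.Ls X) w b _ K.inv K.ne (fun e => T.Ls_nd) (fun p i => T.Ls_sw)
    ?_ ?_ hw hb (by omega)
  · obtain ⟨a, ha⟩ := hne
    obtain ⟨p, i, e⟩ := K.occ a
    exact ⟨p, Cx.mem_nd.2 ⟨i, e ▸ ha⟩⟩
  intro p hp q hq
  obtain ⟨i, hi⟩ := Cx.mem_nd.1 hp
  obtain ⟨j, hj⟩ := Cx.mem_nd.1 hq
  have hs := sealS K R z T X (fun _ => False)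
    (fun x => Relation.ReflTransGen (fun a b => ∃ i, (a, i) ∈ T.Ls X ∧ b = K.sw i a) p x)
    (fun _ h => h) (fun x l hl h h' => (h' (h.tail ⟨l, hl, rfl⟩)).elim)
  have hcn := hX _ hi _ hj
  suffices H : ∀ q' j', K.c q' j' = K.c q j →
      Relation.ReflTransGen (fun a b => ∃ i, (a, i) ∈ T.Ls X ∧ b = K.sw i a) p q' from H q j rfl
  clear hj
  generalize K.c q j = y at hcn
  induction hcn with
  | refl => exact fun q' j' e => hs _ hi id p q' i j' rfl e .refl
  | tail _ h ih =>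
    obtain ⟨-, h1, x, l, l', e1, e2⟩ := h
    exact fun q' j' e => hs _ h1 id x q' l' j' e2 e (ih x l e1)

theorem lowS (hG : G.Connected) (hd : DecS) (ht : TreeS K) : LowS K := by
  intro X hX hne
  obtain ⟨z⟩ := hG.nonempty
  obtain ⟨T⟩ := ht {z} z (mem_singleton_self z) (cn_of (x := z) fun v hv => by
    rw [mem_singleton.1 hv]
    exact ⟨0, .zero (mem_singleton_self z)⟩)
  obtain ⟨D⟩ := decXS K hd {z} z T X (fun _ => 0) 2 hX hne (fun _ => Nat.zero_le _) le_rfl
  have := D.cnt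
  simp only [Nat.cast_ofNat, Nat.cast_zero, sum_const_zero] at this
  omega

end Pool.Agent.MP_de21d3_co.H6
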