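import Pool.Agent.MP_de21d3_co.H6.Base

/-!
Subdivisions exist, and small sets of a subdivision span few edges.
-/

set_option autoImplicit false
set_option linter.unusedSectionVars false

namespace Pool.Agent.MP_de21d3_co.H6

open Finset Function H91

variable {V : Type} [Fintype V] [DecidableEq V] {G : SimpleGraph V}

namespace Sub6

/-- A numbering of the vertices. -/
noncomputable def rk (v : V) : ℕ := (Fintype.equivFin V v : ℕ)

lemma rk_inj {u v : V} (h : rk u = rk v) : u = v :=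
  (Fintype.equivFin V).injective (Fin.ext h)

lemma rk_or {u v : V} (h : G.Adj u v) : rk u < rk v ∨ rk v < rk u :=
  Nat.lt_or_gt_of_ne fun e => h.ne (rk_inj e)

/-- The edges, listed by their ends in increasing order. -/
abbrev Ed (G : SimpleGraph V) : Type := {e : V × V // G.Adj e.1 e.2 ∧ rk e.1 < rk e.2}

lemma card_Ed : Nat.card (Ed G) = Nat.card G.edgeSet := by
  refine Nat.card_eq_of_bijective (fun e : Ed G => (⟨s(e.1.1, e.1.2), e.2.1⟩ : G.edgeSet)) ⟨?_, ?_⟩
  · rintro ⟨⟨a, b⟩, h, r⟩ ⟨⟨c, d⟩, h', r'⟩ e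
    have e' : s(a, b) = s(c, d) := congrArg Subtype.val e
    rcases Sym2.eq_iff.1 e' with ⟨rfl, rfl⟩ | ⟨rfl, rfl⟩
    · rfl
    · exact absurd r (Nat.lt_asymm r')
  · rintro ⟨e, he⟩
    induction e using Sym2.ind with
    | _ a b =>
      have h : G.Adj a b := he
      rcases rk_or h with r | r
      · exact ⟨⟨(a, b), h, r⟩, rfl⟩
      · exact ⟨⟨(b, a), h.symm, r⟩, Subtype.ext Sym2.eq_swap⟩

/-- The vertices of the subdivision. -/
abbrev Vx (G : SimpleGraph V) (L : ℕ) : Type := V ⊕ (Ed G × Fin (L - 1))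

open Classical in
/-- The point at distance `s` from `u` on the edge `uv`. -/
noncomputable def pt (G : SimpleGraph V) (L : ℕ) (u v : V) (s : ℕ) : Vx G L :=
  if h₀ : s = 0 then Sum.inl u else if h₁ : L ≤ s then Sum.inl v
  else if h : G.Adj u v ∧ rk u < rk v then Sum.inr (⟨(u, v), h⟩, ⟨s - 1, by omega⟩)
  else if h : G.Adj v u ∧ rk v < rk u then Sum.inr (⟨(v, u), h⟩, ⟨L - s - 1, by omega⟩)
  else Sum.inl u

variable {L : ℕ} {u v : V} {s : ℕ}

lemma pt_zero : pt G L u v 0 = Sum.inl u := by simp [pt]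

lemma pt_end (a : 0 < s) (b : L ≤ s) : pt G L u v s = Sum.inl v := by
  unfold pt
  rw [dif_neg a.ne', dif_pos b]

lemma pt_lt (h : G.Adj u v) (r : rk u < rk v) (a : 0 < s) (b : s < L) :
    pt G L u v s = Sum.inr (⟨(u, v), h, r⟩, ⟨s - 1, by omega⟩) := by
  unfold pt
  rw [dif_neg a.ne', dif_neg b.not_ge, dif_pos ⟨h, r⟩]

lemma pt_gt (h : G.Adj u v) (r : rk v < rk u) (a : 0 < s) (b : s < L) :
    pt G L u v s = Sum.inr (⟨(v, u), h.symm, r⟩, ⟨L - s - 1, by omega⟩) := by
  unfold pt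
  rw [dif_neg a.ne', dif_neg b.not_ge, dif_neg fun x => Nat.lt_asymm r x.2, dif_pos ⟨h.symm, r⟩]

lemma pt_rev (hL : 0 < L) (h : G.Adj u v) (b : s ≤ L) : pt G L v u (L - s) = pt G L u v s := by
  rcases Nat.eq_zero_or_pos s with rfl | a
  · rw [pt_zero, pt_end (by omega) (by omega)]
  rcases b.eq_or_lt with rfl | b
  · rw [Nat.sub_self, pt_zero, pt_end a le_rfl]
  rcases rk_or h with r | r
  · rw [pt_lt h r a b, pt_gt h.symm r (by omega) (by omega)]
    exact congrArg Sum.inr (Prod.ext rfl (Fin.ext (by simp only; omega)))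
  · rw [pt_gt h r a b, pt_lt h.symm r (by omega) (by omega)]

lemma pt_one (w : V) (h : G.Adj u v) (a : 0 < s) (b : s < L) : pt G L u v s ≠ Sum.inl w := by
  rcases rk_or h with r | r
  · rw [pt_lt h r a b]; exact Sum.inr_ne_inl
  · rw [pt_gt h r a b]; exact Sum.inr_ne_inl

lemma pt_inj {u' v' : V} {s' : ℕ} (h : G.Adj u v) (h' : G.Adj u' v') (a : 0 < s) (b : s < L)
    (b' : s' ≤ L) (e : pt G L u v s = pt G L u' v' s') :
    (u' = u ∧ v' = v ∧ s' = s) ∨ (u' = v ∧ v' = u ∧ s' + s = L) := by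
  rcases Nat.eq_zero_or_pos s' with rfl | a'
  · exact absurd (e.trans pt_zero) (pt_one _ h a b)
  rcases b'.eq_or_lt with rfl | b'
  · exact absurd (e.trans (pt_end a' le_rfl)) (pt_one _ h a b)
  have key : ∀ {x y x' y' : V} {p : G.Adj x y ∧ rk x < rk y} {p' : G.Adj x' y' ∧ rk x' < rk y'}
      {i i' : ℕ} {q : i < L - 1} {q' : i' < L - 1},
      (Sum.inr (⟨(x, y), p⟩, ⟨i, q⟩) : Vx G L) = Sum.inr (⟨(x', y'), p'⟩, ⟨i', q'⟩) →
      x' = x ∧ y' = y ∧ i' = i := by
    intro x y x' y' p p' i i' q q' e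
    have e₁ := Prod.ext_iff.1 (Sum.inr_injective e)
    have e₂ : (x, y) = (x', y') := congrArg Subtype.val e₁.1
    have e₃ : i = i' := congrArg Fin.val e₁.2
    exact ⟨(congrArg Prod.fst e₂).symm, (congrArg Prod.snd e₂).symm, e₃.symm⟩
  rcases rk_or h with r | r <;> rcases rk_or h' with r' | r'
  · rw [pt_lt h r a b, pt_lt h' r' a' b'] at e
    obtain ⟨x, y, z⟩ := key e
    exact .inl ⟨x, y, by omega⟩
  · rw [pt_lt h r a b, pt_gt h' r' a' b'] at e
    obtain ⟨x, y, z⟩ := key e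
    exact .inr ⟨y, x, by omega⟩
  · rw [pt_gt h r a b, pt_lt h' r' a' b'] at e
    obtain ⟨x, y, z⟩ := key e
    exact .inr ⟨x, y, by omega⟩
  · rw [pt_gt h r a b, pt_gt h' r' a' b'] at e
    obtain ⟨x, y, z⟩ := key e
    exact .inl ⟨y, x, by omega⟩

lemma pt_ne (h : G.Adj u v) (b : s < L) : pt G L u v s ≠ pt G L u v (s + 1) := by
  intro e
  rcases Nat.eq_zero_or_pos s with rfl | a
  · rw [pt_zero] at e
    rcases (Nat.succ_le_of_lt b).eq_or_lt with c | c
    · rw [pt_end (by omega) (by omega)] at e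
      exact h.ne (Sum.inl_injective e)
    · exact pt_one _ h (by omega) c e.symm
  · rcases pt_inj h h a b b e with ⟨_, _, z⟩ | ⟨z, _⟩
    · omega
    · exact h.ne z

/-- The subdivided graph. -/
def gr (G : SimpleGraph V) (L : ℕ) : SimpleGraph (Vx G L) where
  Adj x y := ∃ u v s, G.Adj u v ∧ s < L ∧ x = pt G L u v s ∧ y = pt G L u v (s + 1)
  symm := ⟨by
    rintro x y ⟨u, v, s, h, b, rfl, rfl⟩
    refine ⟨v, u, L - (s + 1), h.symm, by omega, (pt_rev (by omega) h b).symm, ?_⟩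
    rw [show L - (s + 1) + 1 = L - s by omega, pt_rev (by omega) h b.le]⟩
  loopless := ⟨by
    rintro x ⟨u, v, s, h, b, rfl, e⟩
    exact pt_ne h b e⟩

end Sub6

open Sub6 in
theorem subS : SubS G := by
  classical
  intro L hL
  refine ⟨Vx G L, inferInstance, inferInstance, gr G L, ⟨{
    o := Sum.inl
    pt := pt G L
    zero := fun _ _ _ => pt_zero
    rev := fun _ _ _ h b => pt_rev hL h b
    adj := fun _ _ => Iff.rfl
    oinj := Sum.inl_injective
    one := fun _ _ _ w h a b => pt_one w h a b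
    inj := fun _ _ _ _ _ _ h h' a b b' e => pt_inj h h' a b b' e
    surj := ?_
    card := ?_ }⟩⟩
  · rintro (u | ⟨⟨⟨u, v⟩, h, r⟩, ⟨i, q⟩⟩)
    · exact .inl ⟨u, rfl⟩
    · exact .inr ⟨u, v, i + 1, h, by omega, by omega,
        (pt_lt h r (s := i + 1) (by omega) (by omega)).symm⟩
  · rw [Nat.card_sum, Nat.card_prod, card_Ed, Nat.card_eq_fintype_card (α := Fin (L - 1)),
      Fintype.card_fin, Nat.mul_comm]

open Sub6 in
theorem sparseS : SparseS G := by
  classical
  intro V' _ G' L S B hB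
  let fw : V → V → Prop := fun u v => S.o u ∈ B ∨ (S.o v ∉ B ∧ rk u < rk v)
  have tot : ∀ {u v}, G.Adj u v → fw u v ∨ fw v u := by
    intro u v h
    by_cases a : S.o u ∈ B
    · exact .inl (.inl a)
    by_cases b : S.o v ∈ B
    · exact .inr (.inl b)
    exact (rk_or h).imp (fun r => .inr ⟨b, r⟩) fun r => .inr ⟨a, r⟩
  have asy : ∀ {u v}, G.Adj u v → fw u v → fw v u → False := by
    rintro u v h (a | ⟨a, r⟩) (b | ⟨b, r'⟩)
    · exact h.ne (hB _ _ a b)
    · exact b a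
    · exact a b
    · exact Nat.lt_asymm r r'
  let F : Finset (V' × V') := (B ×ˢ B).filter fun d =>
    ∃ u v s, G.Adj u v ∧ fw u v ∧ s < L ∧ d.1 = S.pt u v s ∧ d.2 = S.pt u v (s + 1)
  have hF : F.card ≤ B.card := by
    refine card_le_card_of_injOn Prod.snd
      (fun d hd => (mem_product.1 (mem_filter.1 hd).1).2) ?_
    rintro ⟨x, y⟩ hd ⟨x', y'⟩ hd' e
    obtain ⟨m, u, v, s, h, f, b, e₁, e₂⟩ := mem_filter.1 hd
    obtain ⟨-, u', v', s', h', f', b', e₁', e₂'⟩ := mem_filter.1 hd'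
    have m := (mem_product.1 m).2
    dsimp only at e e₁ e₂ e₁' e₂' m
    subst e
    rcases (Nat.succ_le_of_lt b).eq_or_lt with c | c
    · have c : s + 1 = L := c
      rw [e₂, c, ← S.rev u v L h le_rfl, Nat.sub_self, S.zero v u h.symm] at m
      exact (asy h f (.inl m)).elim
    · rcases S.inj u v (s + 1) u' v' (s' + 1) h h' (by omega) c b' (e₂.symm.trans e₂') with
        ⟨rfl, rfl, z⟩ | ⟨rfl, rfl, _⟩
      · obtain rfl : s' = s := by omega
        rw [e₁, e₁']
      · exact (asy h f f').elim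
  refine le_trans (card_le_card (t := F ∪ F.image Prod.swap) ?_) ?_
  · rintro ⟨x, y⟩ hd
    obtain ⟨m, a⟩ := mem_filter.1 hd
    obtain ⟨u, v, s, h, b, e₁, e₂⟩ := (S.adj _ _).1 a
    rcases tot h with f | f
    · exact mem_union_left _ (mem_filter.2 ⟨m, u, v, s, h, f, b, e₁, e₂⟩)
    · refine mem_union_right _ (mem_image.2 ⟨(y, x), mem_filter.2 ⟨?_, v, u, L - (s + 1), h.symm, f,
        by omega, ?_, ?_⟩, rfl⟩)
      · exact mem_product.2 (mem_product.1 m).symm
      · exact e₂.trans (S.rev u v _ h b).symm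
      · rw [show L - (s + 1) + 1 = L - s by omega, S.rev u v _ h b.le]
        exact e₁
  · have := card_union_le F (F.image Prod.swap)
    have := card_image_le (s := F) (f := Prod.swap)
    omega

end Pool.Agent.MP_de21d3_co.H6
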