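import Pool.Agent.MP_de21d3_co.H6.Base

/-!
Distances in a subdivision, and simulation of the game on a subdivision.
-/

set_option autoImplicit false
set_option linter.unusedSectionVars false

namespace Pool.Agent.MP_de21d3_co.H6

open Finset Function H91

namespace SubD

variable {V V' : Type} {G : SimpleGraph V} {G' : SimpleGraph V'} {L : ℕ} (S : Sub G L G')

lemma pt_end {u v : V} (h : G.Adj u v) : S.pt u v L = S.o v := by
  rw [← S.rev u v L h le_rfl, Nat.sub_self, S.zero v u h.symm]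

lemma walk {u v : V} (h : G.Adj u v) (s d : ℕ) (hd : s + d ≤ L) :
    ∃ p : G'.Walk (S.pt u v s) (S.pt u v (s + d)), p.length = d := by
  induction d with
  | zero => exact ⟨.nil, rfl⟩
  | succ d ih =>
    obtain ⟨p, hp⟩ := ih (by omega)
    exact ⟨p.concat ((S.adj _ _).2 ⟨u, v, s + d, h, by omega, rfl, rfl⟩), by
      rw [SimpleGraph.Walk.length_concat, hp]⟩

lemma left {u v : V} (h : G.Adj u v) {s : ℕ} (hs : s ≤ L) :
    G'.Reachable (S.o u) (S.pt u v s) ∧ G'.dist (S.o u) (S.pt u v s) ≤ s := by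
  have := walk S h 0 s (by omega)
  rw [S.zero u v h, Nat.zero_add] at this
  obtain ⟨p, hp⟩ := this
  exact ⟨⟨p⟩, (SimpleGraph.dist_le p).trans hp.le⟩

lemma right {u v : V} (h : G.Adj u v) {s : ℕ} (hs : s ≤ L) :
    G'.dist (S.o v) (S.pt u v s) ≤ L - s := by
  rw [← S.rev u v s h hs]
  exact (left S h.symm (Nat.sub_le _ _)).2

lemma dist_o {u v : V} (h : near G u v) : G'.dist (S.o u) (S.o v) ≤ L := by
  rcases h with rfl | h
  · simp
  · exact pt_end S h ▸ (left S h le_rfl).2

include S in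
lemma conn (hG : G.Connected) : G'.Connected := by
  have h1 : ∀ u v, G'.Reachable (S.o u) (S.o v) := fun u v => by
    obtain ⟨p⟩ := hG.preconnected u v
    induction p with
    | nil => rfl
    | cons h _ ih => exact (pt_end S h ▸ (left S h le_rfl).1).trans ih
  have h2 : ∀ x, ∃ u, G'.Reachable (S.o u) x := fun x => by
    rcases S.surj x with ⟨u, rfl⟩ | ⟨u, v, s, h, -, hs, rfl⟩
    · exact ⟨u, .refl _⟩
    · exact ⟨u, (left S h hs.le).1⟩
  have : Nonempty V' := hG.nonempty.map S.o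
  refine ⟨fun x y => ?_⟩
  obtain ⟨u, hu⟩ := h2 x
  obtain ⟨v, hv⟩ := h2 y
  exact (hu.symm.trans (h1 u v)).trans hv

/-- The position of a point reached from `a` in `n` steps. -/
def Inv (a : V) (n : ℕ) (x : V') : Prop := ∃ u, (x = S.o u ∧ L * G.dist a u ≤ n) ∨
  ∃ v s, G.Adj u v ∧ 0 < s ∧ s < L ∧ x = S.pt u v s ∧ L * G.dist a u + s ≤ n

lemma inv_of (hG : G.Connected) {a u v : V} {n s : ℕ} (h : G.Adj u v) (hs : s ≤ L)
    (hn : L * G.dist a u + s ≤ n) : Inv S a n (S.pt u v s) := by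
  rcases Nat.eq_zero_or_pos s with rfl | h0
  · exact ⟨u, Or.inl ⟨S.zero u v h, hn⟩⟩
  rcases hs.eq_or_lt with rfl | hs
  · refine ⟨v, Or.inl ⟨pt_end S h, le_trans ?_ hn⟩⟩
    exact Nat.mul_le_mul_left s (dist_near hG a (Or.inr h))
  · exact ⟨u, Or.inr ⟨v, s, h, h0, hs, rfl, hn⟩⟩

lemma Inv.step (hG : G.Connected) {a : V} {n : ℕ} {x y : V'} (h : Inv S a n x)
    (hxy : G'.Adj x y) : Inv S a (n + 1) y := by
  obtain ⟨u', v', s', h', hs', hx, rfl⟩ := (S.adj x y).1 hxy
  obtain ⟨u, ⟨h1, h2⟩ | ⟨v, s, h1, h2, h3, h4, h5⟩⟩ := h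
  · rcases Nat.eq_zero_or_pos s' with rfl | h0
    · rw [S.zero u' v' h', h1] at hx
      obtain rfl := S.oinj hx
      exact inv_of S hG h' hs' (by omega)
    · exact absurd (hx.symm.trans h1) (S.one u' v' s' u h' h0 hs')
  · rcases S.inj u v s u' v' s' h1 h' h2 h3 hs'.le (h4.symm.trans hx) with
      ⟨rfl, rfl, rfl⟩ | ⟨rfl, rfl, e⟩
    · exact inv_of S hG h' hs' (by omega)
    · rw [← S.rev _ _ (s' + 1) h' hs']
      exact inv_of S hG h1 (Nat.sub_le _ _) (by omega)

lemma Inv.walk (hG : G.Connected) {a : V} {x y : V'} (p : G'.Walk x y) {n : ℕ}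
    (h : Inv S a n x) : Inv S a (n + p.length) y := by
  induction p generalizing n with
  | nil => exact h
  | cons e p ih =>
    have := ih (h.step S hG e)
    rwa [SimpleGraph.Walk.length_cons, Nat.add_comm p.length, ← Nat.add_assoc]

lemma inv_dist (hG : G.Connected) (a : V) (x : V') : Inv S a (G'.dist (S.o a) x) x := by
  obtain ⟨p, hp⟩ := (conn S hG).exists_walk_length_eq_dist (S.o a) x
  have := Inv.walk S hG p (a := a) (n := 0) ⟨a, Or.inl ⟨rfl, by simp⟩⟩
  rwa [Nat.zero_add, hp] at this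

lemma mul_le (hG : G.Connected) (a b : V) : L * G.dist a b ≤ G'.dist (S.o a) (S.o b) := by
  obtain ⟨u, ⟨h1, h2⟩ | ⟨v, s, h1, h2, h3, h4, -⟩⟩ := inv_dist S hG a (S.o b)
  · rwa [S.oinj h1] at h2 ⊢
  · exact absurd h4.symm (S.one u v s b h1 h2 h3)

lemma near_of (hG : G.Connected) {a b : V} (h : G.dist a b < 2) : near G a b := by
  rcases (by omega : G.dist a b = 0 ∨ G.dist a b = 1) with h | h
  · exact Or.inl (hG.dist_eq_zero_iff.1 h)
  · exact Or.inr (SimpleGraph.dist_eq_one_iff_adj.1 h)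

end SubD

variable {V : Type} [Fintype V] [DecidableEq V] {G : SimpleGraph V}

theorem subDS (hG : G.Connected) : SubDS G := by
  intro V' _ _ G' κ S hκ
  have h2 : ∀ {d : ℕ}, 2 * κ * d < 4 * κ → d < 2 := fun {d} h =>
    Nat.lt_of_mul_lt_mul_left (a := 2 * κ) (by omega)
  have h1 : ∀ {d : ℕ}, 2 * κ * d < 2 * κ → d = 0 := fun {d} h =>
    Nat.lt_one_iff.1 (Nat.lt_of_mul_lt_mul_left (a := 2 * κ) (by omega))
  refine ⟨SubD.conn S hG, fun a x hx => ?_,
    fun a b h => SubD.near_of hG (h2 ((SubD.mul_le S hG a b).trans_lt h)),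
    fun a b h => hG.dist_eq_zero_iff.1 (h1 ((SubD.mul_le S hG a b).trans_lt h))⟩
  obtain ⟨u, ⟨e, h⟩ | ⟨v, s, e1, e2, e3, e, h⟩⟩ := SubD.inv_dist S hG a x
  · exact ⟨u, SubD.near_of hG (h2 (by omega)), by simp [e]⟩
  · by_cases hs : s ≤ κ
    · exact ⟨u, SubD.near_of hG (h2 (by omega)), e ▸ (SubD.left S e1 e3.le).2.trans hs⟩
    · obtain rfl : a = u := hG.dist_eq_zero_iff.1 (h1 (by omega))
      exact ⟨v, Or.inr e1, e ▸ (SubD.right S e1 e3.le).trans (by omega)⟩

theorem simS (hG : G.Connected) (hd : SubDS G) : SimS G := by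
  intro V' _ _ G' κ k S hκ hW
  obtain ⟨hc, h1, h2, -⟩ := hd V' G' κ S (by omega)
  have key : ∀ (c' : Fin k → V') (x : V'), Ex G' univ c' x → ∀ (c : Fin k → V) (r : V) (t : ℕ),
      1 ≤ t → G'.dist x (S.o r) ≤ t → (∀ i, G'.dist (S.o (c i)) (c' i) + t ≤ 3 * κ) →
      Win G c r := by
    intro c' x h
    induction h with
    | done h => exact absurd (mem_univ _) h
    | @cap c' x i h =>
      intro c r t _ hx hc'
      have e1 := dist_near hc (S.o (c i)) h
      have e2 := hc.dist_triangle (u := S.o (c i)) (v := x) (w := S.o r)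
      have e3 := hc' i
      refine win_step (c' := update c i r) (fun j => ?_) (Or.inl ⟨i, by simp⟩)
      by_cases hj : j = i
      · rw [hj, update_self]
        exact h2 _ _ (by omega)
      · rw [update_of_ne hj]
        exact nrefl _
    | @step c' x c'' h _ ih =>
      intro c r t ht hx hc'
      obtain ⟨w, hw, hw'⟩ := toward hc x (S.o r)
      have e1 : ∀ i, G'.dist (S.o (c i)) (c'' i) + t ≤ 3 * κ + 1 := fun i => by
        have := dist_near hc (S.o (c i)) (h i)
        have := hc' i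
        omega
      rcases ht.eq_or_lt with rfl | ht
      · choose b hb hb' using fun i => h1 (c i) (c'' i) (by have := e1 i; omega)
        refine win_step hb (Or.inr fun r' hr => ih w hw b r' (2 * κ) (by omega) ?_ fun i => ?_)
        · have := hc.dist_triangle (u := w) (v := S.o r) (w := S.o r')
          have := SubD.dist_o S hr
          omega
        · have := hb' i
          omega
      · exact ih w hw c r (t - 1) (by omega) (by omega) fun i => by have := e1 i; omega
  obtain ⟨v⟩ := hG.nonempty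
  exact copsWin_of (fun _ => v) fun r => key _ _ (hW (Fin k) (by simp) (fun _ => S.o v) (S.o r))
    _ r 1 le_rfl (by simp) fun i => by simp; omega

end Pool.Agent.MP_de21d3_co.H6
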