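import Pool.Agent.MP_de21d3_co.H6.Base

/-!
Row TEAMS: several teams with one helper squad.
-/

set_option autoImplicit false

namespace Pool.Agent.MP_de21d3_co.H6

open Finset Function H91

namespace Teams

variable {V : Type} {G : SimpleGraph V} {ι ι' : Type} {R : Finset V}

variable (G) in
/-- Armed states, with a predicate for the forbidden set. -/
def Arm (R : Finset V) (Z : V → Prop) (A : (ι → V) → V → Prop) : Prop :=
  ∀ c r, A c r → r ∈ R → Ex G R c r ∨
    (¬Z r ∧ ∃ c' : ι → V, (∀ i, near G (c i) (c' i)) ∧ ∀ r' ∈ R, near G r r' → A c' r')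

lemma near_elim {c : ι ⊕ ι' → V} {a : ι → V} {b : ι' → V} (h : ∀ i, near G ((c ∘ .inl) i) (a i))
    (h' : ∀ i, near G ((c ∘ .inr) i) (b i)) : ∀ i, near G (c i) (Sum.elim a b i)
  | .inl i => h i
  | .inr i => h' i

lemma keep {Z : V → Prop} {A : (ι → V) → V → Prop} (hA : Arm G R Z A) {Q : (ι' → V) → V → Prop}
    {d : ι' → V} {r : V} (h : Fc G Q d r) : ∀ c : ι ⊕ ι' → V, c ∘ .inr = d →
      (r ∉ R ∨ A (c ∘ .inl) r) →
      Fc G (fun c r => r ∉ R ∨ (A (c ∘ .inl) r ∧ Q (c ∘ .inr) r)) c r := by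
  induction h with
  | done h => exact fun c e a => .done (a.imp_right fun a => ⟨a, e ▸ h⟩)
  | cap i h => exact fun c e _ => .cap (.inr i) (by subst e; exact h)
  | @step d r d' h _ ih =>
    intro c e a
    subst e
    refine (em (r ∈ R)).elim (fun hr => ?_) fun hr => .done (.inl hr)
    rcases hA _ r (a.resolve_left (not_not.2 hr)) hr with b | ⟨-, c', b, f⟩
    · exact Fc.mono (Ex.lift Sum.inl_injective b) fun _ _ => .inl
    · exact .step (Sum.elim c' d') (near_elim b h) fun r' hr' => ih r' hr' _ rfl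
        ((em (r' ∈ R)).elim (fun x => .inr (f r' x hr')) .inl)

lemma Arm.prod {Z Z' Z'' : V → Prop} {A : (ι → V) → V → Prop} {A' : (ι' → V) → V → Prop}
    (h : Arm G R Z A) (h' : Arm G R Z' A') (hZ : ∀ v, Z'' v → Z v ∨ Z' v) :
    Arm G R Z'' fun (c : ι ⊕ ι' → V) r => A (c ∘ .inl) r ∧ A' (c ∘ .inr) r := by
  rintro c r ⟨a, a'⟩ hr
  rcases h _ r a hr with b | ⟨z, d, b, f⟩
  · exact .inl (Ex.lift Sum.inl_injective b)
  rcases h' _ r a' hr with b' | ⟨z', d', b', f'⟩
  · exact .inl (Ex.lift Sum.inr_injective b')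
  exact .inr ⟨fun e => (hZ r e).elim z z', Sum.elim d d', near_elim b b',
    fun r' x y => ⟨f r' x y, f' r' x y⟩⟩

lemma goto (hG : G.Connected) [Fintype ι] (c₀ c : ι → V) (r : V) :
    Fc G (fun c _ => c = c₀) c r := by
  obtain ⟨n, hn⟩ : ∃ n, ∀ i, G.dist (c i) (c₀ i) ≤ n :=
    ⟨_, fun i => le_sup (f := fun i => G.dist (c i) (c₀ i)) (mem_univ i)⟩
  induction n generalizing c r with
  | zero => exact .done (funext fun i => hG.dist_eq_zero_iff.1 (Nat.le_zero.1 (hn i)))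
  | succ n ih =>
    choose c' h1 h2 using fun i => toward hG (c i) (c₀ i)
    exact .step c' h1 fun r' _ => ih c' r' fun i => (h2 i).trans (by have := hn i; omega)

lemma single (hG : G.Connected) [Fintype ι] {A : (ι → V) → V → Prop} {c₀ : ι → V} {B : Finset V}
    {k : ℕ} (hA : ∀ r ∈ R, r ∉ B → Fc G (fun c r => r ∉ R ∨ A c r) c₀ r) (hB : Wn G k B)
    (c : ι ⊕ Fin k → V) (r : V) : Fc G (fun c r => r ∉ R ∨ A (c ∘ .inl) r) c r := by
  refine (Fc.lift Sum.inl_injective (goto hG c₀ (c ∘ .inl) r) c rfl).bind fun c r ⟨a, _⟩ => ?_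
  refine (Fc.lift Sum.inr_injective (hB (Fin k) (by simp) (c ∘ .inr) r) c rfl).bind
    fun c' r ⟨b, e⟩ => ?_
  refine (em (r ∈ R)).elim (fun hr => ?_) fun hr => .done (.inl hr)
  exact (Fc.lift Sum.inl_injective (hA r hr b) c'
    ((funext fun i => e _ fun _ => Sum.inr_ne_inl).trans a)).mono fun _ _ h => h.1

lemma finish {Z : V → Prop} {A : (ι → V) → V → Prop} (hA : Arm G R Z A) {S : Finset V}
    (hS : ∀ v ∈ R, ¬Z v → v ∈ S) {x : V} {d : ι' → V} {r : V} (h : Ex G (cmp G S x) d r) :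
    ∀ c : ι ⊕ ι' → V, c ∘ .inr = d → (r ∉ R ∨ A (c ∘ .inl) r) → (r ∈ S → r ∈ cmp G S x) →
      Ex G R c r := by
  induction h with
  | @done d r h =>
    intro c _ a p
    refine (em (r ∈ R)).elim (fun hr => ?_) fun hr => .done hr
    exact (hA _ r (a.resolve_left (not_not.2 hr)) hr).elim (Ex.lift Sum.inl_injective)
      fun b => absurd (p (hS r hr b.1)) h
  | cap i h => exact fun c e _ _ => .cap (.inr i) (by subst e; exact h)
  | @step d r d' h _ ih =>
    intro c e a p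
    subst e
    refine (em (r ∈ R)).elim (fun hr => ?_) fun hr => .done hr
    rcases hA _ r (a.resolve_left (not_not.2 hr)) hr with b | ⟨z, c', b, f⟩
    · exact Ex.lift Sum.inl_injective b
    · exact .step (Sum.elim c' d') (near_elim b h) fun r' hr' => ih r' hr' _ rfl
        ((em (r' ∈ R)).elim (fun x => .inr (f r' x hr')) .inl) (cmp_closed (p (hS r hr z)) hr')

lemma forb (hG : G.Connected) {J : Type} {k : J → ℕ} {B Z : J → Finset V} {k' : ℕ} (s : Finset J)
    (h1 : ∀ j ∈ s, St G (k j) R (B j) (Z j)) (h2 : ∀ j ∈ s, Wn G k' (B j)) :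
    ∃ (ι : Type) (_ : Fintype ι) (A : (ι → V) → V → Prop), Fintype.card ι ≤ ∑ j ∈ s, k j ∧
      Arm G R (fun v => ∃ j ∈ s, v ∈ Z j) A ∧
      ∀ (c : ι ⊕ Fin k' → V) r, Fc G (fun c r => r ∉ R ∨ A (c ∘ .inl) r) c r := by
  classical
  induction s using Finset.induction_on with
  | empty =>
    exact ⟨Empty, inferInstance, fun _ _ => True, by simp, fun c r _ _ =>
      .inr ⟨by simp, c, fun _ => nrefl _, fun _ _ _ => trivial⟩, fun c r => .done (.inr trivial)⟩
  | insert j s hj ih =>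
    obtain ⟨ι, _, A, a1, a2, a3⟩ := ih (fun i hi => h1 i (mem_insert_of_mem hi))
      fun i hi => h2 i (mem_insert_of_mem hi)
    obtain ⟨ι', _, A', c₀, b1, b2, b3⟩ := h1 j (mem_insert_self j s)
    refine ⟨ι ⊕ ι', inferInstance, _, by rw [Fintype.card_sum, sum_insert hj]; omega,
      a2.prod (Z' := (· ∈ Z j)) b2 fun v ⟨i, hi, hv⟩ => (mem_insert.1 hi).elim
        (fun e => .inr (e ▸ hv)) fun e => .inl ⟨i, e, hv⟩, fun c r => ?_⟩
    refine (Fc.lift (Injective.sumMap (Sum.inl_injective (β := ι')) injective_id)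
      (a3 (c ∘ Sum.map .inl id) r) c rfl).bind fun c r ⟨a, _⟩ => ?_
    refine (Fc.lift (Equiv.sumAssoc ι ι' (Fin k')).symm.injective (keep a2
      (single hG b3 (h2 j (mem_insert_self j s)) _ r) _ rfl a) c rfl).mono fun c r ⟨b, _⟩ => ?_
    rcases b with b | ⟨b, b' | b'⟩
    exacts [.inl b, .inl b', .inr ⟨b, b'⟩]

end Teams

open Teams in
theorem teamsS {V : Type} [Fintype V] [DecidableEq V] {G : SimpleGraph V} (hG : G.Connected) :
    TeamsS G := by
  intro J s k B Z k' R S h1 h2 h3 _ _ h4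
  obtain ⟨ι, _, A, a1, a2, a3⟩ := forb hG s h1 h2
  have hS : ∀ v ∈ R, (¬∃ j ∈ s, v ∈ Z j) → v ∈ S := fun v hv h =>
    h3 v hv fun j hj e => h ⟨j, hj, e⟩
  refine wn_of (ι := ι ⊕ Fin k') (by simpa using a1) fun c r => (a3 c r).bind fun c r a => ?_
  by_cases hr : r ∈ S
  · exact finish a2 hS (h4 r hr (Fin k') (by simp) _ r) c rfl a fun _ => self_mem_cmp hr
  · exact finish a2 hS (x := r) (.done fun e => hr (cmp_sub e)) c rfl a fun e => absurd e hr

end Pool.Agent.MP_de21d3_co.H6
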