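import Pool.Agent.MP_de21d3_co.H6.Base

/-!
Breadth first trees, and their extension to spanning trees of the complex.
-/

set_option autoImplicit false
set_option linter.unusedSectionVars false

namespace Pool.Agent.MP_de21d3_co.H6

open Finset Function H91

variable {V : Type} [Fintype V] [DecidableEq V] {G : SimpleGraph V} {N W : Type} [Fintype N]
  [DecidableEq N] [Fintype W] [DecidableEq W] (K : Cx G N W)

namespace Tree

lemma rch_zero {R : Finset V} {z v : V} (h : Rch G R z 0 v) : v = z := by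
  cases h
  rfl

lemma rch_succ {R : Finset V} {z v : V} {n : ℕ} (h : Rch G R z (n + 1) v) :
    ∃ u, Rch G R z n u ∧ near G u v := by
  cases h with
  | succ a b _ => exact ⟨_, a, b⟩

lemma exists_bf {R : Finset V} {z : V} (hz : z ∈ R) (h : Cn G R) : Nonempty (Bf G R z) := by
  let lv : V → ℕ := fun v => sInf {n | Rch G R z n v}
  have sp : ∀ v ∈ R, Rch G R z (lv v) v := fun v hv =>
    Nat.sInf_mem (s := {n | Rch G R z n v}) (h z hz v hv)
  have le : ∀ v n, Rch G R z n v → lv v ≤ n := fun v n e => Nat.sInf_le e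
  have rt : ∀ v ∈ R, lv v = 0 ↔ v = z := fun v hv =>
    ⟨fun e => rch_zero (e ▸ sp v hv), fun e => Nat.le_zero.1 (le v 0 (by rw [e]; exact .zero hz))⟩
  have lip : ∀ u ∈ R, ∀ v ∈ R, near G u v → lv u ≤ lv v + 1 := fun u hu v hv e =>
    le u _ (.succ (sp v hv) (nsymm e) hu)
  have ex : ∀ v, ∃ u, v ∈ R → u ∈ R ∧ near G v u ∧ lv u = lv v - 1 := fun v => by
    by_cases hv : v ∈ R
    · rcases e : lv v with _ | m
      · exact ⟨v, fun _ => ⟨hv, nrefl v, e⟩⟩
      · obtain ⟨u, a, b⟩ := rch_succ (e ▸ sp v hv)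
        have h1 := le u m a
        have h2 := lip v hv u a.right (nsymm b)
        exact ⟨u, fun _ => ⟨a.right, nsymm b, by omega⟩⟩
    · exact ⟨v, fun e => absurd e hv⟩
  choose P hP using ex
  exact ⟨⟨P, lv, hz, fun v hv => (hP v hv).1, fun v hv => (hP v hv).2.1,
    fun v hv => (hP v hv).2.2, rt, lip⟩⟩

/-- A chain of `n` steps leads from the corner to `S`. -/
def Ch (S : Set W) : ℕ → W → Prop
  | 0, y => y ∈ S
  | n + 1, y => ∃ x, K.adj y x ∧ Ch S n x

lemma exists_ch {S : Set W} {s : W} (hs : s ∈ S) (y : W) : ∃ n, Ch K S n y := by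
  have h := K.conn y s
  induction h using Relation.ReflTransGen.head_induction_on with
  | refl => exact ⟨0, hs⟩
  | head a _ ih =>
    obtain ⟨n, hn⟩ := ih
    exact ⟨n + 1, _, a, hn⟩

lemma exists_next {S : Set W} {s : W} (hs : s ∈ S) :
    ∃ (δ : W → ℕ) (nx : W → W), ∀ y, y ∉ S → K.adj y (nx y) ∧ δ (nx y) < δ y := by
  let δ : W → ℕ := fun y => sInf {n | Ch K S n y}
  have sp : ∀ y, Ch K S (δ y) y := fun y =>
    Nat.sInf_mem (s := {n | Ch K S n y}) (exists_ch K hs y)
  have le : ∀ y n, Ch K S n y → δ y ≤ n := fun y n e => Nat.sInf_le e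
  have ex : ∀ y, ∃ x, y ∉ S → K.adj y x ∧ δ x < δ y := fun y => by
    have h := sp y
    rcases e : δ y with _ | m
    · rw [e] at h
      exact ⟨y, fun hy => absurd h hy⟩
    · rw [e] at h
      obtain ⟨x, a, b⟩ := h
      exact ⟨x, fun _ => ⟨a, Nat.lt_succ_of_le (le x m b)⟩⟩
  choose nx hnx using ex
  exact ⟨δ, nx, hnx⟩

end Tree

theorem treeS : TreeS K := by
  classical
  intro R z hz hR
  obtain ⟨T⟩ := Tree.exists_bf hz hR
  have : Nonempty V := ⟨z⟩
  let S : Set W := {y | ∃ v ∈ R, K.ι v = y}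
  have hS : ∀ v ∈ R, K.ι v ∈ S := fun v hv => ⟨v, hv, rfl⟩
  obtain ⟨δ, nx, hnx⟩ := Tree.exists_next K (hS z hz)
  have li : ∀ v, invFun K.ι (K.ι v) = v := leftInverse_invFun K.ι.injective
  let par : W → W := fun y => if y ∈ S then K.ι (T.P (invFun K.ι y)) else nx y
  let dep : W → ℕ := fun y => if y ∈ S then T.lv (invFun K.ι y) else R.sup T.lv + δ y
  have p1 : ∀ v ∈ R, par (K.ι v) = K.ι (T.P v) := fun v hv => by
    simp only [par, if_pos (hS v hv), li]
  have p2 : ∀ y, y ∉ S → par y = nx y := fun y hy => if_neg hy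
  have d1 : ∀ v ∈ R, dep (K.ι v) = T.lv v := fun v hv => by
    simp only [dep, if_pos (hS v hv), li]
  have d2 : ∀ y, y ∉ S → dep y = R.sup T.lv + δ y := fun y hy => if_neg hy
  have lt : ∀ y, y ≠ K.ι z → dep (par y) < dep y := fun y hy => by
    by_cases h : y ∈ S
    · obtain ⟨v, hv, rfl⟩ := h
      have h0 : T.lv v ≠ 0 := fun e => hy (congrArg K.ι ((T.rt v hv).1 e))
      rw [p1 v hv, d1 v hv, d1 _ (T.mem v hv), T.dp v hv]
      omega
    · have h1 := (hnx y h).2
      rw [p2 y h, d2 y h]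
      by_cases h' : nx y ∈ S
      · obtain ⟨v, hv, e⟩ := h'
        have h2 : T.lv v ≤ R.sup T.lv := le_sup hv
        rw [← e, d1 v hv]
        omega
      · rw [d2 _ h']
        omega
  have ad : ∀ y, K.adj y (par y) := fun y => by
    by_cases h : y ∈ S
    · obtain ⟨v, hv, rfl⟩ := h
      rw [p1 v hv]
      exact Cx.adj_near (T.nr v hv)
    · rw [p2 y h]
      exact (hnx y h).1
  have th : ∀ j k : Fin 3, ∃ i, j ≠ i ∧ k ≠ i := by decide
  have exs : ∀ y, ∃ e : N × Fin 3, ∃ j k, j ≠ e.2 ∧ k ≠ e.2 ∧ K.c e.1 j = y ∧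
      K.c e.1 k = par y := fun y => by
    obtain ⟨p, j, k, a, b⟩ := ad y
    obtain ⟨i, c, d⟩ := th j k
    exact ⟨(p, i), j, k, c, d, a, b⟩
  choose sd hsd using exs
  have it : ∀ u ∈ R, ∀ n, par^[n] (K.ι u) = K.ι (T.P^[n] u) := fun u hu n => by
    induction n with
    | zero => rfl
    | succ n ih => rw [iterate_succ_apply', iterate_succ_apply', ih, p1 _ (T.iter_mem hu n)]
  have exa : ∀ y, ∃ a ∈ R, ∀ n, ∀ v ∈ R, par^[n] y = K.ι v → ∃ t, T.wl a t = v := fun y => by
    induction e : δ y using Nat.strong_induction_on generalizing y with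
    | _ m ih =>
      by_cases h : y ∈ S
      · obtain ⟨u, hu, rfl⟩ := h
        refine ⟨u, hu, fun n v _ e' => ⟨T.lv u - n, ?_⟩⟩
        rw [it u hu n] at e'
        rw [T.iter_wl hu n]
        exact K.ι.injective e'
      · obtain ⟨a, ha, H⟩ := ih (δ (nx y)) (e ▸ (hnx y h).2) (nx y) rfl
        refine ⟨a, ha, fun n v hv e' => ?_⟩
        cases n with
        | zero => exact absurd ⟨v, hv, e'.symm⟩ h
        | succ n =>
          rw [iterate_succ_apply, p2 y h] at e'
          exact H n v hv e'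
  choose an anm anw using exa
  exact ⟨⟨T, par, dep, sd, an, p1, lt, fun y _ => hsd y, anm, anw⟩⟩

end Pool.Agent.MP_de21d3_co.H6
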