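import Pool.Agent.MP_de21d3_co.H6.Base

/-!
The data of a zone exist.
-/

set_option autoImplicit false

namespace Pool.Agent.MP_de21d3_co.H6

open Finset Function H91

variable {V : Type} [Fintype V] [DecidableEq V] {G : SimpleGraph V} {N W : Type} [Fintype N]
  [DecidableEq N] [Fintype W] [DecidableEq W]

namespace Zd

variable {K : Cx G N W} {R : Finset V} {z : V} (T : Tr K R z) {X Y : Finset W} {M : Finset N}
  {w : N → ℕ} {b : ℕ} {x : ℤ}

omit [Fintype V] [DecidableEq V] [Fintype W] [DecidableEq W] in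
lemma same (hs : SealS K) (D : Dec K.sw M (T.Ls X) w b x) {A : W → Prop}
    (h1 : ∀ y, A y → A (T.par y)) (h2 : ∀ e ∈ D.Cut, ∀ j, j ≠ e.2 → A (K.c e.1 j)) {a : W}
    (ha : a ∈ X) (na : ¬A a) {p q : N} {i j : Fin 3} (hp : K.c p i = a) (hq : K.c q j = a) :
    D.top q = D.top p :=
  hs R z T X A (fun q => D.top q = D.top p) h1 (fun q k l e n => h2 (q, k) (by_contra fun c =>
    n ((D.lab q k l c).trans e))) a ha na p q i j hp hq rfl

omit [Fintype V] [DecidableEq V] [Fintype W] [DecidableEq W] in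
lemma labels (D : Dec K.sw (K.nd X) (T.Ls X) w b x) (f : N → N)
    (h : ∀ p i, (p, i) ∈ T.Ls X → f (K.sw i p) ≠ f p → 1 ≤ w p) (t : N) :
    (((K.nd X).filter fun p => D.top p = t).image f).card ≤ 3 * b + 5 := by
  set S := (K.nd X).filter fun p => D.top p = t with hS
  have key : ∀ n, ∀ p ∈ S, D.dp p = n → f p ∈ insert (f t) ((S.filter fun p => 1 ≤ w p).image f) := by
    intro n
    induction n using Nat.strong_induction_on with
    | _ n ih =>
      intro p hp e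
      obtain ⟨m1, m2⟩ := mem_filter.1 hp
      cases u : D.up p with
      | none => rw [← m2, D.root p m1 u]; exact mem_insert_self _ _
      | some i =>
        obtain ⟨a, c, d⟩ := D.upL p i u
        by_cases k : f (K.sw i p) = f p
        · exact k ▸ ih _ (e ▸ d) _ (mem_filter.2 ⟨T.Ls_nd (T.Ls_sw a), (D.lab p i a c).trans m2⟩) rfl
        · exact mem_insert_of_mem (mem_image_of_mem f (mem_filter.2 ⟨hp, h p i a k⟩))
  have c1 := (card_le_card (image_subset_iff.2 fun p hp => key _ p hp rfl)).trans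
    ((card_insert_le _ _).trans (Nat.add_le_add_right card_image_le 1))
  have c2 : (S.filter fun p => 1 ≤ w p).card ≤ ∑ p ∈ S, w p := by
    rw [card_filter]
    exact sum_le_sum fun p _ => by split_ifs <;> omega
  have := D.cls t
  rw [← hS] at this
  omega

omit [Fintype V] [DecidableEq V] [DecidableEq N] [Fintype W] [DecidableEq W] in
lemma tree {e : N × Fin 3} (h : e ∈ T.Ls X) (h' : T.Ts Y e) : ∃ y ∈ Y, y ∉ X ∧ y ≠ K.ι z ∧
    T.par y ∈ X ∧ (e = T.sd y ∨ e = (K.sw (T.sd y).2 (T.sd y).1, (T.sd y).2)) ∧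
    ∃ j, j ≠ e.2 ∧ K.c e.1 j = y := by
  obtain ⟨y, a, n, c⟩ := h'
  obtain ⟨⟨l, l1, l2⟩, t⟩ := T.mem_Ls.1 h
  have nx : y ∉ X := fun k => t ⟨y, k, n, c⟩
  obtain ⟨y', a', -, j, k, j1, -, -, e1, e2, e3⟩ :=
    Tr.Ts.ends T (X := {y}) (p := e.1) (i := e.2) ⟨y, mem_singleton_self y, n, c⟩
  obtain rfl := mem_singleton.1 a'
  refine ⟨y', a, nx, n, ?_, c, j, j1, e1⟩
  rcases e3 l l1 with rfl | rfl
  · exact (nx (e1 ▸ l2)).elim
  · exact e2 ▸ l2

lemma special (hs : SealS K) (D : Dec K.sw M (T.Ls Y) w b x) (hX : X ⊆ Y) {O : W → Prop}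
    (o1 : ∀ y, O y → O (T.par y)) (o2 : ∀ y ∈ X, O y)
    (o3 : ∀ y, y ∉ X → y ≠ K.ι z → T.par y ∈ X → ¬O y) :
    ((T.Ls X).filter fun e => D.top (K.sw e.2 e.1) ≠ D.top e.1).card ≤ 5 * D.Cut.card := by
  have oi : ∀ n y, O y → O (T.par^[n] y) := fun n y h => by
    induction n with
    | zero => exact h
    | succ n ih => rw [iterate_succ_apply']; exact o1 _ ih
  have un : ∀ u, ∃ y, ∀ n, ¬O (T.par^[n] u) → O (T.par (T.par^[n] u)) → T.par^[n] u = y := by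
    intro u
    by_cases h : ∃ n, ¬O (T.par^[n] u) ∧ O (T.par (T.par^[n] u))
    · obtain ⟨n, a, c⟩ := h
      refine ⟨T.par^[n] u, fun k a' c' => ?_⟩
      rcases lt_trichotomy k n with l | l | l
      · obtain ⟨s, rfl⟩ := Nat.exists_eq_add_of_lt l
        refine (a ?_).elim
        rw [show k + s + 1 = s + (1 + k) by ring, iterate_add_apply, iterate_add_apply]
        exact oi _ _ c'
      · rw [l]
      · obtain ⟨s, rfl⟩ := Nat.exists_eq_add_of_lt l
        refine (a' ?_).elim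
        rw [show n + s + 1 = s + (1 + n) by ring, iterate_add_apply, iterate_add_apply]
        exact oi _ _ c
    · exact ⟨u, fun n a c => (h ⟨n, a, c⟩).elim⟩
  choose ψ hψ using un
  rw [mul_comm]
  refine (card_le_card (t := D.Cut.biUnion fun e => insert e ((univ.erase e.2).biUnion fun j =>
    {T.sd (ψ (K.c e.1 j)), (K.sw (T.sd (ψ (K.c e.1 j))).2 (T.sd (ψ (K.c e.1 j))).1,
      (T.sd (ψ (K.c e.1 j))).2)})) fun e he => ?_).trans
    (card_biUnion_le_card_mul _ _ _ fun e _ => (card_insert_le _ _).trans ?_)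
  · obtain ⟨l, ne⟩ := mem_filter.1 he
    by_cases c : e ∈ D.Cut
    · exact mem_biUnion.2 ⟨e, c, mem_insert_self _ _⟩
    obtain ⟨j0, j1, j2⟩ := (T.mem_Ls.1 l).1
    obtain ⟨y, y1, y2, y3, y4, y5, j, y6, y7⟩ := tree T l (Y := Y) (by_contra fun t =>
      ne (D.lab e.1 e.2 (T.mem_Ls.2 ⟨⟨j0, j1, hX j2⟩, t⟩) c))
    obtain ⟨e0, a1, k, a2, n, a3⟩ : ∃ e0 ∈ D.Cut, ∃ k, k ≠ e0.2 ∧ ∃ n,
        T.par^[n] (K.c e0.1 k) = y := by_contra fun na => ne (same T hs D
      (A := fun y => ∃ e0 ∈ D.Cut, ∃ k, k ≠ e0.2 ∧ ∃ n, T.par^[n] (K.c e0.1 k) = y)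
      (fun _ ⟨e0, a1, k, a2, n, a3⟩ => ⟨e0, a1, k, a2, n + 1, by rw [iterate_succ_apply', a3]⟩)
      (fun e0 a1 k a2 => ⟨e0, a1, k, a2, 0, rfl⟩) y1 na y7 ((K.cs _ _ _ y6).trans y7))
    have e1 := hψ (K.c e0.1 k) n (a3 ▸ o3 y y2 y3 y4) (a3 ▸ o2 _ y4)
    refine mem_biUnion.2 ⟨e0, a1, mem_insert_of_mem (mem_biUnion.2
      ⟨k, mem_erase.2 ⟨a2, mem_univ _⟩, ?_⟩)⟩
    rw [← e1, a3, mem_insert, mem_singleton]
    exact y5
  · refine Nat.add_le_add_right ((card_biUnion_le_card_mul _ _ 2 fun j _ => card_le_two).trans ?_) 1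
    rw [card_erase_of_mem (mem_univ _)]
    rfl

omit [Fintype V] [DecidableEq V] [DecidableEq N] [Fintype W] [DecidableEq W] [Fintype N] in
lemma iter {v : V} (hv : v ∈ R) (n : ℕ) : T.par^[n] (K.ι v) = K.ι (T.P^[n] v) := by
  induction n with
  | zero => rfl
  | succ n ih => rw [iterate_succ_apply', iterate_succ_apply', ih, T.pι _ (T.toBf.iter_mem hv n)]

end Zd

variable (K : Cx G N W)

theorem zdS (hs : SealS K) (hd : DecXS K) (hp : PsiS K) (hc : CellS K) (hm : MonoS K) : ZdS K := by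
  classical
  intro R z T Y m ρ d a β cY hR hY β0 hρ hg r hr r1 r2
  obtain ⟨D0⟩ := hd R z T Y (fun _ => 0) 2 cY ⟨_, hR (mem_map_of_mem _ hr)⟩ (fun _ => by omega) le_rfl
  obtain ⟨C0, -, cl⟩ := hc R z T Y m hR hY D0
  have n0 : D0.Cut.card ≤ 3 * m := by
    have := D0.cnt
    simp only [Nat.cast_zero, sum_const_zero, Nat.cast_ofNat] at this
    omega
  obtain ⟨Y2, c2, b2, s2, p2⟩ := Cx.gv_spec (B := ball G R z d) cY
    ((map_subset_map.2 ball_sub).trans hR)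
  set B := (ball G R z ρ).map K.ι with hB
  have mB : ∀ v ∈ R, K.ι v ∈ B ↔ T.lv v ≤ ρ := fun v hv => by
    rw [hB, mem_map' K.ι, T.toBf.mem_ball, and_iff_right hv]
  have pU : K.psi (K.comp (Y2 \ B) (K.ι r)) ≤ a + 4 := by
    have h1 := hp Y Y2 (ball G R z ρ) s2 cn_ball ⟨z, self_mem_ball T.hz⟩
      ((map_subset_map.2 (ball_mono Subset.rfl hρ)).trans b2)
    have h2 := c2.Psi_le (n := K.gv Y (ball G R z d)) (by omega)
    have h3 := Cx.psi_le_Psi (Cx.comp_closed (K := K) (S := Y2 \ B) (a := K.ι r))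
    rw [← hB] at h1
    omega
  set O : Finset W := univ.filter fun y => (∀ n, T.par^[n] y ∈ Y2) ∧ y ∉ B with hO
  have mO : ∀ y, y ∈ O ↔ (∀ n, T.par^[n] y ∈ Y2) ∧ y ∉ B := fun y => by simp [hO]
  have vO : ∀ v ∈ R, ρ < T.lv v → T.lv v ≤ d → K.ι v ∈ O := fun v hv v1 v2 =>
    (mO _).2 ⟨fun n => by
      rw [Zd.iter T hv]
      refine b2 (mem_map_of_mem _ (T.toBf.mem_ball.2 ⟨T.toBf.iter_mem hv n, ?_⟩))
      rw [T.toBf.lv_iter hv]
      omega, fun h => v1.not_ge ((mB v hv).1 h)⟩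
  have sO : O ⊆ Y2 \ B := fun y h => mem_sdiff.2 ⟨((mO y).1 h).1 0, ((mO y).1 h).2⟩
  set X := K.comp O (K.ι r) with hX
  have rX : K.ι r ∈ X := Cx.self_mem_comp (vO r hr r1 r2)
  have rU := Cx.self_mem_comp (K := K) (sO (vO r hr r1 r2))
  have XO : X ⊆ O := Cx.comp_sub
  have XU := Cx.comp_conn.sub (XO.trans sO) Cx.comp_closed rX rU
  have o3 : ∀ y, y ∉ X → y ≠ K.ι z → T.par y ∈ X → ¬∀ n, T.par^[n] y ∈ Y2 := by
    intro y y1 y2 y3 h
    obtain ⟨j, k, -, -, e1, e2⟩ := T.ends y y2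
    refine y1 (Cx.comp_closed.2 _ y3 y ((mO y).2 ⟨h, fun hb => ((mO _).1 (XO y3)).2 ?_⟩)
      ⟨_, k, j, e2, e1⟩)
    obtain ⟨v, hv, rfl⟩ := mem_map.1 hb
    obtain ⟨v1, v2⟩ := T.toBf.mem_ball.1 hv
    rw [T.pι v v1, mB _ (T.mem v v1), T.dp v v1]
    omega
  have pX : K.psi X ≤ 3 * (K.psi (K.comp (Y2 \ B) (K.ι r)) + 4) := by
    refine hm R z T _ X Cx.comp_conn ⟨_, rU⟩ fun e he => T.mem_Ls.2 ⟨?_, fun t => ?_⟩
    · obtain ⟨j, j1, j2⟩ := (T.mem_Ls.1 he).1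
      exact ⟨j, j1, XU j2⟩
    · obtain ⟨y, y1, y2, y3, y4, -⟩ := Zd.tree T he t
      refine o3 y y2 y3 y4 fun n => ?_
      cases n with
      | zero => exact (mem_sdiff.1 (Cx.comp_sub y1)).1
      | succ n => exact ((mO _).1 (XO y4)).1 n
  set Sp := (T.Ls X).filter fun e => D0.top (K.sw e.2 e.1) ≠ D0.top e.1 with hSp
  have nS : Sp.card ≤ 5 * D0.Cut.card := Zd.special T hs D0
    (((XO.trans sO).trans sdiff_subset).trans s2) (O := fun y => ∀ n, T.par^[n] y ∈ Y2)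
    (fun y h n => h (n + 1)) (fun y h => ((mO y).1 (XO h)).1) o3
  obtain ⟨D1⟩ := hd R z T X (fun p => (Sp.filter fun e => e.1 = p).card) (β + 1) Cx.comp_conn
    ⟨_, rX⟩ (fun p => (card_le_card_of_injOn (t := (univ : Finset (Fin 3))) Prod.snd
      (fun _ _ => mem_univ _) fun e he e' he' h => Prod.ext
        ((mem_filter.1 he).2.trans (mem_filter.1 he').2.symm) h).trans (by simp)) (by omega)
  have n1 : 2 * D1.Cut.card ≤ 18 * a + 60 * m / β + 170 := by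
    have h1 := D1.cnt
    have h2 := card_eq_sum_card_fiberwise (s := Sp) (t := K.nd X) (f := Prod.fst)
      fun e he => T.Ls_nd (mem_filter.1 he).1
    rw [← Nat.cast_sum, ← h2] at h1
    have h3 : ((β : ℤ) + 2) * (K.psi X + 4) ≤ (β + 2) * (3 * a + 28) :=
      mul_le_mul_of_nonneg_left (by omega) (by positivity)
    have h4 : ((β : ℤ) + 2) * (3 * a + 28) ≤ (3 * β) * (3 * a + 28) :=
      mul_le_mul_of_nonneg_right (by omega) (by positivity)
    have h5 : (Sp.card : ℤ) ≤ 15 * m := by omega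
    have h6 : 2 * D1.Cut.card * β ≤ 60 * m + β * (18 * a + 170) := by
      zify
      push_cast at h1
      nlinarith
    have := (Nat.le_div_iff_mul_le β0).2 h6
    rw [Nat.add_mul_div_left _ _ β0] at this
    omega
  refine ⟨R.filter fun v => K.ι v ∈ X, D1.Cut.biUnion T.anch, fun v => (((K.nd X).filter fun p =>
    D1.top p = D1.top (K.nodeAt (K.ι v))).image D0.top).biUnion C0.X, mem_filter.2 ⟨hr, rX⟩,
    biUnion_subset.2 fun e _ => T.anch_sub e, ?_, fun v hv => ⟨biUnion_subset.2 fun p _ => C0.sub p,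
      ?_, fun h => (C0.cap v h).mono ?_⟩, fun v hv v' h n a1 a2 => mem_filter.2 ⟨h,
      Cx.comp_closed.2 _ (mem_filter.1 hv).2 _ (vO v' h a1 a2) (Cx.adj_near n)⟩,
    fun v hv v' hv' h h' n f f' => ?_⟩
  · exact (card_biUnion_le_card_mul _ _ 2 fun e _ => T.card_anch e).trans (mul_comm 2 _ ▸ n1)
  · refine (card_biUnion_le_card_mul _ _ 20 fun p _ => C0.le p).trans ?_
    have := Zd.labels T D1 D0.top (fun p i l e => card_pos.2
      ⟨(p, i), mem_filter.2 ⟨mem_filter.2 ⟨l, e⟩, rfl⟩⟩) (D1.top (K.nodeAt (K.ι v)))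
    omega
  · obtain ⟨i, e⟩ := Cx.nodeAt_spec (K := K) (K.ι v)
    rw [cl]
    exact subset_biUnion_of_mem C0.X (mem_image_of_mem _ (mem_filter.2
      ⟨Cx.mem_nd.2 ⟨i, e.symm ▸ (mem_filter.1 hv).2⟩, rfl⟩))
  · obtain ⟨p, i, j, e1, e2⟩ := Cx.adj_near (K := K) n
    have key : ∀ u ∈ R, K.ι u ∈ X → T.Free (D1.Cut.biUnion T.anch) u → ∀ k, K.c p k = K.ι u →
        D1.top (K.nodeAt (K.ι u)) = D1.top p := fun u u1 u2 u3 k e =>
      Zd.same T hs D1 (A := T.Wl (D1.Cut.biUnion T.anch)) (fun _ h => h.par)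
        (fun e he _ hj => T.wl_of (subset_biUnion_of_mem T.anch he) hj) u2 (T.not_wl u1 u3) e
        (Cx.nodeAt_spec _).choose_spec
    simp only [key v h (mem_filter.1 hv).2 f i e1, key v' h' (mem_filter.1 hv').2 f' j e2]

end Pool.Agent.MP_de21d3_co.H6
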