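import Pool.Agent.MP_de21d3_co.H6.Base

/-!
The strategy of a zone team: two squads of cops that track walls.
-/

set_option autoImplicit false
set_option linter.unusedSectionVars false

namespace Pool.Agent.MP_de21d3_co.H6

open Finset Function H91

namespace ZoneG

variable {V : Type} {G : SimpleGraph V} {R : Finset V} {z : V} (T : Bf G R z) {ι κ : Type}

/-- The cop at `x` is in time for the wall of `a` when the robber has level `l`. -/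
def TI (d : ℕ) (a x : V) (l : ℕ) : Prop :=
  (∃ t ≤ d, x = T.wl a t ∧ t ≤ l + 1 ∧ min l d ≤ t + 1 + (l - d)) ∨ T.lv x + 2 * d ≤ l

/-- All cops of the squad are at level at most `d`. -/
def In (d : ℕ) (c : κ → V) : Prop := ∀ i, c i ∈ R ∧ T.lv (c i) ≤ d

/-- Each wall of `X` has its own cop that is in time. -/
def SQ (d : ℕ) (X : Finset V) (c : κ → V) (l : ℕ) : Prop :=
  ∃ f : V → κ, Set.InjOn f X ∧ ∀ a ∈ X, TI T d a (c (f a)) l

variable {T}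

lemma TI.step {d l : ℕ} {a x : V} (h : TI T d a x l) (ha : a ∈ R) (hx : x ∈ R)
    (hl : T.lv x ≤ d) : ∃ x', near G x x' ∧ x' ∈ R ∧ T.lv x' ≤ d ∧
      ∀ l', l ≤ l' + 1 → l' ≤ l + 1 → TI T d a x' l' := by
  rcases h with ⟨t, h1, rfl, h2, h3⟩ | h
  · by_cases e : l ≤ d
    · refine ⟨T.wl a l, T.near_wl ha h2 (by omega), T.wl_mem ha _, ?_,
        fun l' b b' => Or.inl ⟨l, e, rfl, b, by omega⟩⟩
      rw [T.lv_wl ha]
      omega
    · refine ⟨T.wl a (min (t + 1) d), T.near_wl ha (by omega) (by omega), T.wl_mem ha _, ?_,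
        fun l' b b' => Or.inl ⟨_, by omega, rfl, by omega, by omega⟩⟩
      rw [T.lv_wl ha]
      omega
  · have e := T.dp x hx
    refine ⟨T.P x, T.nr x hx, T.mem x hx, by omega, fun l' b b' => ?_⟩
    by_cases e' : T.lv x = 0
    · refine Or.inl ⟨0, d.zero_le, ?_, by omega, by omega⟩
      rw [T.wl_zero ha, (T.rt x hx).1 e', T.P_root]
    · exact Or.inr (by omega)

lemma SQ.step {d l : ℕ} {X : Finset V} {c : κ → V} (h : SQ T d X c l) (hX : X ⊆ R)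
    (hc : In T d c) : ∃ c' : κ → V, (∀ i, near G (c i) (c' i)) ∧ In T d c' ∧
      ∀ l', l ≤ l' + 1 → l' ≤ l + 1 → SQ T d X c' l' := by
  obtain ⟨f, hf, h⟩ := h
  have key : ∀ i, ∃ x', near G (c i) x' ∧ x' ∈ R ∧ T.lv x' ≤ d ∧ ∀ a ∈ X, f a = i →
      ∀ l', l ≤ l' + 1 → l' ≤ l + 1 → TI T d a x' l' := fun i => by
    by_cases e : ∃ a ∈ X, f a = i
    · obtain ⟨a, ha, rfl⟩ := e
      obtain ⟨x', h1, h2, h3, h4⟩ := (h a ha).step (hX ha) (hc _).1 (hc _).2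
      exact ⟨x', h1, h2, h3, fun b hb e => hf ha hb e.symm ▸ h4⟩
    · exact ⟨c i, nrefl _, (hc i).1, (hc i).2, fun a ha e' => (e ⟨a, ha, e'⟩).elim⟩
  choose c' h1 h2 h3 h4 using key
  exact ⟨c', h1, fun i => ⟨h2 i, h3 i⟩, fun l' b b' => ⟨f, hf, fun a ha => h4 _ a ha rfl l' b b'⟩⟩

lemma SQ.new {d l k : ℕ} {X : Finset V} {c : Fin (k + 1) → V} (hc : In T d c)
    (hX : X.card ≤ k + 1) (hl : 3 * d ≤ l) : SQ T d X c l := by
  classical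
  obtain ⟨g⟩ : Nonempty (X ↪ Fin (k + 1)) :=
    Function.Embedding.nonempty_of_card_le (by simpa using hX)
  refine ⟨fun v => if h : v ∈ X then g ⟨v, h⟩ else 0, fun u hu v hv e => ?_,
    fun a _ => Or.inr ((Nat.add_le_add_right (hc _).2 _).trans (by omega))⟩
  have hu' : u ∈ X := hu
  have hv' : v ∈ X := hv
  simp only [dif_pos hu', dif_pos hv'] at e
  exact congrArg Subtype.val (g.injective e)

lemma SQ.rdy {d : ℕ} {X : Finset V} {c : ι → V} {g : κ → ι} {r : V}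
    (h : SQ T d X (fun i => c (g i)) (T.lv r)) (hg : Injective g) (hd : 0 < d)
    (hl : T.lv r ≤ d) : T.Rdy X c r := by
  obtain ⟨f, hf, h⟩ := h
  refine ⟨fun v => g (f v), fun u hu v hv e => hf hu hv (hg e), fun a ha => ?_⟩
  rcases h a ha with ⟨t, -, h1, h2, h3⟩ | h1
  · exact ⟨t, h1, h2, by omega⟩
  · omega

variable (T)

/-- The data of a zone. -/
def Dt (ρ d k₁ k₂ : ℕ) (C A₁ : Finset V) (A₂ : V → Finset V) : Prop :=
  A₁ ⊆ R ∧ A₁.card ≤ k₁ ∧ (∀ v ∈ C, A₂ v ⊆ R ∧ (A₂ v).card ≤ k₂ ∧ (v ∈ R → T.Cp (A₂ v) v)) ∧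
    (∀ v ∈ C, ∀ v' ∈ R, near G v v' → ρ < T.lv v' → T.lv v' ≤ d → v' ∈ C) ∧
    ∀ v ∈ C, ∀ v' ∈ C, v ∈ R → v' ∈ R → near G v v' → T.Free A₁ v → T.Free A₁ v' → A₂ v' = A₂ v

/-- The armed states. -/
def Ar (ρ k₁ k₂ : ℕ) (c : Fin (k₁ + 1) ⊕ Fin (k₂ + 28 + 1) → V) (r : V) : Prop :=
  ρ < T.lv r ∧ In T (3 * (ρ + 1)) (fun i => c (.inl i)) ∧ In T (ρ + 1) (fun i => c (.inr i)) ∧
    (T.lv r ≤ 9 * (ρ + 1) → ∃ C A₁ A₂, r ∈ C ∧ Dt T ρ (9 * (ρ + 1)) k₁ k₂ C A₁ A₂ ∧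
      SQ T (3 * (ρ + 1)) A₁ (fun i => c (.inl i)) (T.lv r) ∧
      (T.lv r ≤ 3 * (ρ + 1) → T.Free A₁ r → SQ T (ρ + 1) (A₂ r) (fun i => c (.inr i)) (T.lv r)))

lemma armed {ρ k₁ k₂ : ℕ} (H : T.ZD ρ (9 * (ρ + 1)) k₁ k₂) :
    Armed G R (ball G R z (ρ + 1)) (Ar T ρ k₁ k₂) := by
  rintro c r ⟨h0, h1, h2, h3⟩ hr
  have lip : ∀ r' ∈ R, near G r r' → T.lv r ≤ T.lv r' + 1 ∧ T.lv r' ≤ T.lv r + 1 :=
    fun r' hr' e => ⟨T.lip r hr r' hr' e, T.lip r' hr' r hr (nsymm e)⟩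
  by_cases e1 : T.lv r ≤ 9 * (ρ + 1)
  swap
  · refine Or.inr ⟨fun e => ?_, c, fun _ => nrefl _, fun r' hr' e => ?_⟩
    · have := (T.mem_ball.1 e).2
      omega
    · have := lip r' hr' e
      refine ⟨by omega, h1, h2, fun e' => ?_⟩
      obtain ⟨C, A₁, A₂, a, b⟩ := H r' hr' (by omega) e'
      exact ⟨C, A₁, A₂, a, b, SQ.new h1 (b.2.1.trans (by omega)) (by omega), fun _ => by omega⟩
  obtain ⟨C, A₁, A₂, hC, D, s1, s2⟩ := h3 e1
  by_cases e2 : T.lv r ≤ 3 * (ρ + 1) ∧ ¬T.Free A₁ r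
  · exact Or.inl ((s1.rdy Sum.inl_injective (by omega) e2.1).cap D.1 e2.2 _)
  have fr : T.lv r ≤ 3 * (ρ + 1) → T.Free A₁ r := fun e => by_contra fun e' => e2 ⟨e, e'⟩
  by_cases e3 : T.lv r ≤ ρ + 1
  · refine Or.inl ((D.2.2.1 r hC).2.2 hr _ ?_ c
      ((s2 (by omega) (fr (by omega))).rdy Sum.inr_injective (by omega) e3))
    simp only [Fintype.card_sum, Fintype.card_fin]
    omega
  obtain ⟨c₁, m1, i1, t1⟩ := s1.step D.1 h1
  obtain ⟨c₂, m2, i2, t2⟩ : ∃ c₂ : Fin (k₂ + 28 + 1) → V, (∀ i, near G (c (.inr i)) (c₂ i)) ∧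
      In T (ρ + 1) c₂ ∧ ∀ r' ∈ R, near G r r' → r' ∈ C → T.Free A₁ r' →
        T.lv r' ≤ 3 * (ρ + 1) → SQ T (ρ + 1) (A₂ r') c₂ (T.lv r') := by
    by_cases e4 : T.lv r ≤ 3 * (ρ + 1)
    · obtain ⟨c₂, m2, i2, t2⟩ := (s2 e4 (fr e4)).step (D.2.2.1 r hC).1 h2
      refine ⟨c₂, m2, i2, fun r' hr' e hC' f' _ => ?_⟩
      rw [D.2.2.2.2 r hC r' hC' hr hr' e (fr e4) f']
      exact t2 _ (lip r' hr' e).1 (lip r' hr' e).2
    · refine ⟨_, fun _ => nrefl _, h2, fun r' hr' e hC' _ _ => ?_⟩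
      have := lip r' hr' e
      exact SQ.new h2 ((D.2.2.1 r' hC').2.1.trans (by omega)) (by omega)
  refine Or.inr ⟨fun e => e3 (T.mem_ball.1 e).2, Sum.elim c₁ c₂, ?_, fun r' hr' e => ?_⟩
  · rintro (i | i)
    exacts [m1 i, m2 i]
  · have := lip r' hr' e
    refine ⟨by omega, i1, i2, fun e' => ?_⟩
    have hC' := D.2.2.2.1 r hC r' hr' e (by omega) e'
    exact ⟨C, A₁, A₂, hC', D, t1 _ this.1 this.2, fun a b => t2 r' hr' e hC' b a⟩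

end ZoneG

variable {V : Type} [Fintype V] [DecidableEq V] {G : SimpleGraph V}

set_option linter.unusedVariables false in
theorem zoneGS (hG : G.Connected) : ZoneGS G := fun R z T ρ k₁ k₂ H => by
  refine ⟨Fin (k₁ + 1) ⊕ Fin (k₂ + 28 + 1), inferInstance, ZoneG.Ar T ρ k₁ k₂, fun _ => z, ?_,
    ZoneG.armed T H, fun r hr e => .done (Or.inr ?_)⟩
  · simp only [Fintype.card_sum, Fintype.card_fin]
    omega
  · have a : ¬T.lv r ≤ 9 * (ρ + 1) := fun b => e (T.mem_ball.2 ⟨hr, b⟩)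
    have b : ∀ d, T.lv z ≤ d := fun d => T.lv_root.le.trans d.zero_le
    exact ⟨by omega, fun _ => ⟨T.hz, b _⟩, fun _ => ⟨T.hz, b _⟩, fun x => (a x).elim⟩

end Pool.Agent.MP_de21d3_co.H6
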