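import Pool.Agent.MP_de21d3_co.H6.Main
import Pool.Agent.MP_de21d3_co.H6.Teams
import Pool.Agent.MP_de21d3_co.H6.Bring
import Pool.Agent.MP_de21d3_co.H6.ZoneG
import Pool.Agent.MP_de21d3_co.H6.Batch
import Pool.Agent.MP_de21d3_co.H6.Light
import Pool.Agent.MP_de21d3_co.H6.Net
import Pool.Agent.MP_de21d3_co.H6.Dec
import Pool.Agent.MP_de21d3_co.H6.Tree
import Pool.Agent.MP_de21d3_co.H6.Seal6
import Pool.Agent.MP_de21d3_co.H6.Psi
import Pool.Agent.MP_de21d3_co.H6.Cell
import Pool.Agent.MP_de21d3_co.H6.Kill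
import Pool.Agent.MP_de21d3_co.H6.Zd
import Pool.Agent.MP_de21d3_co.H6.Carve
import Pool.Agent.MP_de21d3_co.H6.Sub
import Pool.Agent.MP_de21d3_co.H6.SubD
import Pool.Agent.MP_de21d3_co.H6.Cx
import Pool.Agent.MP_de21d3_co.H6.Param

/-!
The cop number is sublinear in the Euler genus.
-/

set_option autoImplicit false

namespace Pool.Agent.MP_de21d3_co.H6

open H91

theorem sublinear (e : ℕ) (he : 0 < e) : ∃ C : ℕ, ∀ (V : Type) [Fintype V] [DecidableEq V]
    (G : SimpleGraph V), G.Connected → ∀ (σ : Scheme G) (g : ℕ),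
      Nat.card G.edgeSet + 2 ≤ Nat.card V + σ.faces + g → CopsWin G (g / e + C) := by
  refine top paramS e he (fun V _ _ G N W _ _ _ _ K hG => ?_)
    fun V _ _ G hG => ⟨subS, subDS hG, sparseS, simS hG (subDS hG), cxS⟩
  have d := decXS K decS
  have p := psiS K (lowS K hG decS (treeS K))
  have c := cellS K hG (bringS hG) (sealS K)
  exact ⟨teamsS hG, wallS hG, linS hG, zoneGS hG, lightS hG (batchS hG), netS hG, treeS K, d, p, c,
    zdS K (sealS K) d p c (monoS K (countS K) d), carveS K p (killS K (countS K) d (posS K))⟩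

end Pool.Agent.MP_de21d3_co.H6
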