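import Pool.Agent.MP_de21d3_co.H6.Base

/-!
Monotonicity of the complexity up to a factor; few walls make a set simple.
-/

set_option autoImplicit false
set_option linter.unusedSectionVars false

namespace Pool.Agent.MP_de21d3_co.H6

open Finset Function H91

variable {V : Type} [Fintype V] [DecidableEq V] {G : SimpleGraph V} {N W : Type} [Fintype N]
  [DecidableEq N] [Fintype W] [DecidableEq W] (K : Cx G N W)

namespace Kill

variable {K} {R : Finset V} {z : V} (T : Tr K R z)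

lemma key (hc : CountS K) {M : Finset N} {L : Finset (N × Fin 3)} {w : N → ℕ} {b : ℕ} {x : ℤ}
    (D : Dec K.sw M L w b x) {X : Finset W} (h : T.Ls X ⊆ L) :
    K.psi X ≤ (T.Ls X ∩ D.Cut).card := by
  have h1 : (T.Ls X \ D.Cut).card ≤ (K.nd X ×ˢ (univ : Finset Bool)).card := by
    refine card_le_card_of_injOn
      (fun e => if D.up e.1 = some e.2 then (e.1, true) else (K.sw e.2 e.1, false)) ?_ ?_
    · rintro ⟨p, i⟩ he
      have he := (mem_sdiff.1 (mem_coe.1 he)).1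
      dsimp only
      split_ifs
      · exact mem_coe.2 (mem_product.2 ⟨T.Ls_nd he, mem_univ _⟩)
      · exact mem_coe.2 (mem_product.2 ⟨T.Ls_nd (T.Ls_sw he), mem_univ _⟩)
    · rintro ⟨p, i⟩ he ⟨q, j⟩ hf e
      have he := mem_sdiff.1 (mem_coe.1 he)
      have hf := mem_sdiff.1 (mem_coe.1 hf)
      dsimp only at e
      split_ifs at e with a c c
      · obtain rfl : p = q := congrArg Prod.fst e
        rw [Option.some.inj (a.symm.trans c)]
      · exact absurd (congrArg Prod.snd e) (by simp)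
      · exact absurd (congrArg Prod.snd e) (by simp)
      · have e : K.sw i p = K.sw j q := congrArg Prod.fst e
        have a := (D.tree p i (h he.1) he.2).resolve_left a
        have c := (D.tree q j (h hf.1) hf.2).resolve_left c
        obtain rfl : i = j := Option.some.inj (a.symm.trans (e ▸ c))
        rw [(K.inv i).injective e]
  have h2 := (hc R z T X).1
  have h3 := card_sdiff_add_card_inter (T.Ls X) D.Cut
  rw [card_product, card_univ, Fintype.card_bool] at h1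
  omega

lemma cut (hd : DecXS K) {U : Finset W} (hU : K.Conn U) (hn : U.Nonempty) :
    ∃ D : Dec K.sw (K.nd U) (T.Ls U) (fun _ => 0) 2 (K.psi U + 4),
      (D.Cut.card : ℤ) ≤ 3 * (K.psi U + 4) := by
  obtain ⟨D⟩ := hd R z T U (fun _ => 0) 2 hU hn (fun _ => Nat.zero_le _) le_rfl
  have := D.cnt
  refine ⟨D, ?_⟩
  simp only [Nat.cast_zero, sum_const_zero, Nat.cast_ofNat] at this
  linarith

lemma one (hc : CountS K) (hd : DecXS K) {U : Finset W} (hU : K.Conn U) (hn : U.Nonempty)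
    (hp : 0 < K.psi U) : ∃ A ⊆ R, (A.card : ℤ) ≤ 30 * K.psi U ∧ ∀ X, T.Ls X ⊆ T.Ls U →
      (∀ e ∈ T.Ls X, ¬T.anch e ⊆ A) → K.psi X ≤ 0 := by
  obtain ⟨D, h⟩ := cut T hd hU hn
  refine ⟨D.Cut.biUnion T.anch, biUnion_subset.2 fun e _ => T.anch_sub e, ?_, fun X h1 h2 => ?_⟩
  · have := card_biUnion_le_card_mul D.Cut T.anch 2 fun e _ => T.card_anch e
    omega
  · have := key T hc D h1
    rwa [eq_empty_of_forall_notMem (s := T.Ls X ∩ D.Cut) fun e he =>
      h2 e (mem_inter.1 he).1 (subset_biUnion_of_mem T.anch (mem_inter.1 he).2), card_empty] at this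

end Kill

theorem monoS (hc : CountS K) (hd : DecXS K) : MonoS K := fun R z T U X hU hn h => by
  obtain ⟨D, h1⟩ := Kill.cut T hd hU hn
  have h2 := Kill.key T hc D h
  have h3 := card_le_card (inter_subset_right (s₁ := T.Ls X) (s₂ := D.Cut))
  omega

theorem killS (hc : CountS K) (hd : DecXS K) (hp : PosS K) : KillS K := fun R z T S => by
  classical
  obtain ⟨s, s1, s2, s3⟩ := hp S
  have h : ∀ U ∈ s, ∃ A ⊆ R, (A.card : ℤ) ≤ 30 * K.psi U ∧ ∀ X, T.Ls X ⊆ T.Ls U →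
      (∀ e ∈ T.Ls X, ¬T.anch e ⊆ A) → K.psi X ≤ 0 := fun U hU => by
    obtain ⟨a, ha, rfl, e⟩ := s2 U hU
    exact Kill.one T hc hd Cx.comp_conn ⟨a, Cx.self_mem_comp ha⟩ e
  choose! f f1 f2 f3 using h
  refine ⟨s.biUnion f, biUnion_subset.2 f1, ?_, fun B hB hn hS hf => ?_⟩
  · have h1 : ((s.biUnion f).card : ℤ) ≤ ∑ U ∈ s, ((f U).card : ℤ) := by
      exact_mod_cast card_biUnion_le
    have h2 := sum_le_sum f2
    rw [← mul_sum] at h2
    omega
  rcases B.eq_empty_or_nonempty with rfl | ⟨b, hb⟩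
  · exact ⟨∅, fun _ h => absurd h (notMem_empty _), by simp, empty_subset _, Cx.psi_empty.le⟩
  have hb' := mem_map_of_mem K.ι hb
  have h0 : B.map K.ι ⊆ K.comp S (K.ι b) :=
    (Cx.conn_map hn).sub hS Cx.comp_closed hb' (Cx.self_mem_comp (hS hb'))
  by_cases e : K.psi (K.comp S (K.ι b)) ≤ 0
  · exact ⟨_, Cx.comp_conn, h0, Cx.comp_sub, e⟩
  have hs := s3 _ (hS hb') (not_le.1 e)
  set U := K.comp S (K.ι b)
  set F := U.filter fun y => ¬T.Wl (s.biUnion f) y
  have h1 : B.map K.ι ⊆ F := fun y hy => mem_filter.2 ⟨h0 hy, by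
    obtain ⟨v, hv, rfl⟩ := mem_map.1 hy
    exact T.not_wl (hB hv) (hf v hv)⟩
  have h2 : K.comp F (K.ι b) ⊆ F := Cx.comp_sub
  refine ⟨K.comp F (K.ι b), Cx.comp_conn,
    (Cx.conn_map hn).sub h1 Cx.comp_closed hb' (Cx.self_mem_comp (h1 hb')),
    h2.trans ((filter_subset _ _).trans Cx.comp_sub), f3 U hs _ ?_ fun e he c => ?_⟩
  · rintro ⟨p, i⟩ he
    obtain ⟨⟨l, l1, l2⟩, c⟩ := T.mem_Ls.1 he
    refine T.mem_Ls.2 ⟨⟨l, l1, (mem_filter.1 (h2 l2)).1⟩, fun ⟨y, y1, y2, y3⟩ => c ⟨y, ?_, y2, y3⟩⟩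
    obtain ⟨y', a, -, j, k, -, -, -, a1, a2, a3⟩ :=
      Tr.Ts.ends T (X := {y}) ⟨y, mem_singleton_self _, y2, y3⟩
    obtain rfl := mem_singleton.1 a
    rcases a3 l l1 with rfl | rfl
    · exact a1 ▸ l2
    · exact Cx.comp_closed.2 _ l2 _
        (mem_filter.2 ⟨y1, fun w => (mem_filter.1 (h2 l2)).2 (a2 ▸ w.par)⟩) ⟨p, l, j, rfl, a1⟩
  · obtain ⟨l, l1, l2⟩ := (T.mem_Ls.1 he).1
    exact (mem_filter.1 (h2 l2)).2 (T.wl_of (c.trans (subset_biUnion_of_mem f hs)) l1)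

end Pool.Agent.MP_de21d3_co.H6
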