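import Pool.Agent.MP_de21d3_co.H6.Single

/-!
The recursion on the complexity.
-/

set_option autoImplicit false
set_option linter.unusedSectionVars false

namespace Pool.Agent.MP_de21d3_co.H6

open Finset Function H91

lemma window (f : ℕ → ℕ) (m S : ℕ) (hS : 0 < S) (h : f S ≤ m) :
    ∃ j < S, f (j + 1) ≤ f j + m / S := by
  by_contra! H
  have : ∀ j ≤ S, j * (m / S + 1) ≤ f j := fun j hj => by
    induction j with
    | zero => simp
    | succ j ih =>
      have := ih (by omega)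
      have := H j (by omega)
      rw [Nat.succ_mul]
      omega
  have := this S le_rfl
  have := Nat.lt_mul_div_succ m hS
  omega

/-- The radii of the windows. -/
def rad (r : ℕ) : ℕ → ℕ
  | 0 => r
  | j + 1 => 9 * (rad r j + 1)

lemma rad_le (r j : ℕ) : r ≤ rad r j ∧ rad r j + 2 ≤ 9 ^ j * (r + 2) := by
  induction j with
  | zero => simp [rad]
  | succ j ih =>
    rw [rad, pow_succ, mul_right_comm]
    omega

lemma div_le_of {a b m E : ℕ} (hE : 0 < E) (h : a * E ≤ b) : a * (m / b) ≤ m / E := by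
  rw [Nat.le_div_iff_mul_le hE]
  have := Nat.div_mul_le_self m b
  nlinarith [Nat.zero_le (m / b)]

variable {V : Type} [Fintype V] [DecidableEq V] {G : SimpleGraph V} {N W : Type} [Fintype N]
  [DecidableEq N] [Fintype W] [DecidableEq W] {K : Cx G N W}

lemma All.out (h : All K) {B C : Finset V} {Y : Finset W} {m : ℕ} (hY : K.Conn Y)
    (hm : K.psi Y + 4 ≤ m) (h4 : 4 ≤ m) (hB : Cn G B) (hB' : B.Nonempty) (hBY : B.map K.ι ⊆ Y)
    (hC : Cn G C) {x : V} (hx : x ∈ C) (hCY : C.map K.ι ⊆ Y) (hd : Disjoint C B) :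
    K.gv Y C + K.gv Y B ≤ m + 4 := by
  have a := h.psi Y Y B Subset.rfl hB hB' hBY
  have b := hY.Psi_le (n := m - 4) (by omega)
  have c : C.map K.ι ⊆ Y \ B.map K.ι := subset_sdiff.2 ⟨hCY, (disjoint_map _).2 hd⟩
  have d := Cx.psi_le_Psi (Cx.comp_closed (K := K) (S := Y \ B.map K.ι) (a := K.ι x))
  have := Cx.gv_le (Y := Y) (n := K.Psi (Y \ B.map K.ι) + 4) Cx.comp_conn
    ((Cx.conn_map hC).sub c Cx.comp_closed (mem_map_of_mem _ hx)
      (Cx.self_mem_comp (c (mem_map_of_mem _ hx)))) (Cx.comp_sub.trans sdiff_subset)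
    (by push_cast; omega)
  omega

theorem step (hp : ParamS) (E : ℕ) (hE : 0 < E) : ∃ C k₀ : ℕ, ∀ (V : Type) [Fintype V]
    [DecidableEq V] (G : SimpleGraph V) (N W : Type) [Fintype N] [DecidableEq N] [Fintype W]
    [DecidableEq W] (K : Cx G N W), G.Connected → All K → K.LS k₀ → ∀ m k', 24 ≤ m →
    K.Good (m / 2 + 2) k' → K.Good m (6 * (m / E) + C + k') := by
  obtain ⟨n, D, u, Kc, H, Θ, hn, hD, hu, hK, hK', hH, hH', hΘ, hΘ', hΘ''⟩ :=
    hp E (9 ^ (18 * E) * 2003) hE
  refine ⟨60 * (60 * E) + 400 + (20 * D * (40 * D * Kc) ^ (8 * u) + 30 +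
    6 * H * D * (60 * Θ + 586)), 2000 * n, fun V _ _ G N W _ _ _ _ K hG h hL m k' hm hk R Y hR hY
      hRY hψ => ?_⟩
  classical
  have bY : ∀ x r, (ball G R x r).map K.ι ⊆ Y := fun _ _ => (map_subset_map.2 ball_sub).trans hRY
  by_cases a : K.gv Y R ≤ m / 2 + 2
  · exact (hk.wn hY hRY hR a).mono (by omega) Subset.rfl
  rcases R.eq_empty_or_nonempty with rfl | ⟨x, hx⟩
  · exact wn_empty _
  have ex : ∃ r, ∃ y ∈ R, m / 2 + 2 < K.gv Y (ball G R y r) := by
    choose! f hf using hR x hx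
    refine ⟨R.sup f, x, hx, (not_le.1 a).trans_le (Cx.gv_mono hY (bY _ _) fun v hv =>
      mem_ball.2 ((hf v hv).le (le_sup hv)))⟩
  obtain ⟨y, hy, b⟩ := Nat.find_spec ex
  have c : ∀ r < Nat.find ex, ∀ x ∈ R, K.gv Y (ball G R x r) ≤ m / 2 + 2 := fun r hr x hx =>
    not_lt.1 fun e => Nat.find_min ex hr ⟨x, hx, e⟩
  generalize Nat.find ex = r at b c
  have d : 1000 * n < r := lt_of_not_ge fun e => by
    have := hL (ball G R y r) fun u hu v hv =>
      (((mem_ball.1 hu).symm.trans (mem_ball.1 hv)).dist hG).trans (by omega)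
    have := Cx.gv_le (n := 4) (Cx.conn_map cn_ball) Subset.rfl (bY y r) (by omega)
    omega
  have gm : ∀ x r, K.gv Y (ball G R x r) ≤ m := fun x r =>
    Cx.gv_le hY (bY _ _) Subset.rfl hψ
  obtain ⟨j, hj, e⟩ := window (fun j => K.gv Y (ball G R y (rad r j))) m (18 * E) (by omega)
    (gm _ _)
  obtain ⟨T⟩ := h.tree (ball G R y (rad r (j + 1))) y (self_mem_ball hy) cn_ball
  have t1 := Nat.mul_div_le (r - 1) (1000 * n)
  have t2 := Nat.lt_mul_div_succ (r - 1) (show 0 < 1000 * n by omega)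
  have t3 : 0 < (r - 1) / (1000 * n) := Nat.div_pos (by omega) (by omega)
  generalize (r - 1) / (1000 * n) = τ at t1 t2 t3
  have D0 : 0 < D := by omega
  have p4 : 4 ≤ Θ := by nlinarith [Nat.mul_pos (Nat.mul_pos hH D0) hE]
  have s := h.single T (u := u) (D := D) (hh := m / H) (M := m / Θ + 7) hY (bY _ _) hψ hk t3 hn
    (show 0 < 60 * E by omega) hK hΘ (Nat.le_add_left _ _)
    (by have := Nat.div_le_div_left (a := m) p4 (by norm_num); omega)
    (by
      have a1 := Nat.lt_mul_div_succ m hΘ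
      have a2 := Nat.mul_le_mul_left (m / Θ + 7) hΘ''
      have a3 : m / 2 + 2 ≤ m := by omega
      nlinarith [Nat.zero_le (m / Θ)])
    (fun v hv => by
      have a1 := (T.mem_ball.1 (mem_ball.2 ((mem_ball.1 hv).restrict Subset.rfl))).2
      have a2 := (rad_le r (j + 1)).2
      have a3 : 9 ^ (j + 1) ≤ 9 ^ (18 * E) := Nat.pow_le_pow_right (by norm_num) hj
      have a4 : r + 2 ≤ 2003 * n * τ := by
        have b1 := Nat.mul_pos hn t3
        have b2 := Nat.le_mul_of_pos_right n t3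
        have b3 : r ≤ 1000 * n * (τ + 1) := by omega
        nlinarith
      have a5 := Nat.mul_le_mul a3 a4
      have a6 := Nat.mul_le_mul_right τ hD
      nlinarith) hu
    fun x hx => (Cx.gv_mono hY (bY _ _) (ball_mono ball_sub le_rfl)).trans
      (c _ (by omega) x (ball_sub hx))
  have z := h.zone (β := 60 * E) (rad r j) hR hy hY hRY hψ (by omega) e
  refine (h.teams Unit univ (fun _ => _) (fun _ => _) (fun _ => _) _ R
    (R \ ball G R y (rad r j + 1)) (fun _ _ => z) (fun _ _ => s)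
    (fun v hv H => mem_sdiff.2 ⟨hv, H () (mem_univ _)⟩) sdiff_subset (fun _ _ => sdiff_disjoint)
    fun x hx => ?_).mono ?_ Subset.rfl
  · have a1 : (cmp G (R \ ball G R y (rad r j + 1)) x).map K.ι ⊆ Y :=
      (map_subset_map.2 (cmp_sub.trans sdiff_subset)).trans hRY
    have a2 := h.out hY hψ (by omega) cn_ball ⟨y, self_mem_ball hy⟩ (bY y (rad r j + 1)) cn_cmp
      (self_mem_cmp hx) a1 (sdiff_disjoint.mono_left cmp_sub)
    have a3 := Cx.gv_mono hY (bY y (rad r j + 1)) (ball_mono (n := r) Subset.rfl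
      (by have := (rad_le r j).1; omega))
    exact (hk.wn hY a1 cn_cmp (by omega)).mono
      ((Nat.le_add_left _ _).trans (Nat.le_add_left _ _)) Subset.rfl
  · have a1 : 18 * (m / (18 * E)) ≤ m / E := div_le_of hE le_rfl
    have a2 : 60 * m / (60 * E) = m / E := Nat.mul_div_mul_left _ _ (by norm_num)
    have a3 : 8 * u * (6 * m * D / Kc) ≤ m / E := by
      rw [Nat.le_div_iff_mul_le hE]
      refine Nat.le_of_mul_le_mul_left ?_ (show 0 < 6 * D by omega)
      have := Nat.mul_div_le (6 * m * D) Kc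
      have := Nat.mul_le_mul_right (6 * m * D / Kc) hK'
      nlinarith
    have a4 : 20 * D * (40 * D * Kc) ^ (8 * u) * (m / H) ≤ m / E := div_le_of hE hH'
    have a5 : 6 * m * D / (m / H + 1) ≤ 6 * H * D := by
      refine Nat.div_le_of_le_mul ?_
      have := Nat.lt_mul_div_succ m hH
      nlinarith
    have a6 : 60 * m / Θ ≤ 60 * (m / Θ) + 60 := by
      refine Nat.div_le_of_le_mul ?_
      have := Nat.lt_mul_div_succ m hΘ
      nlinarith
    have a7 : 468 * H * D * (m / Θ) ≤ m / E := div_le_of hE hΘ'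
    have a8 := Nat.mul_le_mul a5 (show 18 * (m / Θ + 7) + 60 * m / Θ + 60 * Θ + 400 ≤
      78 * (m / Θ) + (60 * Θ + 586) by omega)
    simp only [univ_unique, sum_singleton]
    nlinarith

theorem recur (hp : ParamS) (e : ℕ) (he : 0 < e) : ∃ C k₀ : ℕ, ∀ (V : Type) [Fintype V]
    [DecidableEq V] (G : SimpleGraph V) (N W : Type) [Fintype N] [DecidableEq N] [Fintype W]
    [DecidableEq W] (K : Cx G N W), G.Connected → All K → K.LS k₀ → ∀ m,
    K.Good m (m / e + C) := by
  obtain ⟨C, k₀, h⟩ := step hp (24 * e) (by omega)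
  refine ⟨6 * (24 * e * (C + 3)) + 30, k₀, fun V _ _ G N W _ _ _ _ K hG hA hL m => ?_⟩
  induction m using Nat.strong_induction_on with
  | _ m ih =>
  by_cases a : m ≤ 24 * e * (C + 3)
  · exact fun R Y a b c d => (hA.base m R Y a b c d).mono
      (le_trans (by omega) (Nat.le_add_left _ _)) Subset.rfl
  have b : 72 ≤ 24 * e * (C + 3) := by nlinarith
  refine fun R Y x y z w => (h V G N W K hG hA hL m _ (by omega) (ih _ (by omega)) R Y x y z w).mono
    ?_ Subset.rfl
  have c : m / (24 * e) = m / e / 24 := by rw [Nat.div_div_eq_div_mul, mul_comm]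
  have d : 24 * (C + 3) ≤ m / e := (Nat.le_div_iff_mul_le he).2 (by nlinarith)
  have f : (m / 2 + 2) / e ≤ m / e / 2 + 2 := by
    rw [Nat.div_div_eq_div_mul, mul_comm, ← Nat.div_div_eq_div_mul, ← Nat.add_mul_div_right _ _ he]
    exact Nat.div_le_div_right (by omega)
  omega

theorem top (hp : ParamS) (e : ℕ) (he : 0 < e)
    (hA : ∀ (V : Type) [Fintype V] [DecidableEq V] (G : SimpleGraph V) (N W : Type) [Fintype N]
      [DecidableEq N] [Fintype W] [DecidableEq W] (K : Cx G N W), G.Connected → All K)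
    (hS : ∀ (V : Type) [Fintype V] [DecidableEq V] (G : SimpleGraph V), G.Connected →
      SubS G ∧ SubDS G ∧ SparseS G ∧ SimS G ∧ CxS G) :
    ∃ C : ℕ, ∀ (V : Type) [Fintype V] [DecidableEq V] (G : SimpleGraph V), G.Connected →
      ∀ (σ : Scheme G) (g : ℕ), Nat.card G.edgeSet + 2 ≤ Nat.card V + σ.faces + g →
        CopsWin G (g / e + C) := by
  obtain ⟨C, k₀, h⟩ := recur hp (2 * e) (by omega)
  refine ⟨C + 1, fun V _ _ G hG σ g hg => ?_⟩
  by_cases a : ∀ u, ∃ v, G.Adj u v
  · obtain ⟨h1, h2, h3, h4, h5⟩ := hS V G hG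
    obtain ⟨V', _, _, G', ⟨S⟩⟩ := h1 (2 * (k₀ + 2)) (by omega)
    obtain ⟨b, -, -, c⟩ := h2 V' G' _ S (by omega)
    obtain ⟨N, W, _, _, _, _, K, d, f⟩ := h5 σ g V' G' _ S (by omega) b a hg
    refine h4 V' G' _ _ S (by omega) ((h V' G' N W K b (hA V' G' N W K b) (fun B hB => ?_) (2 * g)
      univ univ (fun u _ v _ => ?_) Cx.conn_univ (subset_univ _) (by exact_mod_cast d)).mono ?_
      Subset.rfl)
    · have := f B
      have := h3 V' G' _ S B fun x y hx hy => c x y ((hB _ hx _ hy).trans_lt (by omega))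
      omega
    · obtain ⟨w⟩ := b.preconnected u v
      induction w with
      | nil => exact ⟨0, .zero (mem_univ _)⟩
      | cons x _ ih =>
        exact (ih (mem_univ _) (mem_univ _)).elim fun _ i =>
          ⟨_, (Rch.one (mem_univ _) (Or.inr x) (mem_univ _)).trans i⟩
    · rw [Nat.mul_div_mul_left _ _ (by norm_num)]
      omega
  · push Not at a
    obtain ⟨u, hu⟩ := a
    refine copsWin_of (fun _ => u) fun r => win_step (fun _ => nrefl _) (Or.inl ⟨⟨0, Nat.succ_pos _⟩, ?_⟩)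
    obtain ⟨w⟩ := hG.preconnected u r
    cases w with
    | nil => rfl
    | cons x _ => exact absurd x (hu _)

end Pool.Agent.MP_de21d3_co.H6
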