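import Pool.Agent.MP_de21d3_co.H6.Base

/-!
One scale: a region of bounded radius whose small balls are simple.
-/

set_option autoImplicit false
set_option linter.unusedSectionVars false

namespace Pool.Agent.MP_de21d3_co.H6

open Finset Function H91

variable {V : Type} [Fintype V] [DecidableEq V] {G : SimpleGraph V} {N W : Type} [Fintype N]
  [DecidableEq N] [Fintype W] [DecidableEq W] {K : Cx G N W}

/-- The statements used by the assembly. -/
structure All (K : Cx G N W) : Prop where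
  teams : TeamsS G
  wall : WallS G
  lin : LinS G
  zoneG : ZoneGS G
  light : LightS G
  net : NetS G
  tree : TreeS K
  decX : DecXS K
  psi : PsiS K
  cell : CellS K
  zd : ZdS K
  carve : CarveS K

lemma wn_empty (k : ℕ) : Wn G k ∅ := fun _ _ _ _ _ => Fc.done (notMem_empty _)

lemma All.zone (h : All K) {R : Finset V} {z : V} {Y : Finset W} {m a β : ℕ} (ρ : ℕ) (hR : Cn G R)
    (hz : z ∈ R) (hY : K.Conn Y) (hRY : R.map K.ι ⊆ Y) (hm : K.psi Y + 4 ≤ m) (hβ : 0 < β)
    (ha : K.gv Y (ball G R z (9 * (ρ + 1))) ≤ K.gv Y (ball G R z ρ) + a) :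
    St G (18 * a + 60 * m / β + 60 * β + 400) R (ball G R z (9 * (ρ + 1))) (ball G R z (ρ + 1)) := by
  obtain ⟨T⟩ := h.tree R z hz hR
  exact (h.zoneG R z T.toBf ρ _ _ (h.zd R z T Y m ρ _ a β hY hRY hm hβ (by omega) ha)).mono
    (by omega) Subset.rfl (fun _ _ h => h) fun _ _ h => h

lemma All.cells (h : All K) {R : Finset V} {z : V} (T : Tr K R z) {Y : Finset W} {m : ℕ}
    (hY : K.Conn Y) (hRY : R.map K.ι ⊆ Y) (hm : K.psi Y + 4 ≤ m) :
    Nonempty (Cells T.toBf N (6 * m)) := by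
  obtain ⟨D⟩ := h.decX R z T Y (fun _ => 0) 2 hY ⟨_, hRY (mem_map_of_mem _ T.hz)⟩
    (fun _ => by omega) le_rfl
  exact ⟨(h.cell R z T Y m hRY hm D).choose⟩

lemma All.base (h : All K) (m : ℕ) : K.Good m (6 * m + 30) := fun R Y hR hY hRY hm => by
  rcases R.eq_empty_or_nonempty with rfl | ⟨z, hz⟩
  · exact wn_empty _
  obtain ⟨T⟩ := h.tree R z hz hR
  obtain ⟨C⟩ := h.cells T hY hRY hm
  exact h.lin R z T.toBf N _ C

lemma All.single (h : All K) {R : Finset V} {y : V} (T : Tr K R y) {Y : Finset W}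
    {m μ k' τ n e D u Kc hh M β : ℕ} (hY : K.Conn Y) (hRY : R.map K.ι ⊆ Y)
    (hm : K.psi Y + 4 ≤ m) (hk : K.Good μ k') (hτ : 0 < τ) (hn : 0 < n) (he : 0 < e)
    (hK : 0 < Kc) (hβ : 0 < β) (hM : 7 ≤ M) (hMμ : M ≤ μ) (hμ : μ ≤ M * 2 ^ (n / e))
    (hD : ∀ v ∈ R, T.lv v + 2 * τ ≤ D * τ) (hu : D ≤ 2 ^ u)
    (hb : ∀ x ∈ R, K.gv Y (ball G R x (1000 * n * τ)) ≤ μ) :
    Wn G (60 * m / e + (8 * u * (6 * m * D / Kc) + 20 * D * (hh + 1) * (40 * D * Kc) ^ (8 * u) + 30
      + 6 * m * D / (hh + 1) * (18 * M + 60 * m / β + 60 * β + 400) + k')) R := by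
  classical
  obtain ⟨A, hA, cA, hc⟩ := h.carve R y T Y (9 * (35 * τ + 1)) n e M μ hY hRY hM he hμ
    fun x hx => (Cx.gv_mono hY ((map_subset_map.2 ball_sub).trans hRY)
      (ball_mono Subset.rfl (by nlinarith))).trans (hb x hx)
  have cA' : A.card ≤ 60 * m / e := by
    have := hY.Psi_le (n := m) (by omega)
    exact (Nat.le_div_iff_mul_le he).2 (by nlinarith)
  refine (h.teams V A (fun _ => 1) (fun _ => ∅) (fun a => T.walls {a}) _ R (R.filter (T.Free A))
    (fun a ha => h.wall R y T.toBf a (hA ha)) (fun _ _ => wn_empty _)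
    (fun v hv H => mem_filter.2 ⟨hv, fun a ha => by_contra fun e =>
      H a ha (T.mem_walls.2 ⟨hv, fun f => e (f a (mem_singleton_self a))⟩)⟩) (filter_subset _ _)
    (fun a ha => disjoint_left.2 fun v hv hv' =>
      (T.mem_walls.1 hv').2 ((mem_filter.1 hv).2.mono (singleton_subset_iff.2 ha)))
    fun r _ => ?_).mono (Nat.add_le_add_right (by simpa using cA') _) Subset.rfl
  generalize hS : cmp G (R.filter (T.Free A)) r = S
  have S1 : S ⊆ R.filter (T.Free A) := hS ▸ cmp_sub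
  have S2 : S ⊆ R := S1.trans (filter_subset _ _)
  have S3 : Cn G S := hS ▸ cn_cmp
  have S4 : S.map K.ι ⊆ Y := (map_subset_map.2 S2).trans hRY
  have S5 : ∀ v ∈ R, T.P v ∈ S → v ∈ S := fun v hv hp => hS ▸ cmp_closed (hS ▸ hp)
    (nsymm (T.nr v hv)) (mem_filter.2 ⟨hv, fun a ha t e => by
      obtain ⟨s, hs⟩ := T.P_wl (hA ha) t
      exact (mem_filter.1 (S1 hp)).2 a ha s (e ▸ hs)⟩)
  obtain ⟨C⟩ := h.cells T hY hRY hm
  have hl := h.light R y T.toBf N _ C S τ D Kc (8 * u) hh (fun i => τ * ((8 + i % 8) * 2 ^ (i / 8)))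
    S2 hτ hK hD (by
      simp only [Nat.mul_mod_right, Nat.mul_div_cancel_left u (by norm_num : 0 < 8)]
      nlinarith) fun i _ => by
      have a : (8 + (i + 1) % 8) * 2 ^ ((i + 1) / 8) = (8 + i % 8) * 2 ^ (i / 8) + 2 ^ (i / 8) := by
        by_cases b : i % 8 = 7
        · rw [show (i + 1) % 8 = 0 by omega, show (i + 1) / 8 = i / 8 + 1 by omega, b, pow_succ]
          ring
        · rw [show (i + 1) % 8 = i % 8 + 1 by omega, show (i + 1) / 8 = i / 8 by omega]
          ring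
      have b : 1 ≤ 2 ^ (i / 8) := Nat.one_le_two_pow
      simp only [a]
      generalize 2 ^ (i / 8) = x at *
      generalize i % 8 = j
      obtain ⟨x, rfl⟩ := Nat.exists_eq_add_of_le b
      constructor <;> nlinarith [Nat.zero_le (τ * x), Nat.zero_le (τ * j), Nat.zero_le (τ * j * x)]
  simp only [Nat.zero_mod, Nat.zero_div, pow_zero, show 2 * (τ * ((8 + 0) * 1)) + τ = 17 * τ by ring]
    at hl
  obtain ⟨Z, hZ, sZ, cZ, nZ⟩ := h.net R y T.toBf N _ C S τ D (17 * τ) hh
    (fun x => K.gv Y (ball G S x (9 * (35 * τ + 1))) ≤ M) S2 S5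
  have bY : ∀ x r, (ball G S x r).map K.ι ⊆ Y := fun _ _ => (map_subset_map.2 ball_sub).trans S4
  let Zf : Option V → Finset V := fun j => j.elim (C.light D τ S (17 * τ) hh)
    fun z => ball G S z (35 * τ + 1)
  refine (h.teams (Option V) (insertNone Z) (fun j => j.elim
      (8 * u * (6 * m * D / Kc) + 20 * D * (hh + 1) * (40 * D * Kc) ^ (8 * u) + 30)
      fun _ => 18 * M + 60 * m / β + 60 * β + 400)
    (fun j => j.elim ∅ fun z => ball G S z (9 * (35 * τ + 1))) Zf k' S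
    (S.filter fun v => ∀ j ∈ insertNone Z, v ∉ Zf j) ?_ ?_
    (fun v hv H => mem_filter.2 ⟨hv, H⟩) (filter_subset _ _)
    (fun j hj => disjoint_left.2 fun v hv => (mem_filter.1 hv).2 j hj) fun x _ => ?_).mono ?_
    Subset.rfl
  · rintro (_ | z) hz
    · exact hl
    · have hz' := some_mem_insertNone.1 hz
      exact h.zone _ S3 (hZ hz') hY S4 hm hβ ((sZ z hz').trans (by omega))
  · rintro (_ | z) hz
    · exact wn_empty _
    · exact hk.wn hY (bY _ _) cn_ball ((sZ z (some_mem_insertNone.1 hz)).trans hMμ)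
  · have a := (cmp_sub (G := G) (x := x)).trans
      (filter_subset (fun v => ∀ j ∈ insertNone Z, v ∉ Zf j) S)
    refine hk.wn hY ((map_subset_map.2 a).trans S4) cn_cmp (hc S S2
      (fun v hv => (mem_filter.1 (S1 hv)).2) _ a cn_cmp fun v hv => lt_of_not_ge fun e => ?_)
    have b := (mem_filter.1 (cmp_sub hv)).2
    obtain ⟨z, hz, f⟩ := nZ v (a hv) e (b none none_mem_insertNone)
    exact b (some z) (some_mem_insertNone.2 hz) (ball_mono Subset.rfl (by omega) f)
  · rw [sum_insertNone]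
    simp only [Option.elim, sum_const, smul_eq_mul]
    have := (Nat.le_div_iff_mul_le (Nat.succ_pos hh)).2 cZ
    gcongr

end Pool.Agent.MP_de21d3_co.H6
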