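import Pool.Agent.MP_de21d3_co.H60.Seal

/-!
Definitions and statements for the sublinear bound on the cop number.
-/

set_option autoImplicit false

namespace Pool.Agent.MP_de21d3_co.H6

open Finset Function H91

section Game

variable {V : Type} (G : SimpleGraph V)

/-- The cops, to move, force a capture or a state in `Q`. -/
inductive Fc {ι : Type} (Q : (ι → V) → V → Prop) : (ι → V) → V → Prop
  | done {c : ι → V} {r : V} : Q c r → Fc Q c r
  | cap {c : ι → V} {r : V} (i : ι) : near G (c i) r → Fc Q c r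
  | step {c : ι → V} {r : V} (c' : ι → V) : (∀ i, near G (c i) (c' i)) →
      (∀ r', near G r r' → Fc Q c' r') → Fc Q c r

/-- The cops force a capture or drive the robber out of `R`. -/
def Ex {ι : Type} (R : Finset V) (c : ι → V) (r : V) : Prop := Fc G (fun _ r => r ∉ R) c r

/-- `k` cops clear `R` from any position. -/
def Wn (k : ℕ) (R : Finset V) : Prop :=
  ∀ (ι : Type) [Fintype ι], k ≤ Fintype.card ι → ∀ (c : ι → V) (r : V), Ex G R c r

/-- In the states `A` the cops forbid `Z` to a robber who stays in `R`. -/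
def Armed {ι : Type} (R Z : Finset V) (A : (ι → V) → V → Prop) : Prop :=
  ∀ c r, A c r → r ∈ R → Ex G R c r ∨
    (r ∉ Z ∧ ∃ c' : ι → V, (∀ i, near G (c i) (c' i)) ∧ ∀ r' ∈ R, near G r r' → A c' r')

/-- A team of `k` cops that forbids `Z` once the robber is outside `B`. -/
def St (k : ℕ) (R B Z : Finset V) : Prop :=
  ∃ (ι : Type) (_ : Fintype ι) (A : (ι → V) → V → Prop) (c₀ : ι → V), Fintype.card ι ≤ k ∧
    Armed G R Z A ∧ ∀ r ∈ R, r ∉ B → Fc G (fun c r => r ∉ R ∨ A c r) c₀ r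

/-- Reachable from `x` inside `R` in `n` legal moves. -/
inductive Rch (R : Finset V) (x : V) : ℕ → V → Prop
  | zero : x ∈ R → Rch R x 0 x
  | succ {n : ℕ} {u v : V} : Rch R x n u → near G u v → v ∈ R → Rch R x (n + 1) v

open Classical in
/-- The ball of radius `n` inside `R`. -/
noncomputable def ball (R : Finset V) (x : V) (n : ℕ) : Finset V := R.filter (Rch G R x n)

/-- Connected sets of vertices. -/
def Cn (R : Finset V) : Prop := ∀ u ∈ R, ∀ v ∈ R, ∃ n, Rch G R u n v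

open Classical in
/-- The component of `x` in `S`. -/
noncomputable def cmp (S : Finset V) (x : V) : Finset V := S.filter fun v => ∃ n, Rch G S x n v

/-- A breadth-first tree of `R` with root `z`. -/
structure Bf (R : Finset V) (z : V) where
  P : V → V
  lv : V → ℕ
  hz : z ∈ R
  mem : ∀ v ∈ R, P v ∈ R
  nr : ∀ v ∈ R, near G v (P v)
  dp : ∀ v ∈ R, lv (P v) = lv v - 1
  rt : ∀ v ∈ R, lv v = 0 ↔ v = z
  lip : ∀ u ∈ R, ∀ v ∈ R, near G u v → lv u ≤ lv v + 1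

variable {G} {R : Finset V} {z : V}

/-- The vertex at level `t` of the tree path (wall) from `a` to the root. -/
def Bf.wl (T : Bf G R z) (a : V) (t : ℕ) : V := T.P^[T.lv a - t] a

/-- `v` lies on no wall of `X`. -/
def Bf.Free (T : Bf G R z) (X : Finset V) (v : V) : Prop := ∀ a ∈ X, ∀ t, T.wl a t ≠ v

/-- `x` is on the wall of `a` within one of level `l`. -/
def Bf.Sync (T : Bf G R z) (a x : V) (l : ℕ) : Prop := ∃ t, x = T.wl a t ∧ t ≤ l + 1 ∧ l ≤ t + 1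

/-- Each wall of `X` has its own cop near the level of the robber. -/
def Bf.Rdy (T : Bf G R z) {ι : Type} (X : Finset V) (c : ι → V) (r : V) : Prop :=
  ∃ f : V → ι, Set.InjOn f X ∧ ∀ a ∈ X, T.Sync a (c (f a)) (T.lv r)

/-- Thirty cops that are ready on `A` clear `R` when the robber is at `v`. -/
def Bf.Cp (T : Bf G R z) (A : Finset V) (v : V) : Prop :=
  ∀ (ι : Type) [Fintype ι], 30 ≤ Fintype.card ι → ∀ c : ι → V, T.Rdy A c v → Ex G R c v

open Classical in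
/-- The walls of `X`. -/
noncomputable def Bf.walls (T : Bf G R z) (X : Finset V) : Finset V :=
  R.filter fun v => ¬T.Free X v

/-- Cells bounded by walls. -/
structure Cells (T : Bf G R z) (Λ : Type) [Fintype Λ] (n : ℕ) where
  X : Λ → Finset V
  cl : V → Λ
  sub : ∀ Δ, X Δ ⊆ R
  le : ∀ Δ, (X Δ).card ≤ 20
  sum : ∑ Δ, (X Δ).card ≤ n
  mv : ∀ v ∈ R, ∀ v' ∈ R, near G v v' → T.Free (X (cl v)) v → T.Free (X (cl v)) v' → cl v' = cl v
  cap : ∀ v ∈ R, T.Cp (X (cl v)) v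

/-- The data of a zone: the levels in `(ρ, d]`. -/
def Bf.ZD (T : Bf G R z) (ρ d k₁ k₂ : ℕ) : Prop :=
  ∀ r ∈ R, ρ < T.lv r → T.lv r ≤ d → ∃ (C A₁ : Finset V) (A₂ : V → Finset V), r ∈ C ∧
    A₁ ⊆ R ∧ A₁.card ≤ k₁ ∧ (∀ v ∈ C, A₂ v ⊆ R ∧ (A₂ v).card ≤ k₂ ∧ (v ∈ R → T.Cp (A₂ v) v)) ∧
    (∀ v ∈ C, ∀ v' ∈ R, near G v v' → ρ < T.lv v' → T.lv v' ≤ d → v' ∈ C) ∧
    ∀ v ∈ C, ∀ v' ∈ C, v ∈ R → v' ∈ R → near G v v' → T.Free A₁ v → T.Free A₁ v' → A₂ v' = A₂ v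

variable {T : Bf G R z} {Λ : Type} [Fintype Λ] {n : ℕ}

open Classical in
/-- The pieces `(Δ, a, j)` of the walls. -/
noncomputable def Cells.pcs [Fintype V] (C : Cells T Λ n) (D : ℕ) : Finset (Λ × V × ℕ) :=
  (univ ×ˢ univ ×ˢ range D).filter fun p => p.2.1 ∈ C.X p.1

open Classical in
/-- The pieces of length `τ` that meet `B`. -/
noncomputable def Cells.tch [Fintype V] (C : Cells T Λ n) (D τ : ℕ) (B : Finset V) :
    Finset (Λ × V × ℕ) :=
  (C.pcs D).filter fun p => ∃ t, p.2.2 * τ ≤ t ∧ t < (p.2.2 + 1) * τ ∧ T.wl p.2.1 t ∈ B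

open Classical in
/-- The points of `S` near at most `h` pieces. -/
noncomputable def Cells.light [Fintype V] (C : Cells T Λ n) (D τ : ℕ) (S : Finset V) (r h : ℕ) :
    Finset V := S.filter fun x => (C.tch D τ (ball G S x r)).card ≤ h

end Game

section Complex

variable {V : Type} (G : SimpleGraph V)

/-- A triangulated closed surface with three-coloured vertices `W` and triangles `N` that
contains the graph `G`. The side `(p, i)` of `p` is opposite to its corner `i`. -/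
structure Cx (N W : Type) where
  c : N → Fin 3 → W
  sw : Fin 3 → N → N
  inv : ∀ i, Involutive (sw i)
  ne : ∀ i p, sw i p ≠ p
  cs : ∀ i j p, j ≠ i → c (sw i p) j = c p j
  ty : ∀ p q i j, c p i = c q j → i = j
  link : ∀ p q j, c p j = c q j →
    Relation.ReflTransGen (fun x y => ∃ i, i ≠ j ∧ y = sw i x) p q
  ι : V ↪ W
  edge : ∀ u v, G.Adj u v → ∃ p i j, c p i = ι u ∧ c p j = ι v
  occ : ∀ y, ∃ p i, c p i = y
  conn : ∀ x y, Relation.ReflTransGen (fun a b => ∃ p i j, c p i = a ∧ c p j = b) x y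

variable {G} {N W : Type} (K : Cx G N W)

/-- Two corners of one triangle. -/
def Cx.adj (a b : W) : Prop := ∃ p i j, K.c p i = a ∧ K.c p j = b

/-- Connected sets of corners. -/
def Cx.Conn (X : Finset W) : Prop :=
  ∀ a ∈ X, ∀ b ∈ X, Relation.ReflTransGen (fun x y => x ∈ X ∧ y ∈ X ∧ K.adj x y) a b

/-- `U` is a union of components of `S`. -/
def Cx.Closed (S U : Finset W) : Prop := U ⊆ S ∧ ∀ x ∈ U, ∀ y ∈ S, K.adj x y → y ∈ U

open Classical in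
/-- The component of `a` in `S`. -/
noncomputable def Cx.comp (S : Finset W) (a : W) : Finset W :=
  S.filter fun b => a ∈ S ∧ Relation.ReflTransGen (fun x y => x ∈ S ∧ y ∈ S ∧ K.adj x y) a b

/-- A triangle at `y`. -/
noncomputable def Cx.nodeAt (y : W) : N := (K.occ y).choose

/-- The side `e` has an end in `X`. -/
def Cx.Tch (X : Finset W) (e : N × Fin 3) : Prop := ∃ j, j ≠ e.2 ∧ K.c e.1 j ∈ X

variable [Fintype N]

open Classical in
/-- The triangles that meet `X`. -/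
noncomputable def Cx.nd (X : Finset W) : Finset N := univ.filter fun p => ∃ j, K.c p j ∈ X

open Classical in
/-- Minus twice the Euler characteristic of the subcomplex induced on `X`. -/
noncomputable def Cx.psi (X : Finset W) : ℤ :=
  (univ.filter fun p => ∃ i j, i ≠ j ∧ K.c p i ∈ X ∧ K.c p j ∈ X).card - 2 * (X.card : ℤ)

open Classical in
/-- The largest `psi` of a union of components. -/
noncomputable def Cx.Psi (S : Finset W) : ℕ :=
  (S.powerset.filter (K.Closed S)).sup fun U => (K.psi U).toNat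

/-- The least `psi + 4` of a connected set between `B` and `Y`. -/
noncomputable def Cx.gv (Y : Finset W) (B : Finset V) : ℕ :=
  sInf {n : ℕ | ∃ U, K.Conn U ∧ B.map K.ι ⊆ U ∧ U ⊆ Y ∧ K.psi U + 4 ≤ n}

/-- Small sets are simple. -/
def Cx.LS (k : ℕ) : Prop :=
  ∀ B : Finset V, (∀ u ∈ B, ∀ v ∈ B, G.dist u v ≤ k) → K.psi (B.map K.ι) ≤ 0

/-- `k` cops clear every connected set of complexity at most `m`. -/
def Cx.Good (m k : ℕ) : Prop := ∀ (R : Finset V) (Y : Finset W), Cn G R → K.Conn Y →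
  R.map K.ι ⊆ Y → K.psi Y + 4 ≤ m → Wn G k R

/-- A spanning tree of the complex that extends a breadth-first tree of `R`. -/
structure Tr (R : Finset V) (z : V) extends Bf G R z where
  par : W → W
  dep : W → ℕ
  sd : W → N × Fin 3
  an : W → V
  pι : ∀ v ∈ R, par (K.ι v) = K.ι (P v)
  lt : ∀ y, y ≠ K.ι z → dep (par y) < dep y
  ends : ∀ y, y ≠ K.ι z → ∃ j k, j ≠ (sd y).2 ∧ k ≠ (sd y).2 ∧ K.c (sd y).1 j = y ∧
    K.c (sd y).1 k = par y
  anm : ∀ y, an y ∈ R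
  anw : ∀ y n, ∀ v ∈ R, par^[n] y = K.ι v → ∃ t, toBf.wl (an y) t = v

variable {K} {R : Finset V} {z : V} (T : Tr K R z)

/-- The side `e` is the tree side of a vertex of `X`. -/
def Tr.Ts (X : Finset W) (e : N × Fin 3) : Prop :=
  ∃ y ∈ X, y ≠ K.ι z ∧ (e = T.sd y ∨ e = (K.sw (T.sd y).2 (T.sd y).1, (T.sd y).2))

open Classical in
/-- The sides that touch `X` and are not tree sides of its vertices. -/
noncomputable def Tr.Ls (X : Finset W) : Finset (N × Fin 3) :=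
  univ.filter fun e => K.Tch X e ∧ ¬T.Ts X e

/-- The anchors of the two ends of a side. -/
def Tr.anch [DecidableEq V] (e : N × Fin 3) : Finset V :=
  (univ.filter fun j => j ≠ e.2).image fun j => T.an (K.c e.1 j)

/-- A decomposition of the graph with vertices `M` and half-edges `L` into small subtrees. -/
structure Dec [DecidableEq N] (sw : Fin 3 → N → N) (M : Finset N) (L : Finset (N × Fin 3))
    (w : N → ℕ) (b : ℕ) (x : ℤ) where
  top : N → N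
  up : N → Option (Fin 3)
  dp : N → ℕ
  Cut : Finset (N × Fin 3)
  sub : Cut ⊆ L
  sym : ∀ p i, (p, i) ∈ Cut → (sw i p, i) ∈ Cut
  lab : ∀ p i, (p, i) ∈ L → (p, i) ∉ Cut → top (sw i p) = top p
  tree : ∀ p i, (p, i) ∈ L → (p, i) ∉ Cut → up p = some i ∨ up (sw i p) = some i
  upL : ∀ p i, up p = some i → (p, i) ∈ L ∧ (p, i) ∉ Cut ∧ dp (sw i p) < dp p
  root : ∀ p ∈ M, up p = none → top p = p
  cnt : ((b : ℤ) - 1) * Cut.card ≤ (b + 1) * x + 2 * ∑ p ∈ M, (w p : ℤ)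
  cls : ∀ t, ∑ p ∈ M with top p = t, w p + (Cut.filter fun e => top e.1 = t).card ≤ 3 * b + 4

/-- The anchors of a class. -/
def Tr.cX [DecidableEq V] [DecidableEq N] {M : Finset N} {L : Finset (N × Fin 3)} {w : N → ℕ}
    {b : ℕ} {x : ℤ} (D : Dec K.sw M L w b x) (Δ : N) : Finset V :=
  (D.Cut.filter fun e => D.top e.1 = Δ).biUnion T.anch

end Complex

/-- `G'` is the graph `G` with each edge replaced by a path of length `L`. -/
structure Sub {V V' : Type} (G : SimpleGraph V) (L : ℕ) (G' : SimpleGraph V') where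
  o : V → V'
  pt : V → V → ℕ → V'
  zero : ∀ u v, G.Adj u v → pt u v 0 = o u
  rev : ∀ u v s, G.Adj u v → s ≤ L → pt v u (L - s) = pt u v s
  adj : ∀ x y, G'.Adj x y ↔ ∃ u v s, G.Adj u v ∧ s < L ∧ x = pt u v s ∧ y = pt u v (s + 1)
  oinj : Injective o
  one : ∀ u v s w, G.Adj u v → 0 < s → s < L → pt u v s ≠ o w
  inj : ∀ u v s u' v' s', G.Adj u v → G.Adj u' v' → 0 < s → s < L → s' ≤ L →
    pt u v s = pt u' v' s' → (u' = u ∧ v' = v ∧ s' = s) ∨ (u' = v ∧ v' = u ∧ s' + s = L)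
  surj : ∀ x, (∃ u, x = o u) ∨ ∃ u v s, G.Adj u v ∧ 0 < s ∧ s < L ∧ x = pt u v s
  card : Nat.card V' = Nat.card V + (L - 1) * Nat.card G.edgeSet

section Stmts

variable {V : Type} [Fintype V] [DecidableEq V] (G : SimpleGraph V)

/-- R1. Several teams with one helper squad. -/
def TeamsS : Prop := ∀ (J : Type) (s : Finset J) (k : J → ℕ) (B Z : J → Finset V) (k' : ℕ)
  (R S : Finset V), (∀ j ∈ s, St G (k j) R (B j) (Z j)) → (∀ j ∈ s, Wn G k' (B j)) →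
  (∀ v ∈ R, (∀ j ∈ s, v ∉ Z j) → v ∈ S) → S ⊆ R → (∀ j ∈ s, Disjoint S (Z j)) →
  (∀ r ∈ S, Wn G k' (cmp G S r)) → Wn G (∑ j ∈ s, k j + k') R

/-- R2a. One more cop is brought to a wall. -/
def BringS : Prop := ∀ (R : Finset V) (z : V) (T : Bf G R z) (ι : Type) [Fintype ι]
  (Q : (ι → V) → V → Prop) (X : Finset V) (a : V) (P : V → Prop), (∀ c r, r ∉ R → Q c r) →
  X ⊆ R → a ∈ R → X.card < Fintype.card ι →
  (∀ r ∈ R, ∀ r' ∈ R, P r → near G r r' → T.Free X r → T.Free X r' → P r') →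
  (∀ c, ∀ r ∈ R, T.Rdy (insert a X) c r → P r → Fc G Q c r) →
  ∀ c, ∀ r ∈ R, T.Rdy X c r → P r → Fc G Q c r

/-- R2b. One cop forbids a wall. -/
def WallS : Prop := ∀ (R : Finset V) (z : V) (T : Bf G R z), ∀ a ∈ R,
  St G 1 R ∅ (T.walls {a})

/-- R2c. The linear bound. -/
def LinS : Prop := ∀ (R : Finset V) (z : V) (T : Bf G R z) (Λ : Type) [Fintype Λ] (n : ℕ),
  Cells T Λ n → Wn G (n + 30) R

/-- R8. The strategy of a zone team. -/
def ZoneGS : Prop := ∀ (R : Finset V) (z : V) (T : Bf G R z) (ρ k₁ k₂ : ℕ),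
  T.ZD ρ (9 * (ρ + 1)) k₁ k₂ →
  St G (k₁ + k₂ + 30) R (ball G R z (9 * (ρ + 1))) (ball G R z (ρ + 1))

/-- R9. Batches of cops, clusters and the marriage theorem. -/
def BatchS : Prop := ∀ (P Λ : Type) (Pc : Finset P) (loc : P → V) (cell : P → Λ) (z : V)
  (q K k h : ℕ) (ρ : ℕ → ℕ), 0 < K → 0 < q →
  (∀ (Δ : Λ) (s : Finset P), s ⊆ Pc → (∀ p ∈ s, cell p = Δ) → s.card ≤ q) →
  (∀ p ∈ Pc, G.dist z (loc p) ≤ 2 * ρ k) →
  ∃ (ι : Type) (_ : Fintype ι) (c₀ : ι → V),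
    Fintype.card ι ≤ k * (Pc.card / K) + q * h * (2 * q * K) ^ k ∧
    ∀ C₀ : Finset Λ, C₀.card ≤ h → ∃ (C : ℕ → Finset Λ) (S : ℕ → Finset P) (g : ℕ → P → Option ι),
      C 0 = C₀ ∧ S k = ∅ ∧ (∀ i, S i ⊆ Pc) ∧
      (∀ i ≤ k, ∀ p ∈ Pc, cell p ∈ C i → p ∉ S i →
        ∃ x, g i p = some x ∧ G.dist (c₀ x) (loc p) ≤ 2 * ρ i) ∧
      (∀ i p i' p' x, g i p = some x → g i' p' = some x → i = i' ∧ p = p') ∧
      ∀ i < k, ∀ p ∈ S i, ∀ p' ∈ Pc, G.dist (loc p') (loc p) ≤ ρ i → cell p' ∈ C (i + 1)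

/-- R10. The light points are forbidden. -/
def LightS : Prop := ∀ (R₀ : Finset V) (z : V) (T : Bf G R₀ z) (Λ : Type) [Fintype Λ] (n : ℕ)
  (C : Cells T Λ n) (R : Finset V) (τ D K k h : ℕ) (ρ : ℕ → ℕ), R ⊆ R₀ → 0 < τ → 0 < K →
  (∀ v ∈ R₀, T.lv v + 2 * τ ≤ D * τ) → D * τ ≤ 2 * ρ k →
  (∀ i < k, ρ i + τ ≤ ρ (i + 1) ∧ 4 * ρ (i + 1) + 3 * τ ≤ 5 * ρ i) →
  St G (k * (n * D / K) + 20 * D * (h + 1) * (40 * D * K) ^ k + 30) R ∅
    (C.light D τ R (2 * ρ 0 + τ) h)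

/-- R12. A net of heavy points. -/
def NetS : Prop := ∀ (R₀ : Finset V) (z : V) (T : Bf G R₀ z) (Λ : Type) [Fintype Λ] (n : ℕ)
  (C : Cells T Λ n) (R : Finset V) (τ D r h : ℕ) (Sm : V → Prop), R ⊆ R₀ →
  (∀ v ∈ R₀, T.P v ∈ R → v ∈ R) → ∃ Z ⊆ R, (∀ x ∈ Z, Sm x) ∧ Z.card * (h + 1) ≤ n * D ∧
    ∀ x ∈ R, Sm x → x ∉ C.light D τ R r h → ∃ y ∈ Z, x ∈ ball G R y (2 * r + τ)

/-- R5. The abstract decomposition. -/
def DecS : Prop := ∀ (N : Type) [Fintype N] [DecidableEq N] (sw : Fin 3 → N → N) (M : Finset N)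
  (L : Finset (N × Fin 3)) (w : N → ℕ) (b : ℕ) (x : ℤ), (∀ i, Involutive (sw i)) →
  (∀ i p, sw i p ≠ p) → (∀ e ∈ L, e.1 ∈ M) → (∀ p i, (p, i) ∈ L → (sw i p, i) ∈ L) →
  M.Nonempty →
  (∀ p ∈ M, ∀ q ∈ M, Relation.ReflTransGen (fun a b => ∃ i, (a, i) ∈ L ∧ b = sw i a) p q) →
  (∀ p, w p ≤ 3) → 2 ≤ b → (L.card : ℤ) + 2 ≤ 2 * M.card + x → Nonempty (Dec sw M L w b x)

variable {G} {N W : Type} [Fintype N] [DecidableEq N] [Fintype W] [DecidableEq W] (K : Cx G N W)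

/-- R3. Trees exist. -/
def TreeS : Prop := ∀ (R : Finset V), ∀ z ∈ R, Cn G R → Nonempty (Tr K R z)

/-- R4a. Sealing. -/
def SealS : Prop := ∀ (R : Finset V) (z : V) (T : Tr K R z) (X : Finset W) (A : W → Prop)
  (φ : N → Prop), (∀ y, A y → A (T.par y)) →
  (∀ p i, (p, i) ∈ T.Ls X → φ p → ¬φ (K.sw i p) → ∀ j, j ≠ i → A (K.c p j)) →
  ∀ a ∈ X, ¬A a → ∀ p q i j, K.c p i = a → K.c q j = a → φ p → φ q

/-- R4b. Counting sides. -/
def CountS : Prop := ∀ (R : Finset V) (z : V) (T : Tr K R z) (X : Finset W),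
  2 * ((K.nd X).card : ℤ) + K.psi X ≤ (T.Ls X).card ∧
    ((T.Ls X).card : ℤ) ≤ 2 * (K.nd X).card + K.psi X + 2

/-- R4c. The decomposition of a connected set. -/
def DecXS : Prop := ∀ (R : Finset V) (z : V) (T : Tr K R z) (X : Finset W) (w : N → ℕ) (b : ℕ),
  K.Conn X → X.Nonempty → (∀ p, w p ≤ 3) → 2 ≤ b →
  Nonempty (Dec K.sw (K.nd X) (T.Ls X) w b (K.psi X + 4))

/-- R4d. The Euler characteristic of a connected set is at most two. -/
def LowS : Prop := ∀ X : Finset W, K.Conn X → X.Nonempty → -4 ≤ K.psi X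

/-- R13a. Removing a connected set. -/
def PsiS : Prop := ∀ (Y S : Finset W) (B : Finset V), S ⊆ Y → Cn G B → B.Nonempty →
  B.map K.ι ⊆ S → K.Psi (S \ B.map K.ι) + K.gv Y B ≤ K.Psi S + 4

/-- R13b. The components with positive `psi`. -/
def PosS : Prop := ∀ S : Finset W, ∃ s : Finset (Finset W), ∑ U ∈ s, K.psi U ≤ K.Psi S ∧
  (∀ U ∈ s, ∃ a ∈ S, U = K.comp S a ∧ 0 < K.psi U) ∧
  ∀ a ∈ S, 0 < K.psi (K.comp S a) → K.comp S a ∈ s

/-- R6. The cells of a decomposition. -/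
def CellS : Prop := ∀ (R : Finset V) (z : V) (T : Tr K R z) (Y : Finset W) (m : ℕ),
  R.map K.ι ⊆ Y → K.psi Y + 4 ≤ m →
  ∀ D : Dec K.sw (K.nd Y) (T.Ls Y) (fun _ => 0) 2 (K.psi Y + 4),
  ∃ C : Cells T.toBf N (6 * m), C.X = T.cX D ∧ C.cl = fun v => D.top (K.nodeAt (K.ι v))

/-- R11a. Monotonicity of `psi` up to a factor. -/
def MonoS : Prop := ∀ (R : Finset V) (z : V) (T : Tr K R z) (U X : Finset W), K.Conn U →
  U.Nonempty → T.Ls X ⊆ T.Ls U → K.psi X ≤ 3 * (K.psi U + 4)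

/-- R11b. Few walls make a set simple. -/
def KillS : Prop := ∀ (R : Finset V) (z : V) (T : Tr K R z) (S : Finset W), ∃ A ⊆ R,
  A.card ≤ 30 * K.Psi S ∧ ∀ B ⊆ R, Cn G B → B.map K.ι ⊆ S → (∀ v ∈ B, T.Free A v) →
    ∃ U, K.Conn U ∧ B.map K.ι ⊆ U ∧ U ⊆ S ∧ K.psi U ≤ 0

/-- R7. The data of a zone exist. -/
def ZdS : Prop := ∀ (R : Finset V) (z : V) (T : Tr K R z) (Y : Finset W) (m ρ d a β : ℕ),
  K.Conn Y → R.map K.ι ⊆ Y → K.psi Y + 4 ≤ m → 0 < β → ρ ≤ d →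
  K.gv Y (ball G R z d) ≤ K.gv Y (ball G R z ρ) + a →
  T.ZD ρ d (18 * a + 60 * m / β + 170) (60 * β + 200)

/-- R14. Carving. -/
def CarveS : Prop := ∀ (R : Finset V) (z : V) (T : Tr K R z) (Y : Finset W) (s n e M μ : ℕ),
  K.Conn Y → R.map K.ι ⊆ Y → 7 ≤ M → 0 < e → μ ≤ M * 2 ^ (n / e) →
  (∀ x ∈ R, K.gv Y (ball G R x (s + n * (2 * s + 2))) ≤ μ) →
  ∃ A ⊆ R, e * A.card ≤ 60 * K.Psi Y ∧ ∀ R' ⊆ R, (∀ v ∈ R', T.Free A v) → ∀ B ⊆ R', Cn G B →
    (∀ x ∈ B, M < K.gv Y (ball G R' x s)) → K.gv Y B ≤ μ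

variable (G)

/-- R15a. Subdivisions exist. -/
def SubS : Prop := ∀ L, 0 < L → ∃ (V' : Type) (_ : Fintype V') (_ : DecidableEq V')
  (G' : SimpleGraph V'), Nonempty (Sub G L G')

/-- R15b. Distances in a subdivision. -/
def SubDS : Prop := ∀ (V' : Type) [Fintype V'] [DecidableEq V'] (G' : SimpleGraph V') (κ : ℕ)
  (S : Sub G (2 * κ) G'), 0 < κ → G'.Connected ∧
  (∀ a x, G'.dist (S.o a) x ≤ 3 * κ → ∃ b, near G a b ∧ G'.dist (S.o b) x ≤ κ) ∧
  (∀ a b, G'.dist (S.o a) (S.o b) < 4 * κ → near G a b) ∧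
  ∀ a b, G'.dist (S.o a) (S.o b) < 2 * κ → a = b

open Classical in
/-- R15c. Small sets of a subdivision span few edges. -/
def SparseS : Prop := ∀ (V' : Type) [Fintype V'] (G' : SimpleGraph V') (L : ℕ) (S : Sub G L G')
  (B : Finset V'), (∀ a b, S.o a ∈ B → S.o b ∈ B → a = b) →
  ((B ×ˢ B).filter fun d => G'.Adj d.1 d.2).card ≤ 2 * B.card

/-- R16. Subdividing does not help the cops. -/
def SimS : Prop := ∀ (V' : Type) [Fintype V'] [DecidableEq V'] (G' : SimpleGraph V') (κ k : ℕ),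
  Sub G (2 * κ) G' → 2 ≤ κ → Wn G' k univ → CopsWin G k

open Classical in
/-- R17. The complex of a subdivided scheme. -/
def CxS : Prop := ∀ (σ : Scheme G) (g : ℕ) (V' : Type) [Fintype V'] [DecidableEq V']
  (G' : SimpleGraph V') (κ : ℕ), Sub G (2 * κ) G' → 0 < κ → G'.Connected → (∀ u, ∃ v, G.Adj u v) →
  Nat.card G.edgeSet + 2 ≤ Nat.card V + σ.faces + g →
  ∃ (N W : Type) (_ : Fintype N) (_ : DecidableEq N) (_ : Fintype W) (_ : DecidableEq W)
    (K : Cx G' N W), K.psi univ + 4 ≤ 2 * g ∧ ∀ B : Finset V',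
      K.psi (B.map K.ι) + 2 * B.card ≤ ((B ×ˢ B).filter fun d => G'.Adj d.1 d.2).card

end Stmts

/-- R18. The constants. -/
def ParamS : Prop := ∀ E a : ℕ, 0 < E → ∃ n D u K H Θ : ℕ, 0 < n ∧ a * n + 2 ≤ D ∧ D ≤ 2 ^ u ∧
  0 < K ∧ 48 * u * D * E ≤ K ∧ 0 < H ∧ 20 * D * (40 * D * K) ^ (8 * u) * E ≤ H ∧
  0 < Θ ∧ 468 * H * D * E ≤ Θ ∧ Θ ≤ 2 ^ (n / (60 * E))

end Pool.Agent.MP_de21d3_co.H6
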